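import Mathlib

/-! Elementary algebra for the short loop. -/

open Real Set Filter Topology

namespace Pool.Agent.TH432.RP

lemma phi_tendsto {c e : ℝ × ℝ} (h1 : 0 < c.1) (h2 : 0 < c.2) (κ : ℝ) :
    Tendsto (fun ε : ℝ => ε⁻¹ * (π * (ε * e.1 + ε * e.2) -
      κ * ((√(c.1 + ε * e.1) - √c.1) + (√(c.2 + ε * e.2) - √c.2)))) (𝓝[>] 0)
      (𝓝 (π * (e.1 + e.2) - κ * (e.1 / (2 * √c.1) + e.2 / (2 * √c.2)))) := by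
  have a1 : ∀ {a b : ℝ}, 0 < a → HasDerivAt (fun ε : ℝ => √(a + ε * b)) (b / (2 * √a)) 0 := by
    intro a b ha
    have h3 : HasDerivAt (fun ε : ℝ => a + ε * b) b 0 := by
      simpa using ((hasDerivAt_id (0 : ℝ)).mul_const b).const_add a
    have h4 := h3.sqrt (by simpa using ha.ne')
    simpa using h4
  have a2 : HasDerivAt (fun ε : ℝ => π * (ε * e.1 + ε * e.2)) (π * (e.1 + e.2)) 0 := by
    have h3 := (((hasDerivAt_id (0 : ℝ)).mul_const e.1).add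
      ((hasDerivAt_id (0 : ℝ)).mul_const e.2)).const_mul π
    simpa using h3
  have a3 := a2.sub ((((a1 (b := e.1) h1).sub_const √c.1).add
    ((a1 (b := e.2) h2).sub_const √c.2)).const_mul κ)
  rw [hasDerivAt_iff_tendsto_slope_zero] at a3
  have h3 := a3.mono_left (nhdsWithin_mono 0 (fun x (hx : 0 < x) => hx.ne') : 𝓝[>] (0 : ℝ) ≤ 𝓝[≠] 0)
  simpa using h3

lemma norm_le' {X Y α s : ℝ} (hα : 0 ≤ α) (hs : 0 ≤ s) (h : X ^ 2 + Y ^ 2 = α ^ 2) :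
    √((X + s) ^ 2 + Y ^ 2) ≤ α + s := by
  have hX : X ≤ α := le_of_sq_le_sq (by linarith [sq_nonneg Y]) hα
  rw [Real.sqrt_le_left (by positivity)]
  linarith [mul_le_mul_of_nonneg_right hX hs]

lemma cone {c₁ c₂ P Q S T ξ₁ ξ₂ : ℝ} (hc1 : 0 < c₁) (hc2 : 0 < c₂) (hP : 0 < P) (hT : 0 < T)
    (hsp : c₂ * P < c₁ * Q) (hsq : c₁ * T < c₂ * S)
    (hFO : ∀ e : ℝ × ℝ, 0 ≤ c₁ * e.1 * Q + c₂ * e.2 * P → 0 ≤ c₁ * e.1 * T + c₂ * e.2 * S →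
      0 ≤ e.1 * ξ₁ + e.2 * ξ₂) :
    ∃ a b : ℝ, 0 ≤ a ∧ 0 ≤ b ∧ ξ₁ = c₁ * (a * Q + b * T) ∧ ξ₂ = c₂ * (a * P + b * S) := by
  have hΔ : 0 < Q * S - P * T := by
    have h1 : (c₂ * P) * (c₁ * T) < (c₁ * Q) * (c₂ * S) :=
      mul_lt_mul'' hsp hsq (by positivity) (by positivity)
    have h2 : 0 < (c₁ * c₂) * (Q * S - P * T) := by linarith
    exact (pos_iff_pos_of_mul_pos h2).1 (by positivity)
  have h0 : 0 ≤ (c₁ * c₂) * (Q * S - P * T) := by positivity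
  have ha0 : 0 ≤ (c₂ * S) * ξ₁ + (-(c₁ * T)) * ξ₂ :=
    hFO (c₂ * S, -(c₁ * T)) (by simp only; linarith) (by simp only; apply le_of_eq; ring)
  have hb0 : 0 ≤ (-(c₂ * P)) * ξ₁ + (c₁ * Q) * ξ₂ :=
    hFO (-(c₂ * P), c₁ * Q) (by simp only; apply le_of_eq; ring) (by simp only; linarith)
  obtain ⟨Δ, hΔe⟩ : ∃ Δ, Δ = Q * S - P * T := ⟨_, rfl⟩
  rw [← hΔe] at hΔ
  refine ⟨((c₂ * S) * ξ₁ + (-(c₁ * T)) * ξ₂) / (c₁ * c₂ * Δ),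
    ((-(c₂ * P)) * ξ₁ + (c₁ * Q) * ξ₂) / (c₁ * c₂ * Δ), div_nonneg ha0 (by positivity),
    div_nonneg hb0 (by positivity), ?_, ?_⟩
  · field_simp
    rw [hΔe]
    ring
  · field_simp
    rw [hΔe]
    ring

lemma rot {F H a c₁ c₂ κ R : ℝ} (hF : 0 < F) (hH : 0 < H) (ha : 0 ≤ a) (hc1 : 0 < c₁) (hc2 : 0 < c₂)
    (hκ : 0 < κ) (hcR : c₁ + c₂ < R) (hF3 : F ^ 2 < c₁ * (c₁ + c₂))
    (hV : c₁ ^ 2 * H ^ 2 + c₂ ^ 2 * F ^ 2 = F ^ 2 * H ^ 2) :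
    √(F ^ 2 * (a * c₁ * H ^ 2 + κ / (2 * √c₁)) ^ 2 + H ^ 2 * (a * c₂ * F ^ 2) ^ 2) ≤
      a * (F ^ 2 * H ^ 2) + κ * √R / 2 := by
  have hs1 : 0 < √c₁ := Real.sqrt_pos.2 hc1
  have hR : 0 < R := by linarith
  have hfs : F / √c₁ ≤ √R := by
    rw [div_le_iff₀ hs1]
    refine le_of_sq_le_sq ?_ (by positivity)
    rw [mul_pow, Real.sq_sqrt hR.le, Real.sq_sqrt hc1.le]
    have := mul_le_mul_of_nonneg_left hcR.le hc1.le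
    linarith
  have h1 := norm_le' (X := a * c₁ * F * H ^ 2) (Y := a * c₂ * F ^ 2 * H)
    (α := a * (F ^ 2 * H ^ 2)) (s := κ / 2 * (F / √c₁)) (by positivity) (by positivity) (by
      calc _ = a ^ 2 * F ^ 2 * H ^ 2 * (c₁ ^ 2 * H ^ 2 + c₂ ^ 2 * F ^ 2) := by ring
        _ = _ := by rw [hV]; ring)
  have h2 : F ^ 2 * (a * c₁ * H ^ 2 + κ / (2 * √c₁)) ^ 2 + H ^ 2 * (a * c₂ * F ^ 2) ^ 2 =
      (a * c₁ * F * H ^ 2 + κ / 2 * (F / √c₁)) ^ 2 + (a * c₂ * F ^ 2 * H) ^ 2 := by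
    ring
  rw [h2]
  refine h1.trans ?_
  have := mul_le_mul_of_nonneg_left hfs (by positivity : 0 ≤ κ / 2)
  linarith

lemma kap {c κ : ℝ} (hc : 0 < c) : c * (κ / (2 * √c)) = κ * √c / 2 := by
  have hs : 0 < √c := Real.sqrt_pos.2 hc
  nth_rewrite 1 [← Real.mul_self_sqrt hc.le]
  field_simp

lemma speed {F H c₁ c₂ y : ℝ} (hF : F ≠ 0) (hH : H ≠ 0) (hy : 0 < y)
    (h : y ^ 2 = 1 - ((c₁ / F) ^ 2 + (c₂ / H) ^ 2)) :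
    1 + F ^ 2 * (c₁ / (F ^ 2 * y)) ^ 2 + H ^ 2 * (c₂ / (H ^ 2 * y)) ^ 2 = (1 / y) ^ 2 := by
  have h6 : 1 = y ^ 2 + (c₁ ^ 2 / F ^ 2 + c₂ ^ 2 / H ^ 2) := by rw [h, div_pow, div_pow]; ring
  have h7 : (1 / y) ^ 2 = (y ^ 2 + (c₁ ^ 2 / F ^ 2 + c₂ ^ 2 / H ^ 2)) / y ^ 2 := by
    rw [← h6, div_pow, one_pow]
  rw [h7]
  field_simp
  ring

lemma energy {F H c₁ c₂ y : ℝ} (hF : F ≠ 0) (hH : H ≠ 0) (hy : 0 < y)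
    (h : y ^ 2 = 1 - ((c₁ / F) ^ 2 + (c₂ / H) ^ 2)) :
    1 / y = y + (c₁ * (c₁ / (F ^ 2 * y)) + c₂ * (c₂ / (H ^ 2 * y))) := by
  have h4 : 1 = y ^ 2 + (c₁ ^ 2 / F ^ 2 + c₂ ^ 2 / H ^ 2) := by rw [h, div_pow, div_pow]; ring
  have h5 : 1 / y = (y ^ 2 + (c₁ ^ 2 / F ^ 2 + c₂ ^ 2 / H ^ 2)) / y := by rw [← h4]
  rw [h5]
  field_simp

lemma Vid {F H c₁ c₂ : ℝ} (hF : 0 < F) (hH : 0 < H) (h : (c₁ / F) ^ 2 + (c₂ / H) ^ 2 = 1) :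
    c₁ ^ 2 * H ^ 2 + c₂ ^ 2 * F ^ 2 = F ^ 2 * H ^ 2 := by
  rw [div_pow, div_pow, div_add_div _ _ (by positivity) (by positivity), div_eq_one_iff_eq
    (by positivity)] at h
  linarith

lemma final {c₁ c₂ T₁ T₂ ξ₁ ξ₂ κ R I A B α β s t S : ℝ} (hκ : 0 < κ) (hS : 0 < S) (hs : s ≤ S)
    (ht : t ≤ S) (e1 : c₁ * ξ₁ = c₁ * π - 2 * (c₁ * T₁) - κ * s / 2)
    (e2 : c₂ * ξ₂ = c₂ * π - 2 * (c₂ * T₂) - κ * t / 2)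
    (hαβ : c₁ * ξ₁ + c₂ * ξ₂ = α + β) (hA : A ≤ α + κ * S / 2) (hB : B ≤ β + κ * S / 2)
    (hval : 2 * I + π * (c₁ + c₂) - κ * (s + t) ≤ π * R - 4 * κ * S)
    (hlt : π * R < A + (I + (c₁ * T₁ + c₂ * T₂)) + B + (I + (c₁ * T₁ + c₂ * T₂))) : False := by
  have m1 := mul_le_mul_of_nonneg_left hs hκ.le
  have m2 := mul_le_mul_of_nonneg_left ht hκ.le
  have m3 : 0 < κ * S := by positivity
  linarith

end Pool.Agent.TH432.RP
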