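import Pool.Agent.TH432.RP.Loop

open Real Set MeasureTheory Filter Topology
open scoped ENNReal

namespace Pool.Agent.TH432.RP

lemma tent_mem {p q : ℝ} (hpq : p < q) (t : ℝ) : p ≤ tent p q t ∧ tent p q t ≤ q :=
  ⟨le_max_left _ _, max_le hpq.le (min_le_left _ _)⟩

lemma tent0 {p q t : ℝ} (ht : t ≤ p) : tent p q t = p := by
  unfold tent
  exact max_eq_left ((min_le_right _ _).trans ((min_le_left _ _).trans ht))

lemma tent1 {p q t : ℝ} (h1 : p ≤ t) (h2 : t ≤ q) : tent p q t = t := by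
  unfold tent
  rw [min_eq_left (by linarith : t ≤ 2 * q + 1 - t), min_eq_right h2, max_eq_right h1]

lemma tent2 {p q t : ℝ} (hpq : p < q) (h1 : q ≤ t) (h2 : t ≤ q + 1) : tent p q t = q := by
  unfold tent
  rw [min_eq_left (le_min h1 (by linarith)), max_eq_right hpq.le]

lemma tent3 {p q t : ℝ} (h1 : q + 1 ≤ t) (h2 : t ≤ 2 * q + 1 - p) :
    tent p q t = 2 * q + 1 - t := by
  unfold tent
  rw [min_eq_right (by linarith : 2 * q + 1 - t ≤ t), min_eq_right (by linarith),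
    max_eq_right (by linarith)]

lemma tent_ev0 {p q t : ℝ} (ht : t < p) : tent p q =ᶠ[𝓝 t] fun _ => p := by
  filter_upwards [Iio_mem_nhds ht] with s hs
  exact tent0 (le_of_lt hs)

lemma tent_ev1 {p q t : ℝ} (ht : t ∈ Ioo p q) : tent p q =ᶠ[𝓝 t] fun s => s := by
  filter_upwards [isOpen_Ioo.mem_nhds ht] with s hs
  exact tent1 hs.1.le hs.2.le

lemma tent_ev2 {p q t : ℝ} (hpq : p < q) (ht : t ∈ Ioo q (q + 1)) : tent p q =ᶠ[𝓝 t] fun _ => q := by
  filter_upwards [isOpen_Ioo.mem_nhds ht] with s hs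
  exact tent2 hpq hs.1.le hs.2.le

lemma tent_ev3 {p q t : ℝ} (ht : t ∈ Ioo (q + 1) (2 * q + 1 - p)) :
    tent p q =ᶠ[𝓝 t] fun s => 2 * q + 1 - s := by
  filter_upwards [isOpen_Ioo.mem_nhds ht] with s hs
  exact tent3 hs.1.le hs.2.le

lemma dens0 {p q A B t : ℝ} (hpq : p < q) (g : ℝ → ℝ) (ht : t ∈ Ioo (p - 1) p) :
    dens p q A B g t = A := by
  unfold dens
  rw [indicator_of_mem ht, indicator_of_notMem (fun h => by linarith [h.1, ht.2]),
    indicator_of_notMem (fun h => by linarith [h.1, ht.2]),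
    indicator_of_notMem (fun h => by linarith [h.1, ht.2])]
  ring

lemma dens1 {p q A B t : ℝ} (g : ℝ → ℝ) (ht : t ∈ Ioo p q) :
    dens p q A B g t = g t := by
  unfold dens
  rw [indicator_of_notMem (fun h => by linarith [h.2, ht.1]), indicator_of_mem ht,
    indicator_of_notMem (fun h => by linarith [h.1, ht.2]),
    indicator_of_notMem (fun h => by linarith [h.1, ht.2])]
  ring

lemma dens2 {p q A B t : ℝ} (hpq : p < q) (g : ℝ → ℝ) (ht : t ∈ Ioo q (q + 1)) :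
    dens p q A B g t = B := by
  unfold dens
  rw [indicator_of_notMem (fun h => by linarith [h.2, ht.1]),
    indicator_of_notMem (fun h => by linarith [h.2, ht.1]), indicator_of_mem ht,
    indicator_of_notMem (fun h => by linarith [h.1, ht.2])]
  ring

lemma dens3 {p q A B t : ℝ} (hpq : p < q) (g : ℝ → ℝ) (ht : t ∈ Ioo (q + 1) (2 * q + 1 - p)) :
    dens p q A B g t = g (2 * q + 1 - t) := by
  unfold dens
  rw [indicator_of_notMem (fun h => by linarith [h.2, ht.1]),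
    indicator_of_notMem (fun h => by linarith [h.2, ht.1]),
    indicator_of_notMem (fun h => by linarith [h.2, ht.1]), indicator_of_mem ht]
  ring

lemma cases4 {p q t : ℝ} (ht : t ∈ Ioo (p - 1) (2 * q + 1 - p)) (h1 : t ≠ p)
    (h2 : t ≠ q) (h3 : t ≠ q + 1) : t ∈ Ioo (p - 1) p ∨ t ∈ Ioo p q ∨ t ∈ Ioo q (q + 1) ∨
      t ∈ Ioo (q + 1) (2 * q + 1 - p) := by
  rcases lt_or_gt_of_ne h1 with h1 | h1
  · exact Or.inl ⟨ht.1, h1⟩
  rcases lt_or_gt_of_ne h2 with h2 | h2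
  · exact Or.inr (Or.inl ⟨h1, h2⟩)
  rcases lt_or_gt_of_ne h3 with h3 | h3
  · exact Or.inr (Or.inr (Or.inl ⟨h2, h3⟩))
  · exact Or.inr (Or.inr (Or.inr ⟨h3, ht.2⟩))

theorem osc {k m : ℕ} (hk : 2 ≤ k) (hm : 2 ≤ m) {L : ℝ} {f h : ℝ → ℝ} {p q : ℝ} (hp : 0 < p)
    (hpq : p < q) (hq : q < L) {g₁ g₂ D : ℝ → ℝ} (hg₁ : ContinuousOn g₁ (Ioo p q))
    (hg₂ : ContinuousOn g₂ (Ioo p q)) (hi₁ : IntegrableOn g₁ (Ioo p q))
    (hi₂ : IntegrableOn g₂ (Ioo p q)) {A₁ A₂ B₁ B₂ : ℝ}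
    (h1 : A₁ + B₁ + 2 * ∫ x in Ioo p q, g₁ x = π) (h2 : A₂ + B₂ + 2 * ∫ x in Ioo p q, g₂ x = π)
    (hD : IntegrableOn D (Ioo p q)) (hD0 : ∀ x ∈ Ioo p q, 0 ≤ D x)
    (hDe : ∀ x ∈ Ioo p q, 1 + f x ^ 2 * g₁ x ^ 2 + h x ^ 2 * g₂ x ^ 2 = D x ^ 2) :
    systole k m L f h ≤ ENNReal.ofReal (√(f p ^ 2 * A₁ ^ 2 + h p ^ 2 * A₂ ^ 2) +
      (∫ x in Ioo p q, D x) + √(f q ^ 2 * B₁ ^ 2 + h q ^ 2 * B₂ ^ 2) + ∫ x in Ioo p q, D x) := by
  have hab : p - 1 < 2 * q + 1 - p := by linarith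
  have htc : Continuous (tent p q) := by unfold tent; fun_prop
  have key := systole_le (f := f) (h := h) hk hm (L := L) hab (r := tent p q)
    (ψ := dens p q A₁ B₁ g₁) (χ := dens p q A₂ B₂ g₂) htc.continuousOn
    (fun t _ => ⟨hp.trans_le (tent_mem hpq t).1, (tent_mem hpq t).2.trans_lt hq⟩)
    (by rw [tent3 (by linarith) le_rfl, tent0 (by linarith)]; ring)
    (fun x y => (dens_integrable hi₁).intervalIntegrable)
    (fun x y => (dens_integrable hi₂).intervalIntegrable) {p, q, q + 1}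
    (fun t ht htF => by
      simp only [Finset.mem_insert, Finset.mem_singleton, not_or] at htF
      obtain ⟨n1, n2, n3⟩ := htF
      refine ⟨?_, dens_contAt hg₁ ht.1.ne' n1 n2 n3 ht.2.ne, dens_contAt hg₂ ht.1.ne' n1 n2 n3 ht.2.ne⟩
      rcases cases4 ht n1 n2 n3 with h | h | h | h
      · exact contDiffAt_const.congr_of_eventuallyEq (tent_ev0 h.2)
      · exact contDiffAt_id.congr_of_eventuallyEq (tent_ev1 h)
      · exact contDiffAt_const.congr_of_eventuallyEq (tent_ev2 hpq h)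
      · exact (contDiffAt_const.sub contDiffAt_id).congr_of_eventuallyEq (tent_ev3 h))
    (by rw [dens_integral hpq hi₁, h1]) (by rw [dens_integral hpq hi₂, h2])
  refine key.trans ?_
  set G : ℝ → ℝ≥0∞ := fun t => ENNReal.ofReal √(deriv (tent p q) t ^ 2 +
    f (tent p q t) ^ 2 * dens p q A₁ B₁ g₁ t ^ 2 + h (tent p q t) ^ 2 * dens p q A₂ B₂ g₂ t ^ 2) with hG
  have hcov : Ioo (p - 1) (2 * q + 1 - p) ⊆ (((Ioo (p - 1) p ∪ Ioo p q) ∪ Ioo q (q + 1)) ∪
      Ioo (q + 1) (2 * q + 1 - p)) ∪ ({p, q, q + 1} : Finset ℝ) := by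
    intro t ht
    by_cases n1 : t = p
    · right; simp [n1]
    by_cases n2 : t = q
    · right; simp [n2]
    by_cases n3 : t = q + 1
    · right; simp [n3]
    left
    rcases cases4 ht n1 n2 n3 with h | h | h | h
    · exact Or.inl (Or.inl (Or.inl h))
    · exact Or.inl (Or.inl (Or.inr h))
    · exact Or.inl (Or.inr h)
    · exact Or.inr h
  have hz : ∫⁻ t in (({p, q, q + 1} : Finset ℝ) : Set ℝ), G t = 0 :=
    setLIntegral_measure_zero _ _ ((Finset.finite_toSet _).measure_zero volume)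
  have e0 : ∫⁻ t in Ioo (p - 1) p, G t = ENNReal.ofReal √(f p ^ 2 * A₁ ^ 2 + h p ^ 2 * A₂ ^ 2) := by
    rw [setLIntegral_congr_fun (g := fun _ => ENNReal.ofReal √(f p ^ 2 * A₁ ^ 2 + h p ^ 2 * A₂ ^ 2))
      measurableSet_Ioo (fun t ht => ?_)]
    · rw [setLIntegral_const]; simp
    · simp only [hG]
      rw [(tent_ev0 ht.2).deriv_eq, tent0 ht.2.le, dens0 hpq _ ht, dens0 hpq _ ht]
      simp
  have e1 : ∫⁻ t in Ioo p q, G t = ENNReal.ofReal (∫ x in Ioo p q, D x) := by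
    rw [ofReal_integral_eq_lintegral_ofReal hD
      ((ae_restrict_iff' measurableSet_Ioo).2 (ae_of_all _ hD0))]
    refine setLIntegral_congr_fun measurableSet_Ioo (fun t ht => ?_)
    simp only [hG]
    rw [(tent_ev1 ht).deriv_eq, tent1 ht.1.le ht.2.le, dens1 _ ht, dens1 _ ht]
    congr 1
    rw [show deriv (fun s : ℝ => s) t = 1 from deriv_id t, one_pow, hDe t ht, Real.sqrt_sq (hD0 t ht)]
  have e2 : ∫⁻ t in Ioo q (q + 1), G t = ENNReal.ofReal √(f q ^ 2 * B₁ ^ 2 + h q ^ 2 * B₂ ^ 2) := by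
    rw [setLIntegral_congr_fun (g := fun _ => ENNReal.ofReal √(f q ^ 2 * B₁ ^ 2 + h q ^ 2 * B₂ ^ 2))
      measurableSet_Ioo (fun t ht => ?_)]
    · rw [setLIntegral_const]; simp
    · simp only [hG]
      rw [(tent_ev2 hpq ht).deriv_eq, tent2 hpq ht.1.le ht.2.le, dens2 hpq _ ht, dens2 hpq _ ht]
      simp
  have e3 : ∫⁻ t in Ioo (q + 1) (2 * q + 1 - p), G t = ENNReal.ofReal (∫ x in Ioo p q, D x) := by
    rw [ofReal_integral_eq_lintegral_ofReal hD
      ((ae_restrict_iff' measurableSet_Ioo).2 (ae_of_all _ hD0)),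
      ← (refl_mp (2 * q + 1)).setLIntegral_comp_preimage_emb (refl_me _)
        (fun x => ENNReal.ofReal (D x)) (Ioo p q), refl_pre]
    refine setLIntegral_congr_fun measurableSet_Ioo (fun t ht => ?_)
    simp only [hG]
    have ht' : 2 * q + 1 - t ∈ Ioo p q := ⟨by linarith [ht.2], by linarith [ht.1]⟩
    rw [(tent_ev3 ht).deriv_eq, tent3 ht.1.le ht.2.le, dens3 hpq _ ht, dens3 hpq _ ht]
    congr 1
    have hd : deriv (fun s : ℝ => 2 * q + 1 - s) t = -1 := by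
      rw [deriv_const_sub]; simp
    rw [hd, show (-1 : ℝ) ^ 2 = 1 by norm_num, hDe _ ht', Real.sqrt_sq (hD0 _ ht')]
  have hD1 : 0 ≤ ∫ x in Ioo p q, D x := setIntegral_nonneg measurableSet_Ioo hD0
  calc ∫⁻ t in Ioo (p - 1) (2 * q + 1 - p), G t
      ≤ ∫⁻ t in (((Ioo (p - 1) p ∪ Ioo p q) ∪ Ioo q (q + 1)) ∪
        Ioo (q + 1) (2 * q + 1 - p)) ∪ ({p, q, q + 1} : Finset ℝ), G t := lintegral_mono_set hcov
    _ ≤ (((∫⁻ t in Ioo (p - 1) p, G t) + ∫⁻ t in Ioo p q, G t) + ∫⁻ t in Ioo q (q + 1), G t) +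
        (∫⁻ t in Ioo (q + 1) (2 * q + 1 - p), G t) + ∫⁻ t in (({p, q, q + 1} : Finset ℝ) : Set ℝ), G t := by
      refine (lintegral_union_le _ _ _).trans (add_le_add_left ?_ _)
      refine (lintegral_union_le _ _ _).trans (add_le_add_left ?_ _)
      refine (lintegral_union_le _ _ _).trans (add_le_add_left ?_ _)
      exact lintegral_union_le _ _ _
    _ = _ := by
      rw [e0, e1, e2, e3, hz, add_zero, ← ENNReal.ofReal_add (by positivity) hD1,
        ← ENNReal.ofReal_add (by positivity) (by positivity),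
        ← ENNReal.ofReal_add (by positivity) hD1]

end Pool.Agent.TH432.RP
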