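import Pool.Agent.TH432.RP.Crit
import Pool.Agent.TH432.RP.Osc
import Pool.Agent.TH432.RP.Alg

/-! A loop shorter than `π R` from the minimum of the truncated action. -/

open Real Set MeasureTheory Filter Topology
open scoped ENNReal
open Pool.Agent.H206R2.Rot2 (Veff IsProfile2 Tri)

namespace Pool.Agent.TH432.RP

lemma hbd {f h : ℝ → ℝ} {c₁ c₂ p q : ℝ}
    (hint : IntegrableOn (fun r => 1 / √(1 - Veff f h c₁ c₂ r)) (Ioo p q))
    {g : ℝ → ℝ} (d : ℝ) (hg : Continuous g) (hg0 : ∀ x ∈ Icc p q, g x ≠ 0) :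
    IntegrableOn (fun x => d / (g x ^ 2 * √(1 - Veff f h c₁ c₂ x))) (Ioo p q) := by
  have hcont : ContinuousOn (fun x => d / g x ^ 2) (Icc p q) :=
    continuousOn_const.div (hg.continuousOn.pow 2) fun x hx => pow_ne_zero 2 (hg0 x hx)
  obtain ⟨M, hM⟩ := isCompact_Icc.exists_bound_of_continuousOn hcont
  have h1 : IntegrableOn (fun x => (d / g x ^ 2) * (1 / √(1 - Veff f h c₁ c₂ x)))
      (Ioo p q) := by
    refine Integrable.bdd_mul (c := M) hint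
      ((hcont.mono Ioo_subset_Icc_self).aestronglyMeasurable measurableSet_Ioo) ?_
    exact (ae_restrict_iff' measurableSet_Ioo).2 (Filter.Eventually.of_forall fun x hx =>
      hM x (Ioo_subset_Icc_self hx))
  refine h1.congr_fun (fun x _ => ?_) measurableSet_Ioo
  simp only [mul_one_div, div_div]

theorem action_bound {k m : ℕ} (hk : 2 ≤ k) (hm : 2 ≤ m) {L : ℝ} {f h : ℝ → ℝ}
    (hf : IsProfile2 L f h) {R : ℝ} (hR : 0 < R)
    (hT : ∀ r ∈ Icc 0 L, R ^ 2 ≤ f r ^ 2 + h r ^ 2)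
    (hsys : ENNReal.ofReal (π * R) < systole k m L f h) :
    ∀ c ∈ Tri R, π * (R - c.1 - c.2) ≤ 2 * ∫ r in Ioo 0 L, √(1 - Veff f h c.1 c.2 r) := by
  intro c₀ hc₀
  by_contra hcon
  obtain ⟨κ, hκ, c, p, q, H⟩ := exists_crit hf hR hT hc₀ (not_le.1 hcon)
  clear hcon hc₀
  obtain ⟨c₁, c₂⟩ := c
  obtain ⟨hc1, hc2, hcR, hp, hpq, hq, hVp, hVq, hin, hsp, hsq, hfp3, hhq3, hval, hmin⟩ := H
  simp only at hc1 hc2 hcR hVp hVq hin hsp hsq hfp3 hhq3 hval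
  have hfc : Continuous f := hf.smooth_f.continuous
  have hhc : Continuous h := hf.smooth_h.continuous
  have hfne : ∀ x ∈ Icc p q, f x ≠ 0 := fun x hx =>
    (hf.f_pos x (hp.trans_le hx.1) (hx.2.trans hq.le)).ne'
  have hhne : ∀ x ∈ Icc p q, h x ≠ 0 := fun x hx =>
    (hf.h_pos x (hp.trans_le hx.1).le (hx.2.trans_lt hq)).ne'
  -- integrability
  have hint : IntegrableOn (fun r => 1 / √(1 - Veff f h c₁ c₂ r)) (Ioo p q) := by
    refine integrable_inv (c := (c₁, c₂)) hfc hhc (fun x hx => hfne x (Ioo_subset_Icc_self hx)) hc1 hin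
      (K₀ := π) ?_
    filter_upwards [hmin (1, 0) (by simp only; positivity) (by simp only; positivity),
      self_mem_nhdsWithin] with ε hε hε0
    rw [mem_Ioi] at hε0
    simp only [mul_zero, add_zero, mul_one, sub_self] at hε ⊢
    have h1 : √c₁ ≤ √(c₁ + ε) := Real.sqrt_le_sqrt (by linarith)
    have h2 := mul_nonneg hκ.le (sub_nonneg.2 h1)
    linarith
  have i1 := hbd hint c₁ hfc hfne
  have i2 := hbd hint c₂ hhc hhne
  obtain ⟨g₁, hg₁⟩ : ∃ g : ℝ → ℝ, g = fun x => c₁ / (f x ^ 2 * √(1 - Veff f h c₁ c₂ x)) := ⟨_, rfl⟩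
  obtain ⟨g₂, hg₂⟩ : ∃ g : ℝ → ℝ, g = fun x => c₂ / (h x ^ 2 * √(1 - Veff f h c₁ c₂ x)) := ⟨_, rfl⟩
  rw [← hg₁] at i1
  rw [← hg₂] at i2
  obtain ⟨T₁, hT₁⟩ : ∃ t, t = ∫ x in Ioo p q, g₁ x := ⟨_, rfl⟩
  obtain ⟨T₂, hT₂⟩ : ∃ t, t = ∫ x in Ioo p q, g₂ x := ⟨_, rfl⟩
  obtain ⟨ξ₁, hξ₁⟩ : ∃ t, t = π - 2 * T₁ - κ / (2 * √c₁) := ⟨_, rfl⟩
  obtain ⟨ξ₂, hξ₂⟩ : ∃ t, t = π - 2 * T₂ - κ / (2 * √c₂) := ⟨_, rfl⟩
  have hFO : ∀ e : ℝ × ℝ, 0 ≤ c₁ * e.1 * h p ^ 2 + c₂ * e.2 * f p ^ 2 →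
      0 ≤ c₁ * e.1 * h q ^ 2 + c₂ * e.2 * f q ^ 2 → 0 ≤ e.1 * ξ₁ + e.2 * ξ₂ := by
    intro e h1 h2
    have h3 := first_order (c := (c₁, c₂)) hfc hhc hfne hhne hin hint e
      (phi_tendsto (c := (c₁, c₂)) (e := e) hc1 hc2 κ) (hmin e h1 h2)
    have h4 : ∫ r in Ioo p q, De f h (c₁, c₂) e r = e.1 * T₁ + e.2 * T₂ := by
      rw [hT₁, hT₂, ← integral_const_mul, ← integral_const_mul, ← integral_add
        (i1.const_mul _) (i2.const_mul _)]
      refine setIntegral_congr_fun measurableSet_Ioo fun x hx => ?_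
      simp only [De, hg₁, hg₂]
      ring
    rw [h4] at h3
    have h5 : e.1 * ξ₁ + e.2 * ξ₂ = (π * (e.1 + e.2) - κ * (e.1 / (2 * √c₁) + e.2 / (2 * √c₂))) -
        2 * (e.1 * T₁ + e.2 * T₂) := by
      rw [hξ₁, hξ₂]
      ring
    rw [h5]
    exact sub_nonneg.2 h3
  have hfp : 0 < f p := hf.f_pos p hp (hpq.le.trans hq.le)
  have hfq : 0 < f q := hf.f_pos q (hp.trans hpq) hq.le
  have hhp : 0 < h p := hf.h_pos p hp.le (hpq.trans hq)
  have hhq : 0 < h q := hf.h_pos q (hp.trans hpq).le hq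
  have hVp' := Vid hfp hhp hVp
  have hVq' := Vid hfq hhq hVq
  obtain ⟨a, b, ha, hb, hξ₁e, hξ₂e⟩ := cone hc1 hc2 (by positivity : 0 < f p ^ 2)
    (by positivity : 0 < h q ^ 2) hsp hsq hFO
  have hVc : ContinuousOn (fun x => √(1 - Veff f h c₁ c₂ x)) (Ioo p q) := by
    unfold Veff
    refine (continuousOn_const.sub ((((continuousOn_const.div hfc.continuousOn fun x hx =>
      hfne x (Ioo_subset_Icc_self hx)).pow 2).add ((continuousOn_const.div hhc.continuousOn fun x hx =>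
      hhne x (Ioo_subset_Icc_self hx)).pow 2)))).sqrt
  have hsqp : ∀ x ∈ Ioo p q, 0 < √(1 - Veff f h c₁ c₂ x) := fun x hx =>
    Real.sqrt_pos.2 (by linarith [hin x hx])
  have hsqe : ∀ x ∈ Ioo p q, √(1 - Veff f h c₁ c₂ x) ^ 2 = 1 - ((c₁ / f x) ^ 2 + (c₂ / h x) ^ 2) :=
    fun x hx => Real.sq_sqrt (by linarith [hin x hx] : 0 ≤ 1 - Veff f h c₁ c₂ x)
  have hg₁c : ContinuousOn g₁ (Ioo p q) := by
    rw [hg₁]
    exact continuousOn_const.div ((hfc.continuousOn.pow 2).mul hVc) fun x hx => mul_ne_zero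
      (pow_ne_zero 2 (hfne x (Ioo_subset_Icc_self hx))) (hsqp x hx).ne'
  have hg₂c : ContinuousOn g₂ (Ioo p q) := by
    rw [hg₂]
    exact continuousOn_const.div ((hhc.continuousOn.pow 2).mul hVc) fun x hx => mul_ne_zero
      (pow_ne_zero 2 (hhne x (Ioo_subset_Icc_self hx))) (hsqp x hx).ne'
  have hosc := osc (f := f) (h := h) hk hm hp hpq hq hg₁c hg₂c i1 i2
    (A₁ := a * c₁ * h p ^ 2 + κ / (2 * √c₁)) (A₂ := a * c₂ * f p ^ 2)
    (B₁ := b * c₁ * h q ^ 2) (B₂ := b * c₂ * f q ^ 2 + κ / (2 * √c₂))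
    (by
      rw [hξ₁e] at hξ₁
      rw [← hT₁]
      linarith)
    (by
      rw [hξ₂e] at hξ₂
      rw [← hT₂]
      linarith)
    (D := fun x => 1 / √(1 - Veff f h c₁ c₂ x)) hint
    (fun x hx => one_div_nonneg.2 (hsqp x hx).le)
    (fun x hx => by
      simp only [hg₁, hg₂]
      exact speed (hfne x (Ioo_subset_Icc_self hx)) (hhne x (Ioo_subset_Icc_self hx)) (hsqp x hx)
        (hsqe x hx))
  have hlt := hsys.trans_le hosc
  rw [ENNReal.ofReal_lt_ofReal_iff_of_nonneg (by positivity)] at hlt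
  -- the lengths of the rotations
  have hrot1 := rot hfp hhp ha hc1 hc2 hκ hcR hfp3 hVp'
  have hrot2 := rot (F := h q) (H := f q) hhq hfq hb hc2 hc1 hκ (by linarith) (by linarith) (by linarith)
    (R := R)
  rw [add_comm (h q ^ 2 * _), mul_comm (h q ^ 2) (f q ^ 2)] at hrot2
  -- the energy identity
  have hener : ∫ x in Ioo p q, 1 / √(1 - Veff f h c₁ c₂ x) =
      (∫ x in Ioo p q, √(1 - Veff f h c₁ c₂ x)) + (c₁ * T₁ + c₂ * T₂) := by
    have j12 : IntegrableOn (fun x => c₁ * g₁ x + c₂ * g₂ x) (Ioo p q) :=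
      (i1.const_mul c₁).add (i2.const_mul c₂)
    rw [hT₁, hT₂, ← integral_const_mul, ← integral_const_mul, ← integral_add
        (i1.const_mul _) (i2.const_mul _), ← integral_add (sqrt_int hfc hhc _ _) j12]
    refine setIntegral_congr_fun measurableSet_Ioo fun x hx => ?_
    simp only [hg₁, hg₂]
    exact energy (hfne x (Ioo_subset_Icc_self hx)) (hhne x (Ioo_subset_Icc_self hx)) (hsqp x hx)
      (hsqe x hx)
  have hαβ : c₁ * ξ₁ + c₂ * ξ₂ = a * (f p ^ 2 * h p ^ 2) + b * (f q ^ 2 * h q ^ 2) := by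
    rw [hξ₁e, hξ₂e, ← hVp', ← hVq']
    ring
  have e1 : c₁ * ξ₁ = c₁ * π - 2 * (c₁ * T₁) - κ * √c₁ / 2 := by
    rw [← kap hc1, hξ₁]; ring
  have e2 : c₂ * ξ₂ = c₂ * π - 2 * (c₂ * T₂) - κ * √c₂ / 2 := by
    rw [← kap hc2, hξ₂]; ring
  rw [hener] at hlt
  exact final hκ (Real.sqrt_pos.2 hR) (Real.sqrt_le_sqrt (by linarith : c₁ ≤ R))
    (Real.sqrt_le_sqrt (by linarith : c₂ ≤ R)) e1 e2 hαβ hrot1 hrot2 hval hlt

end Pool.Agent.TH432.RP
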