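import Pool.Agent.TH432.RP.Loop

/-! The great circles of the round metric, in coordinates. -/

open Real Set MeasureTheory Filter Topology
open scoped ENNReal ContDiff

namespace Pool.Agent.TH432.RP

/-- `a cos² + b sin²` -/
noncomputable def NN (a b t : ℝ) : ℝ := a * Real.cos t ^ 2 + b * Real.sin t ^ 2

lemma NN_pos {a b : ℝ} (ha : 0 < a) (hb : 0 < b) (t : ℝ) : 0 < NN a b t := by
  unfold NN
  have h := Real.cos_sq_add_sin_sq t
  rcases eq_or_ne (Real.cos t) 0 with h0 | h0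
  · rw [h0] at h ⊢
    have h1 : Real.sin t ^ 2 = 1 := by linarith
    rw [h1]
    linarith
  · have h2 : 0 < Real.cos t ^ 2 := by positivity
    nlinarith [mul_nonneg hb.le (sq_nonneg (Real.sin t))]

lemma NN_deriv (a b t : ℝ) : HasDerivAt (NN a b) (2 * (b - a) * Real.sin t * Real.cos t) t := by
  unfold NN
  have h1 := (((Real.hasDerivAt_cos t).fun_pow 2).const_mul a).add
    (((Real.hasDerivAt_sin t).fun_pow 2).const_mul b)
  refine h1.congr_deriv ?_
  simp only [Nat.cast_ofNat]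
  ring

lemma NN_contDiff (a b : ℝ) : ContDiff ℝ 1 (NN a b) := by
  unfold NN
  exact (contDiff_const.mul (Real.contDiff_cos.pow 2)).add (contDiff_const.mul (Real.contDiff_sin.pow 2))

/-- A half great circle, projected radially to the unit circle of a plane. -/
lemma circ {k : ℕ} (hk : 2 ≤ k) {a b : ℝ} (ha : 0 < a) (hb : 0 < b) :
    ∃ u : ℝ → EuclideanSpace ℝ (Fin k), ContDiff ℝ 1 u ∧ (∀ t, ‖u t‖ = 1) ∧ u π = -u 0 ∧
      ∀ t, ‖deriv u t‖ ^ 2 = a * b / NN a b t ^ 2 := by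
  obtain ⟨e₁, e₂, he⟩ := exists_frame hk
  have hsa := Real.sq_sqrt ha.le
  have hsb := Real.sq_sqrt hb.le
  have hN : ∀ t, 0 < √(NN a b t) := fun t => Real.sqrt_pos.2 (NN_pos ha hb t)
  have hNs : ∀ t, √(NN a b t) ^ 2 = NN a b t := fun t => Real.sq_sqrt (NN_pos ha hb t).le
  have hsc : ContDiff ℝ 1 fun t => √(NN a b t) :=
    (NN_contDiff a b).sqrt fun t => (NN_pos ha hb t).ne'
  refine ⟨fun t => (√a * Real.cos t / √(NN a b t)) • e₁ + (√b * Real.sin t / √(NN a b t)) • e₂,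
    ?_, fun t => ?_, ?_, fun t => ?_⟩
  · exact (((contDiff_const.mul Real.contDiff_cos).div hsc fun t => (hN t).ne').smul contDiff_const).add
      (((contDiff_const.mul Real.contDiff_sin).div hsc fun t => (hN t).ne').smul contDiff_const)
  · rw [he, ← Real.sqrt_one]
    congr 1
    have h1 := hN t
    have h2 := hNs t
    rw [div_pow, div_pow, ← add_div, mul_pow, mul_pow, hsa, hsb, h2, div_eq_one_iff_eq (NN_pos ha hb t).ne']
    rfl
  · have h1 : NN a b π = NN a b 0 := by unfold NN; simp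
    simp only [h1, Real.cos_pi, Real.sin_pi, Real.cos_zero, Real.sin_zero, mul_zero, zero_div, zero_smul,
      add_zero, mul_one, mul_neg, neg_div, neg_smul]
  · have hd : HasDerivAt (fun t => √(NN a b t))
        (2 * (b - a) * Real.sin t * Real.cos t / (2 * √(NN a b t))) t :=
      (NN_deriv a b t).sqrt (NN_pos ha hb t).ne'
    have d1 := ((Real.hasDerivAt_cos t).const_mul √a).fun_div hd (hN t).ne'
    have d2 := ((Real.hasDerivAt_sin t).const_mul √b).fun_div hd (hN t).ne'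
    have d3 := (d1.smul_const e₁).fun_add (d2.smul_const e₂)
    rw [d3.deriv, he, Real.sq_sqrt (by positivity)]
    have h1 := hN t
    have h2 := hNs t
    have h3 := Real.cos_sq_add_sin_sq t
    obtain ⟨s, hs⟩ : ∃ s, s = √(NN a b t) := ⟨_, rfl⟩
    rw [← hs] at h1 h2 ⊢
    have h4 : NN a b t = a * Real.cos t ^ 2 + b * Real.sin t ^ 2 := rfl
    obtain ⟨C, hC⟩ : ∃ C, C = Real.cos t := ⟨_, rfl⟩
    obtain ⟨S, hS⟩ : ∃ S, S = Real.sin t := ⟨_, rfl⟩
    rw [h4] at h2
    rw [← h2.trans h4.symm]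
    rw [← hC, ← hS] at h2 h3 ⊢
    obtain ⟨A, hA⟩ : ∃ A, A = √a := ⟨_, rfl⟩
    obtain ⟨B, hB⟩ : ∃ B, B = √b := ⟨_, rfl⟩
    rw [← hA] at hsa ⊢
    rw [← hB] at hsb ⊢
    have k1 : 2 * S * s ^ 2 + C * (2 * (b - a) * S * C) = 2 * b * S := by
      rw [h2]
      calc _ = 2 * b * S * (C ^ 2 + S ^ 2) := by ring
        _ = _ := by rw [h3]; ring
    have k2 : 2 * C * s ^ 2 - S * (2 * (b - a) * S * C) = 2 * a * C := by
      rw [h2]
      calc _ = 2 * a * C * (C ^ 2 + S ^ 2) := by ring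
        _ = _ := by rw [h3]; ring
    have k3 : (A * -S * s - A * C * (2 * (b - a) * S * C / (2 * s))) / s ^ 2 = -(A * b * S) / s ^ 3 := by
      have : A * -S * s - A * C * (2 * (b - a) * S * C / (2 * s)) =
          -A * (2 * S * s ^ 2 + C * (2 * (b - a) * S * C)) / (2 * s) := by
        field_simp
        ring
      rw [this, k1]
      field_simp
    have k4 : (B * C * s - B * S * (2 * (b - a) * S * C / (2 * s))) / s ^ 2 = B * a * C / s ^ 3 := by
      have : B * C * s - B * S * (2 * (b - a) * S * C / (2 * s)) =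
          B * (2 * C * s ^ 2 - S * (2 * (b - a) * S * C)) / (2 * s) := by
        field_simp
      rw [this, k2]
      field_simp
    rw [k3, k4]
    have k5 : (-(A * b * S) / s ^ 3) ^ 2 + (B * a * C / s ^ 3) ^ 2 = a * b * (s ^ 2) / s ^ 6 := by
      rw [h2]
      have : (-(A * b * S) / s ^ 3) ^ 2 + (B * a * C / s ^ 3) ^ 2 =
        (A ^ 2 * b ^ 2 * S ^ 2 + B ^ 2 * a ^ 2 * C ^ 2) / s ^ 6 := by ring
      rw [this, hsa, hsb]
      ring
    rw [k5]
    field_simp

end Pool.Agent.TH432.RP
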