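import Pool.Agent.TH432.RP.Min

/-! The minimum of the truncated action is a regular well. -/

open Real Set MeasureTheory Filter Topology
open scoped ENNReal
open Pool.Agent.H206R2.Rot2 (Veff IsProfile2 Tri)

namespace Pool.Agent.TH432.RP

lemma PI_closed {f h : ℝ → ℝ} (hf : Continuous f) (hh : Continuous h) (c₁ c₂ : ℝ) :
    IsClosed {r | PI f h c₁ c₂ r} := by
  unfold PI
  simp only [Set.ofPred_and]
  exact (isClosed_le (by fun_prop) (by fun_prop)).inter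
    ((isClosed_le (by fun_prop) (by fun_prop)).inter (isClosed_le (by fun_prop) (by fun_prop)))

lemma PII_closed {f h : ℝ → ℝ} (hf : Continuous f) (hh : Continuous h) (c₁ c₂ : ℝ) :
    IsClosed {r | PII f h c₁ c₂ r} := by
  unfold PII
  simp only [Set.ofPred_and]
  exact (isClosed_le (by fun_prop) (by fun_prop)).inter
    ((isClosed_le (by fun_prop) (by fun_prop)).inter (isClosed_le (by fun_prop) (by fun_prop)))

/-- the data at the minimum -/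
structure Crit (f h : ℝ → ℝ) (L R κ : ℝ) (c : ℝ × ℝ) (p q : ℝ) : Prop where
  c1 : 0 < c.1
  c2 : 0 < c.2
  cR : c.1 + c.2 < R
  hp : 0 < p
  hpq : p < q
  hq : q < L
  Vp : Veff f h c.1 c.2 p = 1
  Vq : Veff f h c.1 c.2 q = 1
  hin : ∀ x ∈ Ioo p q, Veff f h c.1 c.2 x < 1
  sp : c.2 * f p ^ 2 < c.1 * h p ^ 2
  sq : c.1 * h q ^ 2 < c.2 * f q ^ 2
  fp : f p ^ 2 < c.1 * (c.1 + c.2)
  hhq : h q ^ 2 < c.2 * (c.1 + c.2)
  val : 2 * (∫ r in Ioo p q, √(1 - Veff f h c.1 c.2 r)) + π * (c.1 + c.2) - κ * (√c.1 + √c.2) ≤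
    π * R - 4 * κ * √R
  min : ∀ e : ℝ × ℝ, 0 ≤ c.1 * e.1 * h p ^ 2 + c.2 * e.2 * f p ^ 2 →
    0 ≤ c.1 * e.1 * h q ^ 2 + c.2 * e.2 * f q ^ 2 →
    ∀ᶠ ε in 𝓝[>] (0 : ℝ), 2 * ∫ r in Ioo p q, √(1 - Veff f h c.1 c.2 r) ≤
      2 * (∫ r in Ioo p q, √(1 - Veff f h (c.1 + ε * e.1) (c.2 + ε * e.2) r)) +
        (π * (ε * e.1 + ε * e.2) - κ * ((√(c.1 + ε * e.1) - √c.1) + (√(c.2 + ε * e.2) - √c.2)))

theorem exists_crit {L : ℝ} {f h : ℝ → ℝ} (hf : IsProfile2 L f h) {R : ℝ} (hR : 0 < R)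
    (hT : ∀ r ∈ Icc 0 L, R ^ 2 ≤ f r ^ 2 + h r ^ 2) {c₀ : ℝ × ℝ} (hc₀ : c₀ ∈ Tri R)
    (hneg : 2 * ∫ r in Ioo 0 L, √(1 - Veff f h c₀.1 c₀.2 r) < π * (R - c₀.1 - c₀.2)) :
    ∃ κ, 0 < κ ∧ ∃ c p q, Crit f h L R κ c p q := by
  have hfc : Continuous f := hf.smooth_f.continuous
  have hhc : Continuous h := hf.smooth_h.continuous
  have hL := hf.pos
  have hsR : 0 < √R := Real.sqrt_pos.2 hR
  set η : ℝ := π * (R - c₀.1 - c₀.2) - 2 * ∫ r in Ioo 0 L, √(1 - Veff f h c₀.1 c₀.2 r) with hη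
  have hη0 : 0 < η := by rw [hη]; linarith
  set κ : ℝ := η / (4 * √R) with hκdef
  have hκ : 0 < κ := by rw [hκdef]; positivity
  have hκη : 4 * κ * √R = η := by rw [hκdef]; field_simp
  refine ⟨κ, hκ, ?_⟩
  obtain ⟨hc01, hc02, hc03⟩ := hc₀
  set G : (ℝ × ℝ) × (ℝ × ℝ) → ℝ := fun y => 2 * JJ f h L y + π * (y.1.1 + y.1.2) -
    κ * (√y.1.1 + √y.1.2) with hG
  have hGc : Continuous G := by
    have := JJ_cont hfc hhc L
    rw [hG]
    fun_prop
  have hx0 : (c₀, ((0 : ℝ), L)) ∈ KK f h L R := by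
    refine ⟨hc01.le, hc02.le, hc03.le, le_rfl, hL.le, le_rfl, ⟨?_, ?_, ?_⟩, ⟨?_, ?_, ?_⟩⟩
    · simp [f_zero hf]
      positivity
    · simp [f_zero hf]
      positivity
    · simp [f_zero hf]
      positivity
    · simp [h_L hf]
      positivity
    · simp [h_L hf]
      positivity
    · simp [h_L hf]
      positivity
  obtain ⟨⟨⟨c₁, c₂⟩, ⟨p₀, q₀⟩⟩, hxK, hxmin⟩ :=
    (KK_compact hfc hhc L R).exists_isMinOn ⟨_, hx0⟩ hGc.continuousOn
  have hmin0 : ∀ y ∈ KK f h L R, G ((c₁, c₂), (p₀, q₀)) ≤ G y := fun y hy => hxmin hy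
  have hval0 : G ((c₁, c₂), (p₀, q₀)) ≤ π * R - η := by
    refine (hmin0 _ hx0).trans ?_
    simp only [hG]
    rw [JJ_eq (x := (c₀, ((0 : ℝ), L))) le_rfl le_rfl, hη]
    have : 0 ≤ κ * (√c₀.1 + √c₀.2) := by positivity
    simp only
    linarith
  have hxK' := hxK
  obtain ⟨k1, k2, k3, k4, k5, k6, hPI, hPII⟩ := hxK'
  simp only at k1 k2 k3 k4 k5 k6 hPI hPII
  have hsq1 : √c₁ ≤ √R := Real.sqrt_le_sqrt (by linarith)
  have hsq2 : √c₂ ≤ √R := Real.sqrt_le_sqrt (by linarith)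
  have hsum : c₁ + c₂ < R := by
    refine lt_of_le_of_ne k3 fun hcon => ?_
    have h1 := JJ_nonneg f h L ((c₁, c₂), (p₀, q₀))
    simp only [hG] at hval0
    rw [hcon] at hval0
    have h2 : κ * (√c₁ + √c₂) ≤ κ * (2 * √R) := mul_le_mul_of_nonneg_left (by linarith) hκ.le
    linarith
  have hc1 : 0 < c₁ := barrier1 hfc hhc hR hκ hT hxK hsum (fun y hy => hmin0 y hy)
  have hc2 : 0 < c₂ := barrier2 hfc hhc hR hκ hT hxK hsum (fun y hy => hmin0 y hy)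
  -- refine the endpoints
  have hSI : IsCompact (Icc p₀ q₀ ∩ {r | PI f h c₁ c₂ r}) :=
    isCompact_Icc.inter_right (PI_closed hfc hhc c₁ c₂)
  obtain ⟨p, ⟨hpI, hpPI⟩, hpub⟩ := hSI.exists_isGreatest ⟨p₀, ⟨le_rfl, k5⟩, hPI⟩
  have hSII : IsCompact (Icc p q₀ ∩ {r | PII f h c₁ c₂ r}) :=
    isCompact_Icc.inter_right (PII_closed hfc hhc c₁ c₂)
  obtain ⟨q, ⟨hqI, hqPII⟩, hqlb⟩ := hSII.exists_isLeast ⟨q₀, ⟨hpI.2, le_rfl⟩, hPII⟩
  have hpPI' : PI f h c₁ c₂ p := hpPI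
  have hqPII' : PII f h c₁ c₂ q := hqPII
  have hp0 : 0 ≤ p := k4.trans hpI.1
  have hqL : q ≤ L := hqI.2.trans k6
  have hxK2 : ((c₁, c₂), (p, q)) ∈ KK f h L R :=
    ⟨k1, k2, k3, hp0, hqI.1, hqL, hpPI', hqPII'⟩
  have hJ2 : JJ f h L ((c₁, c₂), (p, q)) ≤ JJ f h L ((c₁, c₂), (p₀, q₀)) :=
    JJ_sub hfc hhc L hpI.1 hqI.2
  have hG2 : G ((c₁, c₂), (p, q)) ≤ G ((c₁, c₂), (p₀, q₀)) := by
    simp only [hG]
    linarith
  have hdisj : ∀ r ∈ Icc 0 L, PI f h c₁ c₂ r → PII f h c₁ c₂ r → False := fun r hr h1 h2 => by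
    have h3 := hT r hr
    have h4 := h1.2.1
    have h5 := h2.2.1
    have h6 : (c₁ + c₂) ^ 2 < R ^ 2 := pow_lt_pow_left₀ hsum (by positivity) two_ne_zero
    linarith
  have hpq : p < q := by
    refine lt_of_le_of_ne hqI.1 fun hcon => ?_
    rw [← hcon] at hqPII' hqL
    exact hdisj p ⟨hp0, hqL⟩ hpPI' hqPII'
  have hfpos : ∀ r ∈ Ioo p q, 0 < f r := fun r hr =>
    hf.f_pos r (hp0.trans_lt hr.1) (hr.2.le.trans hqL)
  have hhpos : ∀ r ∈ Ioo p q, 0 < h r := fun r hr =>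
    hf.h_pos r (hp0.trans hr.1.le) (hr.2.trans_le hqL)
  have hin : ∀ r ∈ Ioo p q, Veff f h c₁ c₂ r < 1 := by
    intro r hr
    by_contra hcon
    rcases cover hc1.le hc2.le (hfpos r hr) (hhpos r hr) (not_lt.1 hcon) with h1 | h1
    · have := hpub ⟨⟨hpI.1.trans hr.1.le, hr.2.le.trans hqI.2⟩, h1⟩
      linarith [hr.1]
    · have := hqlb ⟨⟨hr.1.le, hr.2.le.trans hqI.2⟩, h1⟩
      linarith [hr.2]
  -- polynomial form of `V ≤ 1` up to the endpoints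
  have hpoly : ∀ r ∈ Icc p q, c₁ ^ 2 * h r ^ 2 + c₂ ^ 2 * f r ^ 2 ≤ f r ^ 2 * h r ^ 2 := by
    have hcl : IsClosed {r | c₁ ^ 2 * h r ^ 2 + c₂ ^ 2 * f r ^ 2 ≤ f r ^ 2 * h r ^ 2} :=
      isClosed_le (by fun_prop) (by fun_prop)
    have hsub : Ioo p q ⊆ {r | c₁ ^ 2 * h r ^ 2 + c₂ ^ 2 * f r ^ 2 ≤ f r ^ 2 * h r ^ 2} := by
      intro r hr
      have h1 := hin r hr
      have h2 := hfpos r hr
      have h3 := hhpos r hr
      unfold Veff at h1
      rw [div_pow, div_pow, div_add_div _ _ (by positivity) (by positivity),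
        div_lt_one (by positivity)] at h1
      simp only [Set.mem_ofPred_eq]
      linarith
    have := hcl.closure_subset_iff.2 hsub
    rw [closure_Ioo hpq.ne] at this
    exact this
  have hhp : 0 < h p := hf.h_pos p hp0 (hpq.trans_le hqL)
  have hfq : 0 < f q := hf.f_pos q (hp0.trans_lt hpq) hqL
  have hp : 0 < p := by
    refine lt_of_le_of_ne hp0 fun hcon => ?_
    have h1 := hpoly p ⟨le_rfl, hpq.le⟩
    rw [← hcon, f_zero hf] at h1
    rw [← hcon] at hhp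
    have : 0 < c₁ ^ 2 * h 0 ^ 2 := by positivity
    linarith
  have hq : q < L := by
    refine lt_of_le_of_ne hqL fun hcon => ?_
    have h1 := hpoly q ⟨hpq.le, le_rfl⟩
    rw [hcon, h_L hf] at h1
    rw [hcon] at hfq
    have : 0 < c₂ ^ 2 * f L ^ 2 := by positivity
    linarith
  have hfp : 0 < f p := hf.f_pos p hp (hpq.le.trans hqL)
  have hhq : 0 < h q := hf.h_pos q (hp.trans hpq).le hq
  have hVp' : c₁ ^ 2 * h p ^ 2 + c₂ ^ 2 * f p ^ 2 = f p ^ 2 * h p ^ 2 :=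
    le_antisymm (hpoly p ⟨le_rfl, hpq.le⟩) hpPI'.2.2
  have hVq' : c₁ ^ 2 * h q ^ 2 + c₂ ^ 2 * f q ^ 2 = f q ^ 2 * h q ^ 2 :=
    le_antisymm (hpoly q ⟨hpq.le, le_rfl⟩) hqPII'.2.2
  have hVp : Veff f h c₁ c₂ p = 1 := by
    unfold Veff
    rw [div_pow, div_pow, div_add_div _ _ (by positivity) (by positivity), div_eq_one_iff_eq
      (by positivity)]
    linarith
  have hVq : Veff f h c₁ c₂ q = 1 := by
    unfold Veff
    rw [div_pow, div_pow, div_add_div _ _ (by positivity) (by positivity), div_eq_one_iff_eq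
      (by positivity)]
    linarith
  have hfp2 : 0 < f p ^ 2 := by positivity
  have hhp2 : 0 < h p ^ 2 := by positivity
  have hfq2 : 0 < f q ^ 2 := by positivity
  have hhq2 : 0 < h q ^ 2 := by positivity
  -- strict inequalities
  have hsp : c₂ * f p ^ 2 < c₁ * h p ^ 2 := by
    refine lt_of_le_of_ne hpPI'.1 fun hcon => ?_
    refine hdisj p ⟨hp0, hpq.le.trans hqL⟩ hpPI' ⟨hcon.symm.le, ?_, hpPI'.2.2⟩
    refine le_of_mul_le_mul_left ?_ hfp2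
    have h9 : c₁ * (c₂ * f p ^ 2) = c₁ * (c₁ * h p ^ 2) := by rw [hcon]
    linarith
  have hsq : c₁ * h q ^ 2 < c₂ * f q ^ 2 := by
    refine lt_of_le_of_ne hqPII'.1 fun hcon => ?_
    refine hdisj q ⟨(hp.trans hpq).le, hqL⟩ ⟨hcon.symm.le, ?_, hqPII'.2.2⟩ hqPII'
    refine le_of_mul_le_mul_right ?_ hhq2
    have h9 : c₂ * (c₁ * h q ^ 2) = c₂ * (c₂ * f q ^ 2) := by rw [hcon]
    linarith
  have hfp3 : f p ^ 2 < c₁ * (c₁ + c₂) := by
    refine lt_of_mul_lt_mul_right ?_ hhp2.le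
    have h9 := mul_lt_mul_of_pos_left hsp hc2
    linarith
  have hhq3 : h q ^ 2 < c₂ * (c₁ + c₂) := by
    refine lt_of_mul_lt_mul_left ?_ hfq2.le
    have h9 := mul_lt_mul_of_pos_left hsq hc1
    linarith
  refine ⟨(c₁, c₂), p, q, ⟨hc1, hc2, hsum, hp, hpq, hq, hVp, hVq, hin, hsp, hsq, hfp3, hhq3, ?_, ?_⟩⟩
  · have h1 := hG2.trans hval0
    simp only [hG] at h1
    rw [JJ_eq hp0 hqL] at h1
    rw [hκη]
    exact h1
  · rintro ⟨e₁, e₂⟩ he1 he2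
    simp only at he1 he2 ⊢
    have hlim : ∀ {g : ℝ → ℝ} {a : ℝ}, Continuous g → a < g 0 → ∀ᶠ ε in 𝓝[>] (0 : ℝ), a < g ε := by
      intro g a hg ha
      exact (tendsto_nhdsWithin_of_tendsto_nhds (hg.tendsto 0)).eventually_const_lt ha
    have v1 := hlim (g := fun ε => c₁ + ε * e₁) (a := 0) (by fun_prop) (by simpa using hc1)
    have v2 := hlim (g := fun ε => c₂ + ε * e₂) (a := 0) (by fun_prop) (by simpa using hc2)
    have v3 := hlim (g := fun ε => R - (c₁ + ε * e₁) - (c₂ + ε * e₂)) (a := 0) (by fun_prop)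
      (by simp only [zero_mul, add_zero]; linarith)
    have v4 := hlim (g := fun ε => (c₁ + ε * e₁) * h p ^ 2 - (c₂ + ε * e₂) * f p ^ 2) (a := 0)
      (by fun_prop) (by simp only [zero_mul, add_zero]; linarith)
    have v5 := hlim (g := fun ε => (c₁ + ε * e₁) * ((c₁ + ε * e₁) + (c₂ + ε * e₂)) - f p ^ 2) (a := 0)
      (by fun_prop) (by simp only [zero_mul, add_zero]; linarith)
    have v6 := hlim (g := fun ε => (c₂ + ε * e₂) * f q ^ 2 - (c₁ + ε * e₁) * h q ^ 2) (a := 0)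
      (by fun_prop) (by simp only [zero_mul, add_zero]; linarith)
    have v7 := hlim (g := fun ε => (c₂ + ε * e₂) * ((c₁ + ε * e₁) + (c₂ + ε * e₂)) - h q ^ 2) (a := 0)
      (by fun_prop) (by simp only [zero_mul, add_zero]; linarith)
    filter_upwards [v1, v2, v3, v4, v5, v6, v7, self_mem_nhdsWithin] with ε w1 w2 w3 w4 w5 w6 w7 w8
    rw [mem_Ioi] at w8
    have hy : ((c₁ + ε * e₁, c₂ + ε * e₂), (p, q)) ∈ KK f h L R := by
      refine ⟨w1.le, w2.le, by simp only; linarith, hp0, hpq.le, hqL, ⟨?_, ?_, ?_⟩, ⟨?_, ?_, ?_⟩⟩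
      · simp only; linarith
      · simp only; linarith
      · simp only
        rw [← hVp']
        have := mul_nonneg w8.le he1
        linarith [mul_nonneg (sq_nonneg (ε * e₁)) hhp2.le, mul_nonneg (sq_nonneg (ε * e₂)) hfp2.le]
      · simp only; linarith
      · simp only; linarith
      · simp only
        rw [← hVq']
        have := mul_nonneg w8.le he2
        linarith [mul_nonneg (sq_nonneg (ε * e₁)) hhq2.le, mul_nonneg (sq_nonneg (ε * e₂)) hfq2.le]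
    have h1 := hG2.trans (hmin0 _ hy)
    simp only [hG] at h1
    rw [JJ_eq hp0 hqL, JJ_eq hp0 hqL] at h1
    simp only at h1
    linarith

end Pool.Agent.TH432.RP
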