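import Pool.Agent.H206R2.Rot2.Defs

/-!
# `O(k) × O(m)`-invariant metrics on real projective spaces: loops, length, systole

An `O(k) × O(m)`-invariant Riemannian metric on `RP^{k+m-1} = S^{k+m-1}/±1` lifts to the metric
`dr² + f(r)² g_{S^{k-1}} + h(r)² g_{S^{m-1}}`, `0 ≤ r ≤ L`, on `S^{k+m-1} ⊂ ℝ^k × ℝ^m` (see
`Pool.Agent.H206R2.Rot2.IsProfile2` for the conditions on `f`, `h`); the point with coordinates `(r, u, w)`
is `(sin (π r / 2L) u, cos (π r / 2L) w)` and the antipode of `(r, u, w)` is `(r, -u, -w)`.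
-/

open Real Set MeasureTheory
open scoped ENNReal

namespace Pool.Agent.TH432.RP

/-- A non-contractible loop of `RP^{k+m-1}` that avoids the two singular orbits `r = 0`, `r = L`: the curve
`(r, u, w) : [a, b] → (0, L) × S^{k-1} × S^{m-1}` is continuous, continuously differentiable off a finite
set, and ends at the antipode of its initial point. -/
structure IsLoop {k m : ℕ} (L a b : ℝ) (r : ℝ → ℝ) (u : ℝ → EuclideanSpace ℝ (Fin k))
    (w : ℝ → EuclideanSpace ℝ (Fin m)) : Prop where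
  lt : a < b
  r_cont : ContinuousOn r (Icc a b)
  u_cont : ContinuousOn u (Icc a b)
  w_cont : ContinuousOn w (Icc a b)
  smooth : ∃ F : Finset ℝ, ∀ t ∈ Ioo a b, t ∉ F →
    ContDiffAt ℝ 1 r t ∧ ContDiffAt ℝ 1 u t ∧ ContDiffAt ℝ 1 w t
  r_mem : ∀ t ∈ Icc a b, 0 < r t ∧ r t < L
  u_unit : ∀ t ∈ Icc a b, ‖u t‖ = 1
  w_unit : ∀ t ∈ Icc a b, ‖w t‖ = 1
  r_closed : r b = r a
  u_closed : u b = -u a
  w_closed : w b = -w a

/-- The length of the curve `(r, u, w) : [a, b] → (0, L) × S^{k-1} × S^{m-1}` for the metric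
`dr² + f(r)² g_{S^{k-1}} + h(r)² g_{S^{m-1}}`. -/
noncomputable def length {k m : ℕ} (f h : ℝ → ℝ) (a b : ℝ) (r : ℝ → ℝ)
    (u : ℝ → EuclideanSpace ℝ (Fin k)) (w : ℝ → EuclideanSpace ℝ (Fin m)) : ℝ≥0∞ :=
  ∫⁻ t in Ioo a b, ENNReal.ofReal
    √(deriv r t ^ 2 + f (r t) ^ 2 * ‖deriv u t‖ ^ 2 + h (r t) ^ 2 * ‖deriv w t‖ ^ 2)

/-- The infimum of the lengths of the non-contractible loops of `RP^{k+m-1}` (off the singular orbits). -/
noncomputable def systole (k m : ℕ) (L : ℝ) (f h : ℝ → ℝ) : ℝ≥0∞ :=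
  ⨅ (a : ℝ) (b : ℝ) (r : ℝ → ℝ) (u : ℝ → EuclideanSpace ℝ (Fin k))
    (w : ℝ → EuclideanSpace ℝ (Fin m)) (_ : IsLoop L a b r u w), length f h a b r u w

end Pool.Agent.TH432.RP
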