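import Pool.Agent.TH432.RP.Circ

/-! If `f² + h² = R²` and no non-contractible loop is shorter than `π R` then `R |f'| ≤ h`. -/

open Real Set MeasureTheory Filter Topology
open scoped ENNReal ContDiff
open Pool.Agent.H206R2.Rot2 (IsProfile2)

namespace Pool.Agent.TH432.RP

lemma local_inv {G : ℝ → ℝ} {x c : ℝ} (hG : ContDiffAt ℝ 1 G x) (hd : HasDerivAt G c x) (hc : c ≠ 0) :
    ∃ ρ : ℝ → ℝ, ρ (G x) = x ∧ ContDiffAt ℝ 1 ρ (G x) ∧ ∀ᶠ y in 𝓝 (G x), G (ρ y) = y :=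
  ⟨hG.localInverse (hd.hasFDerivAt_equiv hc) one_ne_zero,
    hG.localInverse_apply_image (hd.hasFDerivAt_equiv hc) one_ne_zero,
    hG.to_localInverse (hd.hasFDerivAt_equiv hc) one_ne_zero,
    (hG.hasStrictFDerivAt' (hd.hasFDerivAt_equiv hc) one_ne_zero).eventually_right_inverse⟩

lemma systole_le_length {k m : ℕ} {L a b : ℝ} {f h r : ℝ → ℝ} {u : ℝ → EuclideanSpace ℝ (Fin k)}
    {w : ℝ → EuclideanSpace ℝ (Fin m)} (hL : IsLoop L a b r u w) :
    systole k m L f h ≤ length f h a b r u w := by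
  unfold systole
  exact (iInf_le _ a).trans ((iInf_le _ b).trans ((iInf_le _ r).trans ((iInf_le _ u).trans
      ((iInf_le _ w).trans (iInf_le _ hL)))))

lemma ident {a b Q σ N : ℝ} (hN : N = a + (b - a) * σ) (h1 : N ≠ 0) (h2 : Q - N ≠ 0) :
    Q * ((b - a) ^ 2 * σ * (1 - σ)) / (N * (Q - N)) + a * b / N + (Q - a) * (Q - b) / (Q - N) = Q := by
  field_simp
  subst hN
  ring

lemma ineq {a b Q N P ρ' N' S C : ℝ} (hSC : C ^ 2 + S ^ 2 = 1) (hN : N = a * C ^ 2 + b * S ^ 2)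
    (hN' : N' = 2 * (b - a) * S * C) (h1 : 0 < N) (h2 : 0 < Q - N) (hP : Q - N < Q * P)
    (hρ : 4 * N * P * ρ' ^ 2 = 1) :
    (N' * ρ') ^ 2 + a * b / N + (Q - a) * (Q - b) / (Q - N) ≤ Q ∧
      (N' ≠ 0 → (N' * ρ') ^ 2 + a * b / N + (Q - a) * (Q - b) / (Q - N) < Q) := by
  have hC : C ^ 2 = 1 - S ^ 2 := by linarith
  have hN2 : N = a + (b - a) * S ^ 2 := by rw [hN, hC]; ring
  have hid := ident hN2 h1.ne' h2.ne'
  have hQ : 0 < Q := by linarith
  have hPp : 0 < P := by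
    by_contra hcon
    have := mul_nonpos_of_nonneg_of_nonpos hQ.le (not_lt.1 hcon)
    linarith
  have hρ2 : ρ' ^ 2 = 1 / (4 * N * P) := by
    rw [eq_div_iff (by positivity)]
    linarith
  have hN2' : N' ^ 2 = 4 * ((b - a) ^ 2 * S ^ 2 * (1 - S ^ 2)) := by rw [hN', ← hC]; ring
  have hX : 0 ≤ (b - a) ^ 2 * S ^ 2 * (1 - S ^ 2) := by rw [← hC]; positivity
  have e1 : (N' * ρ') ^ 2 = ((b - a) ^ 2 * S ^ 2 * (1 - S ^ 2)) / (N * P) := by
    rw [mul_pow, hρ2, hN2']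
    field_simp
  have e2 : Q * ((b - a) ^ 2 * S ^ 2 * (1 - S ^ 2)) / (N * (Q - N)) =
      ((b - a) ^ 2 * S ^ 2 * (1 - S ^ 2)) * (Q / (N * (Q - N))) := by ring
  have e3 : 1 / (N * P) < Q / (N * (Q - N)) := by
    rw [div_lt_div_iff₀ (by positivity) (by positivity)]
    have := mul_lt_mul_of_pos_left hP h1
    linarith
  rw [e1, div_eq_mul_one_div]
  rw [e2] at hid
  constructor
  · have := mul_le_mul_of_nonneg_left e3.le hX
    linarith
  · intro hne
    have hX' : 0 < (b - a) ^ 2 * S ^ 2 * (1 - S ^ 2) := by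
      have : 0 < N' ^ 2 := by positivity
      linarith
    have := mul_lt_mul_of_pos_left e3 hX'
    linarith

theorem slope_bound {k m : ℕ} (hk : 2 ≤ k) (hm : 2 ≤ m) {L : ℝ} {f h : ℝ → ℝ} (hf : IsProfile2 L f h)
    {R : ℝ} (hR0 : 0 < R) (hcirc : ∀ r ∈ Icc 0 L, f r ^ 2 + h r ^ 2 = R ^ 2)
    (hsys : ENNReal.ofReal (π * R) ≤ systole k m L f h) :
    ∀ r ∈ Ioo 0 L, R ^ 2 * deriv f r ^ 2 ≤ h r ^ 2 := by
  intro r₀ hr₀
  by_contra hcon
  rw [not_le] at hcon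
  have hfc : Continuous f := hf.smooth_f.continuous
  have hhc : Continuous h := hf.smooth_h.continuous
  have hfd : Differentiable ℝ f := hf.smooth_f.differentiable (by simp)
  have hf'c : Continuous (deriv f) := hf.smooth_f.continuous_deriv (by simp)
  have hf0 : 0 < f r₀ := hf.f_pos r₀ hr₀.1 hr₀.2.le
  have hh0 : 0 < h r₀ := hf.h_pos r₀ hr₀.1.le hr₀.2
  have hd0 : deriv f r₀ ≠ 0 := by
    intro h0
    rw [h0] at hcon
    have : 0 < h r₀ ^ 2 := by positivity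
    simp at hcon
    linarith
  have hGd : ∀ x, HasDerivAt (fun r => f r ^ 2) (2 * f x * deriv f x) x := fun x => by
    have := (hfd x).hasDerivAt.fun_pow 2
    simpa using this
  obtain ⟨ρ, hρ1, hρ2, hρ3⟩ := local_inv (G := fun r => f r ^ 2) (x := r₀) (c := 2 * f r₀ * deriv f r₀)
    ((hf.smooth_f.pow 2).contDiffAt.of_le (by simp)) (hGd r₀) (by positivity)
  have hρc : ContinuousAt ρ (f r₀ ^ 2) := hρ2.continuousAt
  have E1 := hρ2.eventually (by simp)
  have E3 : ∀ᶠ y in 𝓝 (f r₀ ^ 2), ρ y ∈ Ioo 0 L :=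
    hρc.eventually_mem (by rw [hρ1]; exact isOpen_Ioo.mem_nhds hr₀)
  have E4 : ∀ᶠ y in 𝓝 (f r₀ ^ 2), h (ρ y) ^ 2 < R ^ 2 * deriv f (ρ y) ^ 2 := by
    have c1 : ContinuousAt (fun y => R ^ 2 * deriv f (ρ y) ^ 2 - h (ρ y) ^ 2) (f r₀ ^ 2) := by
      have a1 : ContinuousAt (fun y => deriv f (ρ y)) (f r₀ ^ 2) := hf'c.continuousAt.comp hρc
      have a2 : ContinuousAt (fun y => h (ρ y)) (f r₀ ^ 2) := hhc.continuousAt.comp hρc
      exact ((a1.pow 2).const_mul _).sub (a2.pow 2)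
    have c2 := c1.eventually_const_lt (show 0 < R ^ 2 * deriv f (ρ (f r₀ ^ 2)) ^ 2 - h (ρ (f r₀ ^ 2)) ^ 2 by
      rw [hρ1]; linarith)
    exact c2.mono fun y hy => by linarith
  obtain ⟨δ, hδ, hball⟩ := Metric.eventually_nhds_iff.1 (E1.and (hρ3.and (E3.and E4)))
  set a := f r₀ ^ 2 with ha
  set b := a + δ / 2 with hb
  have hab : a < b := by rw [hb]; linarith
  have ha0 : 0 < a := by rw [ha]; positivity
  have hb0 : 0 < b := ha0.trans hab
  have hin : ∀ y ∈ Icc a b, dist y a < δ := fun y hy => by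
    rw [Real.dist_eq, abs_lt]
    constructor <;> [linarith [hy.1]; linarith [hy.2]]
  have hyR : ∀ y ∈ Icc a b, f (ρ y) ^ 2 = y ∧ h (ρ y) ^ 2 = R ^ 2 - y ∧ 0 < R ^ 2 - y := fun y hy => by
    obtain ⟨-, h2, h3, -⟩ := hball (hin y hy)
    have h4 := hcirc (ρ y) ⟨h3.1.le, h3.2.le⟩
    have h5 := hf.h_pos (ρ y) h3.1.le h3.2
    have h6 : 0 < h (ρ y) ^ 2 := by positivity
    exact ⟨h2, by linarith, by linarith⟩
  have hRa : 0 < R ^ 2 - a := (hyR a ⟨le_rfl, hab.le⟩).2.2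
  have hRb : 0 < R ^ 2 - b := (hyR b ⟨hab.le, le_rfl⟩).2.2
  have hNI : ∀ t, NN a b t ∈ Icc a b := fun t => by
    have h1 := Real.cos_sq_add_sin_sq t
    have h2 : NN a b t = a + (b - a) * Real.sin t ^ 2 := by
      unfold NN
      rw [show Real.cos t ^ 2 = 1 - Real.sin t ^ 2 by linarith]
      ring
    have h3 : b - NN a b t = (b - a) * Real.cos t ^ 2 := by
      rw [h2, show Real.cos t ^ 2 = 1 - Real.sin t ^ 2 by linarith]
      ring
    have h4 : 0 ≤ (b - a) * Real.sin t ^ 2 := mul_nonneg (by linarith) (sq_nonneg _)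
    have h5 : 0 ≤ (b - a) * Real.cos t ^ 2 := mul_nonneg (by linarith) (sq_nonneg _)
    exact ⟨by linarith, by linarith⟩
  have hρd : ∀ y ∈ Icc a b, HasDerivAt ρ (deriv ρ y) y ∧ 2 * f (ρ y) * deriv f (ρ y) * deriv ρ y = 1 := by
    intro y hy
    have h1 : HasDerivAt ρ (deriv ρ y) y :=
      ((hball (hin y hy)).1.differentiableAt one_ne_zero).hasDerivAt
    refine ⟨h1, ?_⟩
    have h2 : HasDerivAt (fun y => f (ρ y) ^ 2) (2 * f (ρ y) * deriv f (ρ y) * deriv ρ y) y :=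
      (hGd (ρ y)).comp y h1
    have h3 : (fun y => f (ρ y) ^ 2) =ᶠ[𝓝 y] fun y => y := by
      filter_upwards [Metric.isOpen_ball.mem_nhds (show y ∈ Metric.ball a δ from hin y hy)] with z hz
      exact (hball hz).2.1
    exact h2.unique ((hasDerivAt_id y).congr_of_eventuallyEq h3)
  -- the loop
  obtain ⟨r, hr⟩ : ∃ r : ℝ → ℝ, r = fun t => ρ (NN a b t) := ⟨_, rfl⟩
  have hrC : ContDiff ℝ 1 r := by
    rw [contDiff_iff_contDiffAt]
    intro t
    rw [hr]
    exact (hball (hin _ (hNI t))).1.comp t (NN_contDiff a b).contDiffAt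
  have hrd : ∀ t, deriv r t = deriv ρ (NN a b t) * (2 * (b - a) * Real.sin t * Real.cos t) := fun t => by
    rw [hr]
    exact ((hρd _ (hNI t)).1.comp t (NN_deriv a b t)).deriv
  obtain ⟨u, hu1, hu2, hu3, hu4⟩ := circ hk ha0 hb0
  obtain ⟨w, hw1, hw2, hw3, hw4⟩ := circ hm hRa hRb
  have hNR : ∀ t, NN (R ^ 2 - a) (R ^ 2 - b) t = R ^ 2 - NN a b t := fun t => by
    have h1 := Real.cos_sq_add_sin_sq t
    unfold NN
    rw [show Real.cos t ^ 2 = 1 - Real.sin t ^ 2 by linarith]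
    ring
  have hloop : IsLoop L 0 π r u w := by
    refine ⟨Real.pi_pos, hrC.continuous.continuousOn, hu1.continuous.continuousOn,
      hw1.continuous.continuousOn, ⟨∅, fun t _ _ => ⟨hrC.contDiffAt, hu1.contDiffAt, hw1.contDiffAt⟩⟩,
      fun t _ => ?_, fun t _ => hu2 t, fun t _ => hw2 t, ?_, hu3, hw3⟩
    · have := (hball (hin _ (hNI t))).2.2.1
      rw [hr]
      exact this
    · rw [hr]
      have : NN a b π = NN a b 0 := by unfold NN; simp
      simp only [this]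
  obtain ⟨E, hE⟩ : ∃ E : ℝ → ℝ, E = fun t => √(deriv r t ^ 2 + f (r t) ^ 2 * ‖deriv u t‖ ^ 2 +
      h (r t) ^ 2 * ‖deriv w t‖ ^ 2) := ⟨_, rfl⟩
  have hEc : Continuous E := by
    have c1 : Continuous (deriv r) := hrC.continuous_deriv le_rfl
    have c2 : Continuous (deriv u) := hu1.continuous_deriv le_rfl
    have c3 : Continuous (deriv w) := hw1.continuous_deriv le_rfl
    have c4 : Continuous r := hrC.continuous
    rw [hE]
    fun_prop
  have hkey : ∀ t, deriv r t ^ 2 + f (r t) ^ 2 * ‖deriv u t‖ ^ 2 + h (r t) ^ 2 * ‖deriv w t‖ ^ 2 ≤ R ^ 2 ∧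
      (2 * (b - a) * Real.sin t * Real.cos t ≠ 0 →
        deriv r t ^ 2 + f (r t) ^ 2 * ‖deriv u t‖ ^ 2 + h (r t) ^ 2 * ‖deriv w t‖ ^ 2 < R ^ 2) := by
    intro t
    obtain ⟨h1, h2, h3⟩ := hyR _ (hNI t)
    obtain ⟨-, h4⟩ := hρd _ (hNI t)
    have h5 := (hball (hin _ (hNI t))).2.2.2
    have hNp := NN_pos ha0 hb0 t
    have h6 := ineq (a := a) (b := b) (Q := R ^ 2) (N := NN a b t) (P := deriv f (ρ (NN a b t)) ^ 2)
      (ρ' := deriv ρ (NN a b t)) (Real.cos_sq_add_sin_sq t) rfl rfl hNp h3 (by rw [← h2]; exact h5)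
      (by
        rw [← h1] 
        have h7 : (2 * f (ρ (NN a b t)) * deriv f (ρ (NN a b t)) * deriv ρ (NN a b t)) ^ 2 = 1 := by
          rw [h4]; norm_num
        rw [h1]
        calc _ = 4 * (NN a b t) * deriv f (ρ (NN a b t)) ^ 2 * deriv ρ (NN a b t) ^ 2 := by ring
          _ = 4 * (f (ρ (NN a b t)) ^ 2) * deriv f (ρ (NN a b t)) ^ 2 * deriv ρ (NN a b t) ^ 2 := by rw [h1]
          _ = (2 * f (ρ (NN a b t)) * deriv f (ρ (NN a b t)) * deriv ρ (NN a b t)) ^ 2 := by ring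
          _ = 1 := h7)
    have e : deriv r t ^ 2 + f (r t) ^ 2 * ‖deriv u t‖ ^ 2 + h (r t) ^ 2 * ‖deriv w t‖ ^ 2 =
        (2 * (b - a) * Real.sin t * Real.cos t * deriv ρ (NN a b t)) ^ 2 + a * b / NN a b t +
          (R ^ 2 - a) * (R ^ 2 - b) / (R ^ 2 - NN a b t) := by
      rw [hrd t, hu4 t, hw4 t, hNR t, hr]
      simp only
      rw [h1, h2]
      field_simp
    rw [e]
    exact h6
  have hint : ∫ t in (0 : ℝ)..π, E t < ∫ t in (0 : ℝ)..π, R := by
    refine intervalIntegral.integral_lt_integral_of_continuousOn_of_le_of_exists_lt Real.pi_pos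
      hEc.continuousOn continuousOn_const (fun t _ => ?_) ⟨π / 4, ⟨by positivity, by linarith [Real.pi_pos]⟩, ?_⟩
    · rw [hE]
      exact (Real.sqrt_le_left hR0.le).2 (hkey t).1
    · rw [hE]
      refine (Real.sqrt_lt' hR0).2 ((hkey _).2 ?_)
      rw [Real.sin_pi_div_four, Real.cos_pi_div_four]
      have : 0 < b - a := by linarith
      positivity
  have hlen : length f h 0 π r u w < ENNReal.ofReal (π * R) := by
    unfold length
    have h1 : ∫⁻ t in Ioo 0 π, ENNReal.ofReal (E t) = ENNReal.ofReal (∫ t in (0 : ℝ)..π, E t) := by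
      rw [intervalIntegral.integral_of_le Real.pi_pos.le, integral_Ioc_eq_integral_Ioo,
        ofReal_integral_eq_lintegral_ofReal]
      · exact (hEc.continuousOn.integrableOn_Icc).mono_set Ioo_subset_Icc_self
      · exact Eventually.of_forall fun t => by rw [hE]; exact Real.sqrt_nonneg _
    rw [hE] at h1
    rw [h1]
    rw [← hE, ENNReal.ofReal_lt_ofReal_iff (by positivity)]
    refine hint.trans_le ?_
    simp
  exact absurd (hsys.trans (systole_le_length hloop)) (not_le.2 hlen)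

end Pool.Agent.TH432.RP
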