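import Pool.Agent.TH432.RP.Round
import Pool.Agent.TH432.RP.Slope

/-! The exact value of the optimal systolic ratio in the family. -/

open Real Set MeasureTheory Filter Topology
open scoped ENNReal ContDiff
open Pool.Agent.H206R2.Rot2 (IsProfile2)

namespace Pool.Agent.TH432.RP

lemma cs1 {E F : Type*} [NormedAddCommGroup E] [InnerProductSpace ℝ E] [NormedAddCommGroup F]
    [InnerProductSpace ℝ F] {A C : E} {B D : F} (h1 : ‖A‖ ^ 2 + ‖B‖ ^ 2 = 1)
    (h2 : ‖C‖ ^ 2 + ‖D‖ ^ 2 = 1) : (inner ℝ A C + inner ℝ B D) ^ 2 ≤ 1 := by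
  set x := inner ℝ A C + inner ℝ B D with hx
  have e2 : ‖A - x • C‖ ^ 2 + ‖B - x • D‖ ^ 2 = 1 - x ^ 2 := by
    rw [norm_sub_sq_real, norm_sub_sq_real, norm_smul, norm_smul, real_inner_smul_right,
      real_inner_smul_right, mul_pow, mul_pow, Real.norm_eq_abs, sq_abs]
    linear_combination h1 + x ^ 2 * h2 + 2 * x * hx
  have : 0 ≤ ‖A - x • C‖ ^ 2 + ‖B - x • D‖ ^ 2 := by positivity
  linarith

lemma unit_orth {k : ℕ} {a b : ℝ} {u : ℝ → EuclideanSpace ℝ (Fin k)} (hu : ∀ t ∈ Icc a b, ‖u t‖ = 1)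
    {t : ℝ} (ht : t ∈ Ioo a b) (hd : DifferentiableAt ℝ u t) : inner ℝ (u t) (deriv u t) = 0 := by
  have h1 : HasDerivAt (fun s => ‖u s‖ ^ 2) (2 * inner ℝ (u t) (deriv u t)) t := hd.hasDerivAt.norm_sq
  have h2 : (fun s => ‖u s‖ ^ 2) =ᶠ[𝓝 t] fun _ => 1 := by
    filter_upwards [isOpen_Ioo.mem_nhds ht] with s hs
    rw [hu s ⟨hs.1.le, hs.2.le⟩, one_pow]
  have h3 := h1.unique ((hasDerivAt_const t (1 : ℝ)).congr_of_eventuallyEq h2)
  linarith

theorem round_le {k m : ℕ} {a b : ℝ} {r : ℝ → ℝ} {u : ℝ → EuclideanSpace ℝ (Fin k)}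
    {w : ℝ → EuclideanSpace ℝ (Fin m)} (hL : IsLoop (π / 2) a b r u w) :
    ENNReal.ofReal π ≤ length Real.sin Real.cos a b r u w := by
  obtain ⟨hab, hrc, huc, hwc, ⟨F, hF⟩, hrm, hu1, hw1, hr2, hu2, hw2⟩ := hL
  have hsc : ∀ t, Real.sin t ^ 2 + Real.cos t ^ 2 = 1 := Real.sin_sq_add_cos_sq
  obtain ⟨A, hA⟩ : ∃ A, A = Real.sin (r a) • u a := ⟨_, rfl⟩
  obtain ⟨B, hB⟩ : ∃ B, B = Real.cos (r a) • w a := ⟨_, rfl⟩
  obtain ⟨C, hC⟩ : ∃ C : ℝ → EuclideanSpace ℝ (Fin k), C = fun t => Real.sin (r t) • u t := ⟨_, rfl⟩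
  obtain ⟨D, hD⟩ : ∃ D : ℝ → EuclideanSpace ℝ (Fin m), D = fun t => Real.cos (r t) • w t := ⟨_, rfl⟩
  have hCD : ∀ t ∈ Icc a b, ‖C t‖ ^ 2 + ‖D t‖ ^ 2 = 1 := fun t ht => by
    rw [hC, hD]
    simp only
    rw [norm_smul, norm_smul, hu1 t ht, hw1 t ht, mul_one, mul_one, Real.norm_eq_abs, Real.norm_eq_abs,
      sq_abs, sq_abs, hsc]
  have haI : a ∈ Icc a b := ⟨le_rfl, hab.le⟩
  have hAC : A = C a := by rw [hA, hC]
  have hBD : B = D a := by rw [hB, hD]
  have hAB : ‖A‖ ^ 2 + ‖B‖ ^ 2 = 1 := by rw [hAC, hBD]; exact hCD a haI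
  obtain ⟨x, hx⟩ : ∃ x : ℝ → ℝ, x = fun t => inner ℝ A (C t) + inner ℝ B (D t) := ⟨_, rfl⟩
  have hxa : x a = 1 := by
    rw [hx]
    simp only
    rw [← hAC, ← hBD, real_inner_self_eq_norm_sq, real_inner_self_eq_norm_sq, hAB]
  have hxb : x b = -1 := by
    have h1 : C b = -A := by rw [hC, hA]; simp only; rw [hr2, hu2, smul_neg]
    have h2 : D b = -B := by rw [hD, hB]; simp only; rw [hr2, hw2, smul_neg]
    rw [hx]
    simp only
    rw [h1, h2, inner_neg_right, inner_neg_right, real_inner_self_eq_norm_sq, real_inner_self_eq_norm_sq]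
    linarith
  have hCc : ContinuousOn C (Icc a b) := by
    rw [hC]
    exact (Real.continuous_sin.comp_continuousOn hrc).smul huc
  have hDc : ContinuousOn D (Icc a b) := by
    rw [hD]
    exact (Real.continuous_cos.comp_continuousOn hrc).smul hwc
  have hxc : ContinuousOn x (Icc a b) := by
    rw [hx]
    exact (continuousOn_const.inner hCc).add (continuousOn_const.inner hDc)
  have hx1 : ∀ t ∈ Icc a b, x t ^ 2 ≤ 1 := fun t ht => by
    rw [hx]
    exact cs1 hAB (hCD t ht)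
  obtain ⟨v, hv⟩ : ∃ v : ℝ → ℝ, v = fun t => √(deriv r t ^ 2 + Real.sin (r t) ^ 2 * ‖deriv u t‖ ^ 2 +
    Real.cos (r t) ^ 2 * ‖deriv w t‖ ^ 2) := ⟨_, rfl⟩
  have hxd : ∀ t ∈ Ioo a b, t ∉ F → ∃ x' : ℝ, HasDerivAt x x' t ∧ x' ^ 2 ≤ (1 - x t ^ 2) * v t ^ 2 := by
    intro t ht htF
    obtain ⟨d1, d2, d3⟩ := hF t ht htF
    have e1 := (d1.differentiableAt one_ne_zero).hasDerivAt
    have e2 := (d2.differentiableAt one_ne_zero).hasDerivAt
    have e3 := (d3.differentiableAt one_ne_zero).hasDerivAt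
    have o1 := unit_orth hu1 ht (d2.differentiableAt one_ne_zero)
    have o2 := unit_orth hw1 ht (d3.differentiableAt one_ne_zero)
    have tI : t ∈ Icc a b := ⟨ht.1.le, ht.2.le⟩
    have n1 := hu1 t tI
    have n2 := hw1 t tI
    have g1 : HasDerivAt C (Real.sin (r t) • deriv u t + (Real.cos (r t) * deriv r t) • u t) t := by
      rw [hC]
      exact e1.sin.smul e2
    have g2 : HasDerivAt D (Real.cos (r t) • deriv w t + (-Real.sin (r t) * deriv r t) • w t) t := by
      rw [hD]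
      exact e1.cos.smul e3
    set C' := Real.sin (r t) • deriv u t + (Real.cos (r t) * deriv r t) • u t with hC'
    set D' := Real.cos (r t) • deriv w t + (-Real.sin (r t) * deriv r t) • w t with hD'
    have g3 : HasDerivAt x (inner ℝ A C' + inner ℝ B D') t := by
      have h4 := ((hasDerivAt_const t A).inner ℝ g1).add ((hasDerivAt_const t B).inner ℝ g2)
      rw [hx]
      refine h4.congr_deriv ?_
      simp
    refine ⟨_, g3, ?_⟩
    have p1 : inner ℝ (C t) C' = Real.sin (r t) * Real.cos (r t) * deriv r t := by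
      rw [hC, hC']
      simp only
      rw [inner_add_right, real_inner_smul_left, real_inner_smul_right, real_inner_smul_left,
        real_inner_smul_right, o1, real_inner_self_eq_norm_sq, n1]
      ring
    have p2 : inner ℝ (D t) D' = -(Real.sin (r t) * Real.cos (r t) * deriv r t) := by
      rw [hD, hD']
      simp only
      rw [inner_add_right, real_inner_smul_left, real_inner_smul_right, real_inner_smul_left,
        real_inner_smul_right, o2, real_inner_self_eq_norm_sq, n2]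
      ring
    have q1 : ‖C'‖ ^ 2 = Real.sin (r t) ^ 2 * ‖deriv u t‖ ^ 2 + Real.cos (r t) ^ 2 * deriv r t ^ 2 := by
      rw [hC', norm_add_sq_real, real_inner_smul_left, real_inner_smul_right, real_inner_comm, o1,
        norm_smul, norm_smul, n1, mul_pow, mul_pow, Real.norm_eq_abs, Real.norm_eq_abs, sq_abs, sq_abs]
      ring
    have q2 : ‖D'‖ ^ 2 = Real.cos (r t) ^ 2 * ‖deriv w t‖ ^ 2 + Real.sin (r t) ^ 2 * deriv r t ^ 2 := by
      rw [hD', norm_add_sq_real, real_inner_smul_left, real_inner_smul_right, real_inner_comm, o2,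
        norm_smul, norm_smul, n2, mul_pow, mul_pow, Real.norm_eq_abs, Real.norm_eq_abs, sq_abs, sq_abs]
      ring
    have h5 := cs (A := A) (B := B) hAB (hCD t tI) (C' := C') (D' := D') (by rw [p1, p2]; ring)
    have h6 : ‖C'‖ ^ 2 + ‖D'‖ ^ 2 = v t ^ 2 := by
      rw [q1, q2, hv]
      simp only
      rw [Real.sq_sqrt (by positivity)]
      have := hsc (r t)
      linear_combination deriv r t ^ 2 * this
    rw [h6] at h5
    rw [hx]
    exact h5
  have hkey : ∀ q ∈ Ioo (0 : ℝ) 1, ENNReal.ofReal (2 * Real.arcsin q) ≤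
      length Real.sin Real.cos a b r u w := by
    intro q hq
    have h1 : ENNReal.ofReal |Real.arcsin (q * x b) - Real.arcsin (q * x a)| ≤
        ∫⁻ t in Ioo a b, ENNReal.ofReal (v t) := by
      refine change_le (φ := fun t => Real.arcsin (q * x t)) hab F
        (Real.continuous_arcsin.comp_continuousOn (continuousOn_const.mul hxc)) ?_
      intro t ht htF
      obtain ⟨x', e1, e2⟩ := hxd t ht htF
      have hxt := hx1 t ⟨ht.1.le, ht.2.le⟩
      have hqx : (q * x t) ^ 2 < 1 := by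
        rw [mul_pow]
        have hq2 : q ^ 2 < 1 := pow_lt_one₀ hq.1.le hq.2 two_ne_zero
        have := mul_le_mul_of_nonneg_left hxt (sq_nonneg q)
        linarith
      have hn1 : q * x t ≠ -1 := fun h => by rw [h] at hqx; norm_num at hqx
      have hn2 : q * x t ≠ 1 := fun h => by rw [h] at hqx; norm_num at hqx
      have h2 : HasDerivAt (fun t => Real.arcsin (q * x t)) (1 / √(1 - (q * x t) ^ 2) * (q * x')) t :=
        HasDerivAt.comp (h₂ := Real.arcsin) (h := fun t => q * x t) t (Real.hasDerivAt_arcsin hn1 hn2)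
          (e1.const_mul q)
      refine ⟨h2.differentiableAt, ?_⟩
      rw [h2.deriv]
      have hs : 0 < √(1 - (q * x t) ^ 2) := Real.sqrt_pos.2 (by linarith)
      have hvt : 0 ≤ v t := by rw [hv]; exact Real.sqrt_nonneg _
      refine abs_le_of_sq_le_sq ?_ hvt
      rw [mul_pow, div_pow, one_pow, Real.sq_sqrt (by linarith), one_div, inv_mul_le_iff₀ (by linarith)]
      have h3 : 0 ≤ v t ^ 2 := sq_nonneg _
      have hq2 : q ^ 2 ≤ 1 := (pow_lt_one₀ hq.1.le hq.2 two_ne_zero).le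
      calc (q * x') ^ 2 = q ^ 2 * x' ^ 2 := by ring
        _ ≤ q ^ 2 * ((1 - x t ^ 2) * v t ^ 2) := mul_le_mul_of_nonneg_left e2 (sq_nonneg q)
        _ = (q ^ 2 - (q * x t) ^ 2) * v t ^ 2 := by ring
        _ ≤ (1 - (q * x t) ^ 2) * v t ^ 2 := mul_le_mul_of_nonneg_right (by linarith) h3
    rw [hxa, hxb, mul_one, mul_neg, mul_one, Real.arcsin_neg] at h1
    have h2 : |-Real.arcsin q - Real.arcsin q| = 2 * Real.arcsin q := by
      rw [show -Real.arcsin q - Real.arcsin q = -(2 * Real.arcsin q) by ring, abs_neg, abs_of_nonneg]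
      exact mul_nonneg (by norm_num) (Real.arcsin_nonneg.2 hq.1.le)
    rw [h2] at h1
    unfold length
    rw [hv] at h1
    exact h1
  have hlim : Tendsto (fun q : ℝ => ENNReal.ofReal (2 * Real.arcsin q)) (𝓝[<] 1)
      (𝓝 (ENNReal.ofReal π)) := by
    have h1 : Continuous fun q : ℝ => 2 * Real.arcsin q := continuous_const.mul Real.continuous_arcsin
    have h2 := h1.tendsto 1
    rw [Real.arcsin_one, show 2 * (π / 2) = π by ring] at h2
    exact ENNReal.tendsto_ofReal (tendsto_nhdsWithin_of_tendsto_nhds h2)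
  exact le_of_tendsto hlim (by
    filter_upwards [Ioo_mem_nhdsLT (zero_lt_one (α := ℝ))] with q hq
    exact hkey q hq)

theorem systole_round {k m : ℕ} (hk : 2 ≤ k) (hm : 2 ≤ m) :
    systole k m (π / 2) Real.sin Real.cos = ENNReal.ofReal π := by
  refine le_antisymm (le_pi hk hm profile_round rfl) ?_
  unfold systole
  exact le_iInf fun a => le_iInf fun b => le_iInf fun r => le_iInf fun u => le_iInf fun w =>
    le_iInf fun hL => round_le hL

theorem exact {k m : ℕ} (hk : 2 ≤ k) (hm : 2 ≤ m) :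
    IsLeast {x : ℝ≥0∞ | ∃ (L : ℝ) (f h : ℝ → ℝ), IsProfile2 L f h ∧
      x = ENNReal.ofReal (∫ r in (0 : ℝ)..L, f r ^ (k - 1) * h r ^ (m - 1)) /
        systole k m L f h ^ (k + m - 1)}
      (ENNReal.ofReal (∫ t in (0 : ℝ)..π / 2, Real.sin t ^ (k - 1) * Real.cos t ^ (m - 1)) /
        ENNReal.ofReal π ^ (k + m - 1)) := by
  constructor
  · exact ⟨π / 2, Real.sin, Real.cos, profile_round, by rw [systole_round hk hm]⟩
  · rintro x ⟨L, f, h, hf, rfl⟩
    have hV : 0 < ∫ r in (0 : ℝ)..L, f r ^ (k - 1) * h r ^ (m - 1) := by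
      refine intervalIntegral.intervalIntegral_pos_of_pos_on
        (((hf.smooth_f.continuous.pow _).mul (hf.smooth_h.continuous.pow _)).intervalIntegrable _ _)
        (fun x hx => ?_) hf.pos
      exact mul_pos (pow_pos (hf.f_pos x hx.1 hx.2.le) _) (pow_pos (hf.h_pos x hx.1.le hx.2) _)
    have hV' : ENNReal.ofReal (∫ r in (0 : ℝ)..L, f r ^ (k - 1) * h r ^ (m - 1)) ≠ 0 := by
      simpa using hV
    have hπ0 : ENNReal.ofReal π ^ (k + m - 1) ≠ 0 :=
      pow_ne_zero _ (by simpa using Real.pi_pos)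
    have hπt : ENNReal.ofReal π ^ (k + m - 1) ≠ ⊤ := ENNReal.pow_ne_top ENNReal.ofReal_ne_top
    rw [ENNReal.le_div_iff_mul_le (Or.inr hV') (Or.inr ENNReal.ofReal_ne_top),
      ← ENNReal.mul_div_right_comm, ENNReal.div_le_iff hπ0 hπt, mul_comm]
    refine (main hk hm hf).trans (le_of_eq ?_)
    rw [ENNReal.ofReal_mul (by positivity), ENNReal.ofReal_pow Real.pi_pos.le, mul_comm]

end Pool.Agent.TH432.RP
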