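import Pool.Agent.H206R2.Rot2.Defs

/-! First-order conditions for the truncated action. -/

open Real Set MeasureTheory Filter Topology
open scoped ENNReal
open Pool.Agent.H206R2.Rot2 (Veff)

namespace Pool.Agent.TH432.RP

lemma abs_sqrt_sub_le {a b : ℝ} (hb : 0 < b) : |√a - √b| ≤ |a - b| / √b := by
  have hs := Real.sqrt_pos.2 hb
  rw [le_div_iff₀ hs]
  rcases le_total 0 a with ha | ha
  · have h1 : a - b = (√a - √b) * (√a + √b) := by nlinarith [Real.sq_sqrt ha, Real.sq_sqrt hb.le]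
    rw [h1, abs_mul, abs_of_nonneg (by positivity : 0 ≤ √a + √b)]
    exact mul_le_mul_of_nonneg_left (by linarith [Real.sqrt_nonneg a]) (abs_nonneg _)
  · rw [Real.sqrt_eq_zero_of_nonpos ha, zero_sub, abs_neg, abs_of_pos hs, Real.mul_self_sqrt hb.le,
      abs_of_nonpos (by linarith)]
    linarith

/-- minus the derivative of `√(1 - V)` in the direction `e` -/
noncomputable def De (f h : ℝ → ℝ) (c e : ℝ × ℝ) (r : ℝ) : ℝ :=
  (c.1 * e.1 / f r ^ 2 + c.2 * e.2 / h r ^ 2) / √(1 - Veff f h c.1 c.2 r)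

lemma slope_tendsto {f h : ℝ → ℝ} {c : ℝ × ℝ} (e : ℝ × ℝ) {r : ℝ} (hV : Veff f h c.1 c.2 r < 1) :
    Tendsto (fun ε => ε⁻¹ * (√(1 - Veff f h (c.1 + ε * e.1) (c.2 + ε * e.2) r) -
      √(1 - Veff f h c.1 c.2 r))) (𝓝[>] 0) (𝓝 (-De f h c e r)) := by
  have h1 : HasDerivAt (fun ε : ℝ => 1 - Veff f h (c.1 + ε * e.1) (c.2 + ε * e.2) r)
      (-(2 * (c.1 * e.1 / f r ^ 2 + c.2 * e.2 / h r ^ 2))) 0 := by
    unfold Veff
    have a1 : HasDerivAt (fun ε : ℝ => ((c.1 + ε * e.1) / f r) ^ 2)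
        (2 * ((c.1 + 0 * e.1) / f r) * (e.1 / f r)) 0 := by
      have := ((((hasDerivAt_id (0 : ℝ)).mul_const e.1).const_add c.1).div_const (f r)).fun_pow 2
      simpa using this
    have a2 : HasDerivAt (fun ε : ℝ => ((c.2 + ε * e.2) / h r) ^ 2)
        (2 * ((c.2 + 0 * e.2) / h r) * (e.2 / h r)) 0 := by
      have := ((((hasDerivAt_id (0 : ℝ)).mul_const e.2).const_add c.2).div_const (h r)).fun_pow 2
      simpa using this
    refine ((a1.add a2).const_sub 1).congr_deriv ?_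
    simp only [zero_mul, add_zero]
    ring
  have h0 : (1 - Veff f h (c.1 + 0 * e.1) (c.2 + 0 * e.2) r) ≠ 0 := by
    simp only [zero_mul, add_zero]
    linarith
  have h2 := h1.sqrt h0
  rw [hasDerivAt_iff_tendsto_slope_zero] at h2
  have h3 := h2.mono_left (nhdsWithin_mono 0 (fun x (hx : 0 < x) => hx.ne') : 𝓝[>] (0 : ℝ) ≤ 𝓝[≠] 0)
  simp only [zero_mul, add_zero, zero_add, smul_eq_mul] at h3
  convert h3 using 2
  unfold De
  ring

lemma veff_meas {f h : ℝ → ℝ} (hf : Continuous f) (hh : Continuous h) (c₁ c₂ : ℝ) :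
    Measurable (Veff f h c₁ c₂) := by
  have h1 := hf.measurable
  have h2 := hh.measurable
  unfold Veff
  fun_prop

lemma sqrt_meas {f h : ℝ → ℝ} (hf : Continuous f) (hh : Continuous h) (c₁ c₂ : ℝ) :
    Measurable fun r => √(1 - Veff f h c₁ c₂ r) :=
  (measurable_const.sub (veff_meas hf hh c₁ c₂)).sqrt

lemma sqrt_le_one (f h : ℝ → ℝ) (c₁ c₂ r : ℝ) : √(1 - Veff f h c₁ c₂ r) ≤ 1 :=
  Real.sqrt_le_one.2 (by unfold Veff; nlinarith [sq_nonneg (c₁ / f r), sq_nonneg (c₂ / h r)])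

lemma sqrt_int {f h : ℝ → ℝ} (hf : Continuous f) (hh : Continuous h) (c₁ c₂ : ℝ) {p q : ℝ} :
    IntegrableOn (fun r => √(1 - Veff f h c₁ c₂ r)) (Ioo p q) :=
  Measure.integrableOn_of_bounded (M := 1) (by simp) (sqrt_meas hf hh c₁ c₂).aestronglyMeasurable
    (Eventually.of_forall fun r => by
      rw [Real.norm_eq_abs, abs_of_nonneg (Real.sqrt_nonneg _)]
      exact sqrt_le_one f h c₁ c₂ r)

/-- First step: integrability of `1 / √(1 - V)`. -/
theorem integrable_inv {f h : ℝ → ℝ} (hf : Continuous f) (hh : Continuous h) {p q : ℝ}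
    (hf0 : ∀ x ∈ Ioo p q, f x ≠ 0) {c : ℝ × ℝ} (hc : 0 < c.1)
    (hin : ∀ x ∈ Ioo p q, Veff f h c.1 c.2 x < 1) {K₀ : ℝ}
    (hmin : ∀ᶠ ε in 𝓝[>] (0 : ℝ), 2 * ∫ r in Ioo p q, √(1 - Veff f h c.1 c.2 r) ≤
      2 * (∫ r in Ioo p q, √(1 - Veff f h (c.1 + ε * 1) (c.2 + ε * 0) r)) + K₀ * ε) :
    IntegrableOn (fun r => 1 / √(1 - Veff f h c.1 c.2 r)) (Ioo p q) := by
  set F : ℝ → ℝ → ℝ≥0∞ := fun ε r => ENNReal.ofReal (-(ε⁻¹ *
    (√(1 - Veff f h (c.1 + ε * 1) (c.2 + ε * 0) r) - √(1 - Veff f h c.1 c.2 r)))) with hF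
  have hlim : ∀ r ∈ Ioo p q, Tendsto (fun ε => F ε r) (𝓝[>] 0)
      (𝓝 (ENNReal.ofReal (De f h c (1, 0) r))) := by
    intro r hr
    have h1 := (slope_tendsto (f := f) (h := h) (c := c) (1, 0) (hin r hr)).neg
    rw [neg_neg] at h1
    exact ENNReal.tendsto_ofReal h1
  have hD0 : ∀ r, 0 ≤ De f h c (1, 0) r := fun r => by
    unfold De
    simp only [mul_zero, zero_div, add_zero, mul_one]
    positivity
  have hFm : ∀ ε, Measurable (F ε) := fun ε =>
    (((sqrt_meas hf hh _ _).sub (sqrt_meas hf hh _ _)).const_mul _).neg.ennreal_ofReal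
  have hfatou : ∫⁻ r in Ioo p q, ENNReal.ofReal (De f h c (1, 0) r) ≤ ENNReal.ofReal (K₀ / 2) := by
    calc ∫⁻ r in Ioo p q, ENNReal.ofReal (De f h c (1, 0) r)
        = ∫⁻ r in Ioo p q, liminf (fun ε => F ε r) (𝓝[>] 0) :=
          setLIntegral_congr_fun measurableSet_Ioo fun r hr => ((hlim r hr).liminf_eq).symm
      _ ≤ liminf (fun ε => ∫⁻ r in Ioo p q, F ε r) (𝓝[>] 0) := lintegral_liminf_le hFm
      _ ≤ ENNReal.ofReal (K₀ / 2) := by
          refine liminf_le_of_frequently_le' (Eventually.frequently ?_)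
          filter_upwards [hmin, self_mem_nhdsWithin] with ε hε hε0
          rw [mem_Ioi] at hε0
          simp only [hF]
          rw [← ofReal_integral_eq_lintegral_ofReal]
          · refine ENNReal.ofReal_le_ofReal ?_
            rw [integral_neg, integral_const_mul, integral_sub (sqrt_int hf hh _ _) (sqrt_int hf hh _ _)]
            rw [← mul_neg, neg_sub, inv_mul_le_iff₀ hε0]
            linarith
          · exact (((sqrt_int hf hh _ _).sub (sqrt_int hf hh _ _)).const_mul _).neg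
          · refine Eventually.of_forall fun r => ?_
            simp only [Pi.zero_apply]
            rw [← mul_neg, neg_sub]
            refine mul_nonneg (by positivity) (sub_nonneg.2 (Real.sqrt_le_sqrt ?_))
            unfold Veff
            have : (c.1 / f r) ^ 2 ≤ ((c.1 + ε * 1) / f r) ^ 2 := by
              rw [div_pow, div_pow]
              refine div_le_div_of_nonneg_right ?_ (sq_nonneg _)
              nlinarith
            simp only [mul_zero, add_zero]
            linarith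
  have hDi : IntegrableOn (De f h c (1, 0)) (Ioo p q) := by
    have hm : Measurable (De f h c (1, 0)) := by
      have h1 := hf.measurable
      have h2 := hh.measurable
      have h3 := sqrt_meas hf hh c.1 c.2
      unfold De
      fun_prop
    refine ⟨hm.aestronglyMeasurable, ?_⟩
    rw [hasFiniteIntegral_iff_ofReal (Eventually.of_forall hD0)]
    exact hfatou.trans_lt ENNReal.ofReal_lt_top
  obtain ⟨M, hM⟩ := (isCompact_Icc (a := p) (b := q)).exists_bound_of_continuousOn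
    (f := fun r => f r ^ 2 / c.1) ((hf.pow 2).div_const _).continuousOn
  have h1 : IntegrableOn (fun r => (f r ^ 2 / c.1) * De f h c (1, 0) r) (Ioo p q) :=
    Integrable.bdd_mul (c := M) hDi ((hf.pow 2).div_const _).aestronglyMeasurable
      ((ae_restrict_iff' measurableSet_Ioo).2 (Eventually.of_forall fun x hx =>
        hM x (Ioo_subset_Icc_self hx)))
  refine h1.congr_fun (fun r hr => ?_) measurableSet_Ioo
  have := hf0 r hr
  simp only [De, mul_one, mul_zero, zero_div, add_zero]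
  field_simp

/-- Second step: the first-order inequality in the direction `e`. -/
theorem first_order {f h : ℝ → ℝ} (hf : Continuous f) (hh : Continuous h) {p q : ℝ}
    (hf0 : ∀ x ∈ Icc p q, f x ≠ 0) (hh0 : ∀ x ∈ Icc p q, h x ≠ 0) {c : ℝ × ℝ}
    (hin : ∀ x ∈ Ioo p q, Veff f h c.1 c.2 x < 1)
    (hint : IntegrableOn (fun r => 1 / √(1 - Veff f h c.1 c.2 r)) (Ioo p q)) (e : ℝ × ℝ)
    {φ : ℝ → ℝ} {K₀ : ℝ} (hφ : Tendsto (fun ε => ε⁻¹ * φ ε) (𝓝[>] 0) (𝓝 K₀))
    (hmin : ∀ᶠ ε in 𝓝[>] (0 : ℝ), 2 * ∫ r in Ioo p q, √(1 - Veff f h c.1 c.2 r) ≤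
      2 * (∫ r in Ioo p q, √(1 - Veff f h (c.1 + ε * e.1) (c.2 + ε * e.2) r)) + φ ε) :
    2 * ∫ r in Ioo p q, De f h c e r ≤ K₀ := by
  have hXc : ContinuousOn (fun r => (2 * |c.1 * e.1| + e.1 ^ 2) / f r ^ 2 +
      (2 * |c.2 * e.2| + e.2 ^ 2) / h r ^ 2) (Icc p q) :=
    (continuousOn_const.div (hf.continuousOn.pow 2) fun x hx => pow_ne_zero 2 (hf0 x hx)).add
      (continuousOn_const.div (hh.continuousOn.pow 2) fun x hx => pow_ne_zero 2 (hh0 x hx))
  obtain ⟨M, hM⟩ := isCompact_Icc.exists_bound_of_continuousOn hXc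
  have hdct : Tendsto (fun ε => ∫ r in Ioo p q, ε⁻¹ *
      (√(1 - Veff f h (c.1 + ε * e.1) (c.2 + ε * e.2) r) - √(1 - Veff f h c.1 c.2 r))) (𝓝[>] 0)
      (𝓝 (∫ r in Ioo p q, -De f h c e r)) := by
    refine tendsto_integral_filter_of_dominated_convergence
      (fun r => M * (1 / √(1 - Veff f h c.1 c.2 r))) ?_ ?_ (hint.const_mul M) ?_
    · exact Eventually.of_forall fun ε =>
        (((sqrt_meas hf hh _ _).sub (sqrt_meas hf hh _ _)).const_mul _).aestronglyMeasurable
    · filter_upwards [Ioo_mem_nhdsGT (zero_lt_one (α := ℝ))] with ε hε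
      refine (ae_restrict_iff' measurableSet_Ioo).2 (Eventually.of_forall fun r hr => ?_)
      have hV : 0 < 1 - Veff f h c.1 c.2 r := by linarith [hin r hr]
      have hs := Real.sqrt_pos.2 hV
      have h1 := abs_sqrt_sub_le (a := 1 - Veff f h (c.1 + ε * e.1) (c.2 + ε * e.2) r) hV
      rw [Real.norm_eq_abs, abs_mul, abs_of_pos (inv_pos.2 hε.1)]
      have h2 : |1 - Veff f h (c.1 + ε * e.1) (c.2 + ε * e.2) r - (1 - Veff f h c.1 c.2 r)| ≤ ε * M := by
        have h3 := hM r (Ioo_subset_Icc_self hr)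
        rw [Real.norm_eq_abs] at h3
        have h4 := (le_abs_self _).trans h3
        have hfp : 0 < f r ^ 2 := by
          have := hf0 r (Ioo_subset_Icc_self hr)
          positivity
        have hhp : 0 < h r ^ 2 := by
          have := hh0 r (Ioo_subset_Icc_self hr)
          positivity
        have h5 : 1 - Veff f h (c.1 + ε * e.1) (c.2 + ε * e.2) r - (1 - Veff f h c.1 c.2 r) =
            ε * (-((2 * (c.1 * e.1) + ε * e.1 ^ 2) / f r ^ 2 + (2 * (c.2 * e.2) + ε * e.2 ^ 2) / h r ^ 2)) := by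
          unfold Veff
          field_simp
          ring
        rw [h5, abs_mul, abs_of_pos hε.1, abs_neg]
        refine mul_le_mul_of_nonneg_left (le_trans ?_ h4) hε.1.le
        have b1 : |2 * (c.1 * e.1) + ε * e.1 ^ 2| ≤ 2 * |c.1 * e.1| + e.1 ^ 2 := by
          refine (abs_add_le _ _).trans (add_le_add ?_ ?_)
          · rw [abs_mul]; simp
          · rw [abs_of_nonneg (by have := hε.1; positivity)]
            nlinarith [sq_nonneg e.1, hε.2]
        have b2 : |2 * (c.2 * e.2) + ε * e.2 ^ 2| ≤ 2 * |c.2 * e.2| + e.2 ^ 2 := by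
          refine (abs_add_le _ _).trans (add_le_add ?_ ?_)
          · rw [abs_mul]; simp
          · rw [abs_of_nonneg (by have := hε.1; positivity)]
            nlinarith [sq_nonneg e.2, hε.2]
        refine (abs_add_le _ _).trans (add_le_add ?_ ?_)
        · rw [abs_div, abs_of_pos hfp]
          exact div_le_div_of_nonneg_right b1 hfp.le
        · rw [abs_div, abs_of_pos hhp]
          exact div_le_div_of_nonneg_right b2 hhp.le
      rw [inv_mul_le_iff₀ hε.1]
      refine h1.trans ?_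
      rw [mul_one_div, ← mul_div_assoc]
      exact div_le_div_of_nonneg_right h2 hs.le
    · exact (ae_restrict_iff' measurableSet_Ioo).2 (Eventually.of_forall fun r hr =>
        slope_tendsto e (hin r hr))
  have hlim := (hdct.const_mul 2).add hφ
  have hnn : ∀ᶠ ε in 𝓝[>] (0 : ℝ), 0 ≤ 2 * (∫ r in Ioo p q, ε⁻¹ *
      (√(1 - Veff f h (c.1 + ε * e.1) (c.2 + ε * e.2) r) - √(1 - Veff f h c.1 c.2 r))) + ε⁻¹ * φ ε := by
    filter_upwards [hmin, self_mem_nhdsWithin] with ε hε hε0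
    rw [mem_Ioi] at hε0
    rw [integral_const_mul, integral_sub (sqrt_int hf hh _ _) (sqrt_int hf hh _ _)]
    have : 0 ≤ ε⁻¹ * (2 * ((∫ r in Ioo p q, √(1 - Veff f h (c.1 + ε * e.1) (c.2 + ε * e.2) r)) -
        ∫ r in Ioo p q, √(1 - Veff f h c.1 c.2 r)) + φ ε) :=
      mul_nonneg (by positivity) (by linarith)
    linarith
  have h1 := ge_of_tendsto hlim hnn
  rw [integral_neg] at h1
  linarith

end Pool.Agent.TH432.RP
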