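import Pool.Agent.TH432.RP.Defs

open Real Set MeasureTheory Filter Topology
open scoped ENNReal

namespace Pool.Agent.TH432.RP

lemma exists_frame {k : ℕ} (hk : 2 ≤ k) : ∃ e₁ e₂ : EuclideanSpace ℝ (Fin k),
    ∀ x y : ℝ, ‖x • e₁ + y • e₂‖ = √(x ^ 2 + y ^ 2) := by
  refine ⟨EuclideanSpace.single ⟨0, by omega⟩ 1, EuclideanSpace.single ⟨1, by omega⟩ 1, fun x y => ?_⟩
  have h : ‖x • (EuclideanSpace.single (⟨0, by omega⟩ : Fin k) (1 : ℝ)) +
      y • (EuclideanSpace.single (⟨1, by omega⟩ : Fin k) (1 : ℝ))‖ ^ 2 = x ^ 2 + y ^ 2 := by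
    rw [norm_add_sq_real]
    simp [norm_smul, inner_smul_left, inner_smul_right, EuclideanSpace.inner_single_left]
  rw [← h, Real.sqrt_sq (norm_nonneg _)]

/-- A curve in the unit circle of a plane with angular velocity `ψ`. -/
lemma lift {k : ℕ} (hk : 2 ≤ k) {a b : ℝ} {ψ : ℝ → ℝ}
    (hψi : ∀ x y, IntervalIntegrable ψ volume x y) (F : Finset ℝ)
    (hF : ∀ t ∈ Ioo a b, t ∉ F → ContinuousAt ψ t) (hψ : ∫ t in a..b, ψ t = π) :
    ∃ u : ℝ → EuclideanSpace ℝ (Fin k), ContinuousOn u (Icc a b) ∧ (∀ t, ‖u t‖ = 1) ∧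
      u b = -u a ∧ (∀ t ∈ Ioo a b, t ∉ F → ContDiffAt ℝ 1 u t) ∧
      ∀ t ∈ Ioo a b, t ∉ F → ‖deriv u t‖ ^ 2 = ψ t ^ 2 := by
  obtain ⟨e₁, e₂, he⟩ := exists_frame hk
  set θ : ℝ → ℝ := fun t => ∫ s in a..t, ψ s with hθ
  have hθc : Continuous θ := intervalIntegral.continuous_primitive hψi a
  have hU : IsOpen (Ioo a b \ (F : Set ℝ)) := isOpen_Ioo.sdiff F.finite_toSet.isClosed
  have hcU : ContinuousOn ψ (Ioo a b \ (F : Set ℝ)) := fun t ht =>
    (hF t ht.1 (by simpa using ht.2)).continuousWithinAt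
  have hd : ∀ t ∈ Ioo a b \ (F : Set ℝ), HasDerivAt θ (ψ t) t := fun t ht => by
    refine intervalIntegral.integral_hasDerivAt_right (hψi a t) ?_ (hcU.continuousAt (hU.mem_nhds ht))
    exact hcU.stronglyMeasurableAtFilter hU t ht
  have hC1 : ∀ t ∈ Ioo a b \ (F : Set ℝ), ContDiffAt ℝ 1 θ t := fun t ht => by
    rw [contDiffAt_one_iff]
    refine ⟨fun x => ContinuousLinearMap.toSpanSingleton ℝ (ψ x), Ioo a b \ (F : Set ℝ), hU.mem_nhds ht,
      ?_, fun x hx => hd x hx⟩
    exact (ContinuousLinearMap.toSpanSingletonCLE (𝕜 := ℝ) (E := ℝ)).continuous.comp_continuousOn hcU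
  refine ⟨fun t => Real.cos (θ t) • e₁ + Real.sin (θ t) • e₂, ?_, fun t => ?_, ?_, ?_, ?_⟩
  · exact Continuous.continuousOn (by fun_prop)
  · rw [he, Real.cos_sq_add_sin_sq, Real.sqrt_one]
  · have h0 : θ a = 0 := by simp [hθ]
    have h1 : θ b = π := hψ
    simp only [h0, h1]
    simp
  · intro t ht htF
    have h1 := hC1 t ⟨ht, by simpa using htF⟩
    exact ((Real.contDiff_cos.contDiffAt.comp t h1).smul contDiffAt_const).add
      ((Real.contDiff_sin.contDiffAt.comp t h1).smul contDiffAt_const)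
  · intro t ht htF
    have h1 := hd t ⟨ht, by simpa using htF⟩
    have h2 : HasDerivAt (fun t => Real.cos (θ t) • e₁ + Real.sin (θ t) • e₂)
        ((-Real.sin (θ t) * ψ t) • e₁ + (Real.cos (θ t) * ψ t) • e₂) t :=
      (h1.cos.smul_const e₁).add (h1.sin.smul_const e₂)
    rw [h2.deriv, he, Real.sq_sqrt (by positivity)]
    have := Real.cos_sq_add_sin_sq (θ t)
    calc _ = (Real.cos (θ t) ^ 2 + Real.sin (θ t) ^ 2) * ψ t ^ 2 := by ring
      _ = _ := by rw [this, one_mul]

/-- Upper bounds for the systole from angular velocities. -/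
theorem systole_le {k m : ℕ} (hk : 2 ≤ k) (hm : 2 ≤ m) {L : ℝ} {f h : ℝ → ℝ} {a b : ℝ} (hab : a < b)
    {r ψ χ : ℝ → ℝ} (hr : ContinuousOn r (Icc a b)) (hrI : ∀ t ∈ Icc a b, 0 < r t ∧ r t < L)
    (hrab : r b = r a) (hψi : ∀ x y, IntervalIntegrable ψ volume x y)
    (hχi : ∀ x y, IntervalIntegrable χ volume x y) (F : Finset ℝ)
    (hF : ∀ t ∈ Ioo a b, t ∉ F → ContDiffAt ℝ 1 r t ∧ ContinuousAt ψ t ∧ ContinuousAt χ t)
    (hψ : ∫ t in a..b, ψ t = π) (hχ : ∫ t in a..b, χ t = π) :
    systole k m L f h ≤ ∫⁻ t in Ioo a b, ENNReal.ofReal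
      √(deriv r t ^ 2 + f (r t) ^ 2 * ψ t ^ 2 + h (r t) ^ 2 * χ t ^ 2) := by
  obtain ⟨u, hu1, hu2, hu3, hu4, hu5⟩ := lift hk hψi F (fun t ht htF => (hF t ht htF).2.1) hψ
  obtain ⟨w, hw1, hw2, hw3, hw4, hw5⟩ := lift hm hχi F (fun t ht htF => (hF t ht htF).2.2) hχ
  have hL : IsLoop L a b r u w := ⟨hab, hr, hu1, hw1, ⟨F, fun t ht htF => ⟨(hF t ht htF).1, hu4 t ht htF,
    hw4 t ht htF⟩⟩, hrI, fun t _ => hu2 t, fun t _ => hw2 t, hrab, hu3, hw3⟩
  have h1 : systole k m L f h ≤ length f h a b r u w := by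
    unfold systole
    refine (iInf_le _ a).trans ((iInf_le _ b).trans ((iInf_le _ r).trans ((iInf_le _ u).trans
      ((iInf_le _ w).trans (iInf_le _ hL)))))
  refine h1.trans (le_of_eq ?_)
  unfold length
  refine lintegral_congr_ae ?_
  have h2 : ∀ᵐ t ∂(volume.restrict (Ioo a b)), t ∉ (F : Set ℝ) :=
    ae_restrict_of_ae (measure_eq_zero_iff_ae_notMem.1 (F.finite_toSet.measure_zero volume))
  filter_upwards [ae_restrict_mem measurableSet_Ioo, h2] with t ht htF
  rw [hu5 t ht (by simpa using htF), hw5 t ht (by simpa using htF)]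

/-- The loops in the orbits. -/
theorem systole_le_torus {k m : ℕ} (hk : 2 ≤ k) (hm : 2 ≤ m) {L : ℝ} {f h : ℝ → ℝ} {x : ℝ} (hx : 0 < x)
    (hxL : x < L) : systole k m L f h ≤ ENNReal.ofReal (π * √(f x ^ 2 + h x ^ 2)) := by
  have h1 := systole_le (f := f) (h := h) hk hm (L := L) (a := 0) (b := 1) one_pos (r := fun _ => x) (ψ := fun _ => π)
    (χ := fun _ => π) continuousOn_const (fun t _ => ⟨hx, hxL⟩) rfl
    (fun x y => intervalIntegrable_const) (fun x y => intervalIntegrable_const) ∅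
    (fun t _ _ => ⟨contDiffAt_const, continuousAt_const, continuousAt_const⟩) (by simp) (by simp)
  refine h1.trans (le_of_eq ?_)
  simp only [deriv_const']
  rw [setLIntegral_const]
  simp only [Real.volume_Ioo, sub_zero, ENNReal.ofReal_one, mul_one]
  congr 1
  rw [show (0 : ℝ) ^ 2 + f x ^ 2 * π ^ 2 + h x ^ 2 * π ^ 2 = π ^ 2 * (f x ^ 2 + h x ^ 2) by ring,
    Real.sqrt_mul (by positivity), Real.sqrt_sq Real.pi_pos.le]

/-! ### Oscillating loops -/

/-- angular velocity of the oscillating loop -/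
noncomputable def dens (p q A B : ℝ) (g : ℝ → ℝ) (t : ℝ) : ℝ :=
  (Ioo (p - 1) p).indicator (fun _ => A) t + (Ioo p q).indicator g t +
    (Ioo q (q + 1)).indicator (fun _ => B) t +
    (Ioo (q + 1) (2 * q + 1 - p)).indicator (fun t => g (2 * q + 1 - t)) t

lemma refl_pre (p q : ℝ) : (fun t : ℝ => 2 * q + 1 - t) ⁻¹' (Ioo p q) = Ioo (q + 1) (2 * q + 1 - p) := by
  ext t
  simp only [mem_preimage, mem_Ioo]
  constructor <;> rintro ⟨h1, h2⟩ <;> constructor <;> linarith

lemma refl_mp (c : ℝ) : MeasurePreserving (fun t : ℝ => c - t) volume volume :=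
  Measure.measurePreserving_sub_left volume c

lemma refl_me (c : ℝ) : MeasurableEmbedding (fun t : ℝ => c - t) :=
  (Homeomorph.subLeft c).measurableEmbedding

lemma dens_integrable {p q A B : ℝ} {g : ℝ → ℝ} (hg : IntegrableOn g (Ioo p q)) :
    Integrable (dens p q A B g) := by
  unfold dens
  refine Integrable.add (Integrable.add (Integrable.add ?_ ?_) ?_) ?_
  · rw [integrable_indicator_iff measurableSet_Ioo]
    exact integrableOn_const (by simp)
  · rw [integrable_indicator_iff measurableSet_Ioo]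
    exact hg
  · rw [integrable_indicator_iff measurableSet_Ioo]
    exact integrableOn_const (by simp)
  · rw [integrable_indicator_iff measurableSet_Ioo, ← refl_pre]
    exact ((refl_mp (2 * q + 1)).integrableOn_comp_preimage (refl_me _)).2 hg

lemma dens_integral {p q A B : ℝ} (hpq : p < q) {g : ℝ → ℝ} (hg : IntegrableOn g (Ioo p q)) :
    ∫ t in (p - 1)..(2 * q + 1 - p), dens p q A B g t = A + B + 2 * ∫ x in Ioo p q, g x := by
  have i1 : Integrable ((Ioo (p - 1) p).indicator (fun _ => A)) volume := by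
    rw [integrable_indicator_iff measurableSet_Ioo]
    exact integrableOn_const (by simp)
  have i2 : Integrable ((Ioo p q).indicator g) volume := by
    rw [integrable_indicator_iff measurableSet_Ioo]
    exact hg
  have i3 : Integrable ((Ioo q (q + 1)).indicator (fun _ => B)) volume := by
    rw [integrable_indicator_iff measurableSet_Ioo]
    exact integrableOn_const (by simp)
  have i4 : Integrable ((Ioo (q + 1) (2 * q + 1 - p)).indicator (fun t => g (2 * q + 1 - t))) volume := by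
    rw [integrable_indicator_iff measurableSet_Ioo, ← refl_pre]
    exact ((refl_mp (2 * q + 1)).integrableOn_comp_preimage (refl_me _)).2 hg
  rw [intervalIntegral.integral_of_le (by linarith),
    setIntegral_eq_integral_of_forall_compl_eq_zero]
  · unfold dens
    have e1 : ∫ t, ((Ioo (p - 1) p).indicator (fun _ => A) t + (Ioo p q).indicator g t +
        (Ioo q (q + 1)).indicator (fun _ => B) t +
        (Ioo (q + 1) (2 * q + 1 - p)).indicator (fun t => g (2 * q + 1 - t)) t) =
        (∫ t, (Ioo (p - 1) p).indicator (fun _ => A) t) + (∫ t, (Ioo p q).indicator g t) +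
        (∫ t, (Ioo q (q + 1)).indicator (fun _ => B) t) +
        ∫ t, (Ioo (q + 1) (2 * q + 1 - p)).indicator (fun t => g (2 * q + 1 - t)) t := by
      have e4 := integral_add ((i1.add i2).add i3) i4
      have e3 := integral_add (i1.add i2) i3
      have e2 := integral_add i1 i2
      simp only [Pi.add_apply] at e4 e3 e2
      rw [e4, e3, e2]
    rw [e1, integral_indicator measurableSet_Ioo, integral_indicator measurableSet_Ioo,
      integral_indicator measurableSet_Ioo, integral_indicator measurableSet_Ioo, setIntegral_const,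
      setIntegral_const, ← refl_pre p q,
      (refl_mp (2 * q + 1)).setIntegral_preimage_emb (refl_me _) g (Ioo p q)]
    simp [Measure.real]
    ring
  · intro t ht
    rw [mem_Ioc, not_and_or, not_lt, not_le] at ht
    unfold dens
    rw [indicator_of_notMem, indicator_of_notMem, indicator_of_notMem, indicator_of_notMem]
    · simp
    all_goals
      rw [mem_Ioo, not_and_or, not_lt, not_lt]
      rcases ht with ht | ht
      · left; linarith
      · right; linarith

lemma ind_contAt {g : ℝ → ℝ} {a b t : ℝ} (hg : ContinuousOn g (Ioo a b)) (h1 : t ≠ a) (h2 : t ≠ b) :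
    ContinuousAt ((Ioo a b).indicator g) t := by
  by_cases ht : t ∈ Ioo a b
  · refine (hg.continuousAt (isOpen_Ioo.mem_nhds ht)).congr ?_
    filter_upwards [isOpen_Ioo.mem_nhds ht] with s hs
    rw [indicator_of_mem hs]
  · have hc : t ∉ Icc a b := fun hc => ht ⟨lt_of_le_of_ne hc.1 h1.symm, lt_of_le_of_ne hc.2 h2⟩
    refine (continuousAt_const (y := (0 : ℝ))).congr ?_
    filter_upwards [isClosed_Icc.isOpen_compl.mem_nhds hc] with s hs
    rw [indicator_of_notMem fun h => hs (Ioo_subset_Icc_self h)]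

lemma dens_contAt {p q A B t : ℝ} {g : ℝ → ℝ} (hg : ContinuousOn g (Ioo p q)) (h0 : t ≠ p - 1)
    (h1 : t ≠ p) (h2 : t ≠ q) (h3 : t ≠ q + 1) (h4 : t ≠ 2 * q + 1 - p) :
    ContinuousAt (dens p q A B g) t := by
  unfold dens
  refine (((ind_contAt continuousOn_const h0 h1).add (ind_contAt hg h1 h2)).add
    (ind_contAt continuousOn_const h2 h3)).add (ind_contAt ?_ h3 h4)
  refine hg.comp (Continuous.continuousOn (by fun_prop)) ?_
  intro s hs
  rw [← refl_pre] at hs
  exact hs

/-- the radial coordinate of the oscillating loop -/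
noncomputable def tent (p q t : ℝ) : ℝ := max p (min q (min t (2 * q + 1 - t)))

end Pool.Agent.TH432.RP
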