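import Pool.Agent.TH432.RP.Act
import Pool.Agent.H206R2.Rot2.TI

/-! The sharp systolic inequality for `O(k) × O(m)`-invariant metrics on real projective spaces. -/

open Real Set MeasureTheory Filter Topology
open scoped ENNReal
open Pool.Agent.H206R2.Rot2 (Veff IsProfile2 Tri)

namespace Pool.Agent.TH432.RP

/-- If every non-contractible loop is longer than `π R` then the volume exceeds that of the round metric of
radius `R`. -/
theorem volume_lt {k m : ℕ} (hk : 2 ≤ k) (hm : 2 ≤ m) {L : ℝ} {f h : ℝ → ℝ}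
    (hf : IsProfile2 L f h) {R : ℝ} (hR : 0 < R)
    (hsys : ENNReal.ofReal (π * R) < systole k m L f h) :
    R ^ (k + m - 1) * (∫ t in (0 : ℝ)..π / 2, Real.sin t ^ (k - 1) * Real.cos t ^ (m - 1)) <
      ∫ r in (0 : ℝ)..L, f r ^ (k - 1) * h r ^ (m - 1) := by
  have hfc : Continuous f := hf.smooth_f.continuous
  have hhc : Continuous h := hf.smooth_h.continuous
  have hL := hf.pos
  obtain ⟨s, hs0, hs1, hs2⟩ := ENNReal.lt_iff_exists_real_btwn.1 hsys
  have hs1' : π * R < s := (ENNReal.ofReal_lt_ofReal_iff_of_nonneg (by positivity)).1 hs1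
  have hR1 : R < s / π := by rwa [lt_div_iff₀' Real.pi_pos]
  have hopen : ∀ r ∈ Ioo 0 L, (s / π) ^ 2 ≤ f r ^ 2 + h r ^ 2 := by
    intro r hr
    have h1 := hs2.trans_le (systole_le_torus (f := f) (h := h) hk hm hr.1 hr.2)
    rw [ENNReal.ofReal_lt_ofReal_iff_of_nonneg hs0] at h1
    have h2 : s / π < √(f r ^ 2 + h r ^ 2) := by rwa [div_lt_iff₀' Real.pi_pos]
    exact ((Real.lt_sqrt (by positivity)).1 h2).le
  have hcl : ∀ r ∈ Icc 0 L, (s / π) ^ 2 ≤ f r ^ 2 + h r ^ 2 := by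
    have hcl' : IsClosed {r | (s / π) ^ 2 ≤ f r ^ 2 + h r ^ 2} :=
      isClosed_le (by fun_prop) (by fun_prop)
    have := hcl'.closure_subset_iff.2 (fun r hr => hopen r hr : Ioo 0 L ⊆ _)
    rw [closure_Ioo hL.ne] at this
    exact this
  have hT : ∀ r ∈ Icc 0 L, R ^ 2 ≤ f r ^ 2 + h r ^ 2 := fun r hr =>
    (pow_le_pow_left₀ hR.le hR1.le 2).trans (hcl r hr)
  have hfL : R < f L := by
    have h1 := hcl L ⟨hL.le, le_rfl⟩
    rw [h_L hf] at h1
    have h2 : R ^ 2 < f L ^ 2 := by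
      have := pow_lt_pow_left₀ hR1 hR.le two_ne_zero
      linarith
    exact lt_of_pow_lt_pow_left₀ 2 (hf.f_pos L hL le_rfl).le h2
  refine Pool.Agent.H206R2.Rot2.TI.volume_bound2 hf hk hm hR (action_bound hk hm hf hR hT hsys) ?_
  have hev : ∀ᶠ r in 𝓝[<] L, R < f r ∧ r ∈ Ioo 0 L := by
    refine Eventually.and ?_ (Ioo_mem_nhdsLT hL)
    exact (hfc.continuousAt.mono_left nhdsWithin_le_nhds).eventually_const_lt hfL
  obtain ⟨r, h1, h2⟩ := hev.exists
  exact ⟨r, h2.1, h2.2, h1⟩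

theorem main {k m : ℕ} (hk : 2 ≤ k) (hm : 2 ≤ m) {L : ℝ} {f h : ℝ → ℝ} (hf : IsProfile2 L f h) :
    systole k m L f h ^ (k + m - 1) * ENNReal.ofReal
        (∫ t in (0 : ℝ)..π / 2, Real.sin t ^ (k - 1) * Real.cos t ^ (m - 1)) ≤
      ENNReal.ofReal (π ^ (k + m - 1) * ∫ r in (0 : ℝ)..L, f r ^ (k - 1) * h r ^ (m - 1)) := by
  have hfc : Continuous f := hf.smooth_f.continuous
  have hhc : Continuous h := hf.smooth_h.continuous
  have hLpos := hf.pos
  have hpi := Real.pi_pos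
  set n := k + m - 1 with hn
  have hn0 : n ≠ 0 := by omega
  set W : ℝ := ∫ t in (0 : ℝ)..π / 2, Real.sin t ^ (k - 1) * Real.cos t ^ (m - 1) with hWdef
  set V : ℝ := ∫ r in (0 : ℝ)..L, f r ^ (k - 1) * h r ^ (m - 1) with hVdef
  have hW : 0 < W := by
    refine intervalIntegral.intervalIntegral_pos_of_pos_on
      (((Real.continuous_sin.pow _).mul (Real.continuous_cos.pow _)).intervalIntegrable _ _)
      (fun x hx => ?_) (by linarith)
    exact mul_pos (pow_pos (Real.sin_pos_of_pos_of_lt_pi hx.1 (by linarith [hx.2])) _)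
      (pow_pos (Real.cos_pos_of_mem_Ioo ⟨by linarith [hx.1], hx.2⟩) _)
  have hV : 0 < V := by
    refine intervalIntegral.intervalIntegral_pos_of_pos_on
      (((hfc.pow _).mul (hhc.pow _)).intervalIntegrable _ _) (fun x hx => ?_) hLpos
    exact mul_pos (pow_pos (hf.f_pos x hx.1 hx.2.le) _) (pow_pos (hf.h_pos x hx.1.le hx.2) _)
  obtain ⟨R, hR, hRn⟩ : ∃ R : ℝ, 0 < R ∧ R ^ n * W = V := by
    refine ⟨(V / W) ^ ((n : ℝ)⁻¹), Real.rpow_pos_of_pos (div_pos hV hW) _, ?_⟩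
    rw [Real.rpow_inv_natCast_pow (div_pos hV hW).le hn0]
    field_simp
  have hle : systole k m L f h ≤ ENNReal.ofReal (π * R) := by
    by_contra hcon
    have h1 := volume_lt hk hm hf hR (not_le.1 hcon)
    rw [← hn, ← hWdef, ← hVdef, hRn] at h1
    exact lt_irrefl _ h1
  calc systole k m L f h ^ n * ENNReal.ofReal W
      ≤ ENNReal.ofReal (π * R) ^ n * ENNReal.ofReal W := by gcongr
    _ = ENNReal.ofReal (π ^ n * V) := by
      rw [← ENNReal.ofReal_pow (by positivity), ← ENNReal.ofReal_mul (by positivity), ← hRn, mul_pow]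
      ring_nf

theorem le_pi {k m : ℕ} (hk : 2 ≤ k) (hm : 2 ≤ m) {L : ℝ} {f h : ℝ → ℝ} (hf : IsProfile2 L f h)
    (hV : (∫ r in (0 : ℝ)..L, f r ^ (k - 1) * h r ^ (m - 1)) =
      ∫ t in (0 : ℝ)..π / 2, Real.sin t ^ (k - 1) * Real.cos t ^ (m - 1)) :
    systole k m L f h ≤ ENNReal.ofReal π := by
  by_contra hcon
  have h1 := volume_lt hk hm hf one_pos (by rw [mul_one]; exact not_le.1 hcon)
  rw [one_pow, one_mul, hV] at h1
  exact lt_irrefl _ h1

end Pool.Agent.TH432.RP
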