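import Pool.Agent.TH432.RP.FO

/-! The truncated action has a minimum in the interior. -/

open Real Set MeasureTheory Filter Topology
open scoped ENNReal
open Pool.Agent.H206R2.Rot2 (Veff IsProfile2)

namespace Pool.Agent.TH432.RP

/-- left turning region -/
def PI (f h : ℝ → ℝ) (c₁ c₂ r : ℝ) : Prop :=
  c₂ * f r ^ 2 ≤ c₁ * h r ^ 2 ∧ f r ^ 2 ≤ c₁ * (c₁ + c₂) ∧
    f r ^ 2 * h r ^ 2 ≤ c₁ ^ 2 * h r ^ 2 + c₂ ^ 2 * f r ^ 2

/-- right turning region -/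
def PII (f h : ℝ → ℝ) (c₁ c₂ r : ℝ) : Prop :=
  c₁ * h r ^ 2 ≤ c₂ * f r ^ 2 ∧ h r ^ 2 ≤ c₂ * (c₁ + c₂) ∧
    f r ^ 2 * h r ^ 2 ≤ c₁ ^ 2 * h r ^ 2 + c₂ ^ 2 * f r ^ 2

/-- the compact set of truncated wells -/
def KK (f h : ℝ → ℝ) (L R : ℝ) : Set ((ℝ × ℝ) × (ℝ × ℝ)) :=
  {x | 0 ≤ x.1.1 ∧ 0 ≤ x.1.2 ∧ x.1.1 + x.1.2 ≤ R ∧ 0 ≤ x.2.1 ∧ x.2.1 ≤ x.2.2 ∧ x.2.2 ≤ L ∧
    PI f h x.1.1 x.1.2 x.2.1 ∧ PII f h x.1.1 x.1.2 x.2.2}

/-- the truncated action -/
noncomputable def JJ (f h : ℝ → ℝ) (L : ℝ) (x : (ℝ × ℝ) × (ℝ × ℝ)) : ℝ :=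
  ∫ r in Ioo 0 L, (Ioo x.2.1 x.2.2).indicator (fun r => √(1 - Veff f h x.1.1 x.1.2 r)) r

lemma JJ_eq {f h : ℝ → ℝ} {L : ℝ} {x : (ℝ × ℝ) × (ℝ × ℝ)} (h0 : 0 ≤ x.2.1) (h1 : x.2.2 ≤ L) :
    JJ f h L x = ∫ r in Ioo x.2.1 x.2.2, √(1 - Veff f h x.1.1 x.1.2 r) := by
  unfold JJ
  rw [setIntegral_indicator measurableSet_Ioo,
    inter_eq_self_of_subset_right (Ioo_subset_Ioo h0 h1)]

lemma JJ_cont {f h : ℝ → ℝ} (hf : Continuous f) (hh : Continuous h) (L : ℝ) :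
    Continuous (JJ f h L) := by
  rw [continuous_iff_continuousAt]
  intro x
  unfold JJ
  refine continuousAt_of_dominated (bound := fun _ => 1) ?_ ?_ ?_ ?_
  · exact Eventually.of_forall fun y =>
      ((sqrt_meas hf hh _ _).indicator measurableSet_Ioo).aestronglyMeasurable
  · refine Eventually.of_forall fun y => Eventually.of_forall fun r => ?_
    rw [Real.norm_eq_abs]
    by_cases hr : r ∈ Ioo y.2.1 y.2.2
    · rw [indicator_of_mem hr, abs_of_nonneg (Real.sqrt_nonneg _)]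
      exact sqrt_le_one f h _ _ r
    · rw [indicator_of_notMem hr]; simp
  · exact integrableOn_const (by simp)
  · have h2 : ∀ᵐ t ∂(volume.restrict (Ioo 0 L)), t ∉ (({x.2.1, x.2.2} : Finset ℝ) : Set ℝ) :=
      ae_restrict_of_ae (measure_eq_zero_iff_ae_notMem.1
        ((Finset.finite_toSet _).measure_zero volume))
    filter_upwards [h2] with r hr
    simp only [Finset.coe_insert, Finset.coe_singleton, mem_insert_iff, mem_singleton_iff, not_or] at hr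
    have c1 : Continuous fun y : (ℝ × ℝ) × (ℝ × ℝ) => y.2.1 := by fun_prop
    have c2 : Continuous fun y : (ℝ × ℝ) × (ℝ × ℝ) => y.2.2 := by fun_prop
    by_cases hI : r ∈ Ioo x.2.1 x.2.2
    · have hc : Continuous fun y : (ℝ × ℝ) × (ℝ × ℝ) => √(1 - Veff f h y.1.1 y.1.2 r) := by
        unfold Veff
        fun_prop
      refine hc.continuousAt.congr ?_
      filter_upwards [c1.continuousAt.eventually_lt_const hI.1, c2.continuousAt.eventually_const_lt hI.2]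
        with y hy1 hy2
      rw [indicator_of_mem (show r ∈ Ioo y.2.1 y.2.2 from ⟨hy1, hy2⟩)]
    · refine (continuousAt_const (y := (0 : ℝ))).congr ?_
      rw [mem_Ioo, not_and_or, not_lt, not_lt] at hI
      rcases hI with hI | hI
      · filter_upwards [c1.continuousAt.eventually_const_lt (lt_of_le_of_ne hI hr.1)] with y hy
        rw [indicator_of_notMem fun h => absurd h.1 (not_lt.2 hy.le)]
      · filter_upwards [c2.continuousAt.eventually_lt_const (lt_of_le_of_ne hI (Ne.symm hr.2))] with y hy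
        rw [indicator_of_notMem fun h => absurd h.2 (not_lt.2 hy.le)]

lemma JJ_nonneg (f h : ℝ → ℝ) (L : ℝ) (x : (ℝ × ℝ) × (ℝ × ℝ)) : 0 ≤ JJ f h L x := by
  unfold JJ
  refine setIntegral_nonneg measurableSet_Ioo fun r _ => ?_
  exact indicator_nonneg (fun r _ => Real.sqrt_nonneg _) r

lemma JJ_ind_int {f h : ℝ → ℝ} (hf : Continuous f) (hh : Continuous h) (L : ℝ)
    (x : (ℝ × ℝ) × (ℝ × ℝ)) : IntegrableOn
      ((Ioo x.2.1 x.2.2).indicator (fun r => √(1 - Veff f h x.1.1 x.1.2 r))) (Ioo 0 L) :=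
  (sqrt_int hf hh _ _).indicator measurableSet_Ioo

lemma JJ_mono {f h : ℝ → ℝ} (hf : Continuous f) (hh : Continuous h) (L : ℝ)
    {c c' p : ℝ × ℝ} (h1 : c.1 ^ 2 ≤ c'.1 ^ 2) (h2 : c.2 ^ 2 ≤ c'.2 ^ 2) :
    JJ f h L (c', p) ≤ JJ f h L (c, p) := by
  unfold JJ
  refine setIntegral_mono (JJ_ind_int hf hh L (c', p)) (JJ_ind_int hf hh L (c, p)) fun r => ?_
  refine indicator_le_indicator (Real.sqrt_le_sqrt ?_)
  unfold Veff
  simp only [div_pow]
  have := div_le_div_of_nonneg_right h1 (sq_nonneg (f r))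
  have := div_le_div_of_nonneg_right h2 (sq_nonneg (h r))
  linarith

lemma JJ_sub {f h : ℝ → ℝ} (hf : Continuous f) (hh : Continuous h) (L : ℝ)
    {c : ℝ × ℝ} {p q p' q' : ℝ} (h1 : p ≤ p') (h2 : q' ≤ q) :
    JJ f h L (c, (p', q')) ≤ JJ f h L (c, (p, q)) := by
  unfold JJ
  refine setIntegral_mono (JJ_ind_int hf hh L (c, (p', q'))) (JJ_ind_int hf hh L (c, (p, q))) fun r => ?_
  exact indicator_le_indicator_of_subset (Ioo_subset_Ioo h1 h2) (fun _ => Real.sqrt_nonneg _) r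

lemma f_zero {L : ℝ} {f h : ℝ → ℝ} (hf : IsProfile2 L f h) : f 0 = 0 := by
  have := hf.f_odd 0
  rw [neg_zero] at this
  linarith

lemma h_L {L : ℝ} {f h : ℝ → ℝ} (hf : IsProfile2 L f h) : h L = 0 := by
  have := hf.h_odd 0
  rw [add_zero, sub_zero] at this
  linarith

lemma KK_compact {f h : ℝ → ℝ} (hf : Continuous f) (hh : Continuous h) (L R : ℝ) :
    IsCompact (KK f h L R) := by
  have hcl : IsClosed (KK f h L R) := by
    unfold KK PI PII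
    simp only [Set.ofPred_and]
    repeat' first
      | apply IsClosed.inter
      | exact isClosed_le (by fun_prop) (by fun_prop)
  have hb : IsCompact ((Icc (0 : ℝ) R ×ˢ Icc (0 : ℝ) R) ×ˢ (Icc (0 : ℝ) L ×ˢ Icc (0 : ℝ) L)) :=
    (isCompact_Icc.prod isCompact_Icc).prod (isCompact_Icc.prod isCompact_Icc)
  refine hb.of_isClosed_subset hcl ?_
  rintro ⟨⟨c₁, c₂⟩, ⟨p, q⟩⟩ ⟨h1, h2, h3, h4, h5, h6, -, -⟩
  simp only at h1 h2 h3 h4 h5 h6
  exact ⟨⟨⟨h1, by simp only; linarith⟩, ⟨h2, by simp only; linarith⟩⟩,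
    ⟨⟨h4, by simp only; linarith⟩, ⟨by simp only; linarith, h6⟩⟩⟩

lemma cover {f h : ℝ → ℝ} {c₁ c₂ r : ℝ} (hc₁ : 0 ≤ c₁) (hc₂ : 0 ≤ c₂) (hf : 0 < f r) (hh : 0 < h r)
    (hV : 1 ≤ Veff f h c₁ c₂ r) : PI f h c₁ c₂ r ∨ PII f h c₁ c₂ r := by
  have h3 : f r ^ 2 * h r ^ 2 ≤ c₁ ^ 2 * h r ^ 2 + c₂ ^ 2 * f r ^ 2 := by
    unfold Veff at hV
    rw [div_pow, div_pow, div_add_div _ _ (by positivity) (by positivity), le_div_iff₀ (by positivity)] at hV
    linarith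
  have hf2 : 0 < f r ^ 2 := by positivity
  have hh2 : 0 < h r ^ 2 := by positivity
  rcases le_total (c₂ * f r ^ 2) (c₁ * h r ^ 2) with h1 | h1
  · left
    refine ⟨h1, ?_, h3⟩
    have h4 := mul_le_mul_of_nonneg_left h1 hc₂
    refine le_of_mul_le_mul_right ?_ hh2
    nlinarith
  · right
    refine ⟨h1, ?_, h3⟩
    have h4 := mul_le_mul_of_nonneg_left h1 hc₁
    refine le_of_mul_le_mul_left ?_ hf2
    nlinarith

/-- The barrier: the first momentum is positive. -/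
lemma barrier1 {f h : ℝ → ℝ} (hfc : Continuous f) (hhc : Continuous h) {L R κ : ℝ} (hR : 0 < R)
    (hκ : 0 < κ) (hT : ∀ r ∈ Icc 0 L, R ^ 2 ≤ f r ^ 2 + h r ^ 2) {c₁ c₂ p q : ℝ}
    (hx : ((c₁, c₂), (p, q)) ∈ KK f h L R) (hs : c₁ + c₂ < R)
    (hmin : ∀ y ∈ KK f h L R, 2 * JJ f h L ((c₁, c₂), (p, q)) + π * (c₁ + c₂) - κ * (√c₁ + √c₂) ≤
      2 * JJ f h L y + π * (y.1.1 + y.1.2) - κ * (√y.1.1 + √y.1.2)) : 0 < c₁ := by
  obtain ⟨h1, h2, -, h4, h5, h6, hPI, hPII⟩ := hx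
  simp only at h1 h2 h4 h5 h6 hPI hPII
  by_contra hcon
  have hc : c₁ = 0 := le_antisymm (not_lt.1 hcon) h1
  subst hc
  have hfp : f p ^ 2 = 0 := le_antisymm (by have := hPI.2.1; linarith) (sq_nonneg _)
  have e1 : ∀ᶠ ε in 𝓝[>] (0 : ℝ), ε + c₂ < R := by
    have ht : Tendsto (fun ε : ℝ => ε + c₂) (𝓝[>] 0) (𝓝 (0 + c₂)) :=
      tendsto_nhdsWithin_of_tendsto_nhds ((by fun_prop : Continuous fun ε : ℝ => ε + c₂).tendsto 0)
    exact ht.eventually_lt_const hs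
  have e2 : ∀ᶠ ε in 𝓝[>] (0 : ℝ), ε * h q ^ 2 ≤ c₂ * f q ^ 2 := by
    rcases h2.eq_or_lt with h0 | h0
    · have hq : h q ^ 2 = 0 := le_antisymm (by have := hPII.2.1; rw [← h0] at this; linarith) (sq_nonneg _)
      rw [hq, ← h0]
      simp
    · have hfq : 0 < f q ^ 2 := by
        by_contra hf
        have h7 := hT q ⟨h4.trans h5, h6⟩
        have h8 := hPII.2.1
        have h9 : f q ^ 2 ≤ 0 := not_lt.1 hf
        rw [zero_add] at hs h8
        nlinarith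
      have ht : Tendsto (fun ε : ℝ => ε * h q ^ 2) (𝓝[>] 0) (𝓝 (0 * h q ^ 2)) :=
        tendsto_nhdsWithin_of_tendsto_nhds ((by fun_prop : Continuous fun ε : ℝ => ε * h q ^ 2).tendsto 0)
      rw [zero_mul] at ht
      exact (ht.eventually_lt_const (by positivity : 0 < c₂ * f q ^ 2)).mono fun ε hε => hε.le
  have e3 : ∀ᶠ ε in 𝓝[>] (0 : ℝ), √ε < κ / π := by
    have ht : Tendsto (fun ε : ℝ => √ε) (𝓝[>] 0) (𝓝 √0) :=
      tendsto_nhdsWithin_of_tendsto_nhds (Real.continuous_sqrt.tendsto 0)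
    rw [Real.sqrt_zero] at ht
    exact ht.eventually_lt_const (by positivity)
  obtain ⟨ε, h7, h8, h9, h10⟩ := (e1.and (e2.and (e3.and self_mem_nhdsWithin))).exists
  have hy : ((ε, c₂), (p, q)) ∈ KK f h L R := by
    refine ⟨h10.le, h2, h7.le, h4, h5, h6, ⟨?_, ?_, ?_⟩, ⟨h8, ?_, ?_⟩⟩
    · simp only [hfp]; rw [mul_zero]; positivity
    · simp only [hfp]; positivity
    · simp only [hfp]; rw [zero_mul]; positivity
    · have := hPII.2.1
      simp only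
      nlinarith
    · have := hPII.2.2
      simp only
      nlinarith [mul_nonneg (sq_nonneg ε) (sq_nonneg (h q))]
  have h11 := hmin _ hy
  have h12 := JJ_mono hfc hhc L (c := (0, c₂)) (c' := (ε, c₂)) (p := (p, q)) (by simp only; nlinarith) le_rfl
  simp only [Real.sqrt_zero, zero_add] at h11
  have h13 : π * √ε < κ := by rwa [lt_div_iff₀' Real.pi_pos] at h9
  have h14 : 0 < √ε := Real.sqrt_pos.2 h10
  have h15 : π * ε < κ * √ε := by
    calc π * ε = π * √ε * √ε := by rw [mul_assoc, Real.mul_self_sqrt h10.le]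
      _ < κ * √ε := mul_lt_mul_of_pos_right h13 h14
  nlinarith

/-- The barrier: the second momentum is positive. -/
lemma barrier2 {f h : ℝ → ℝ} (hfc : Continuous f) (hhc : Continuous h) {L R κ : ℝ} (hR : 0 < R)
    (hκ : 0 < κ) (hT : ∀ r ∈ Icc 0 L, R ^ 2 ≤ f r ^ 2 + h r ^ 2) {c₁ c₂ p q : ℝ}
    (hx : ((c₁, c₂), (p, q)) ∈ KK f h L R) (hs : c₁ + c₂ < R)
    (hmin : ∀ y ∈ KK f h L R, 2 * JJ f h L ((c₁, c₂), (p, q)) + π * (c₁ + c₂) - κ * (√c₁ + √c₂) ≤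
      2 * JJ f h L y + π * (y.1.1 + y.1.2) - κ * (√y.1.1 + √y.1.2)) : 0 < c₂ := by
  obtain ⟨h1, h2, -, h4, h5, h6, hPI, hPII⟩ := hx
  simp only at h1 h2 h4 h5 h6 hPI hPII
  by_contra hcon
  have hc : c₂ = 0 := le_antisymm (not_lt.1 hcon) h2
  subst hc
  have hfp : h q ^ 2 = 0 := le_antisymm (by have := hPII.2.1; linarith) (sq_nonneg _)
  have e1 : ∀ᶠ ε in 𝓝[>] (0 : ℝ), c₁ + ε < R := by
    have ht : Tendsto (fun ε : ℝ => c₁ + ε) (𝓝[>] 0) (𝓝 (c₁ + 0)) :=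
      tendsto_nhdsWithin_of_tendsto_nhds ((by fun_prop : Continuous fun ε : ℝ => c₁ + ε).tendsto 0)
    exact ht.eventually_lt_const hs
  have e2 : ∀ᶠ ε in 𝓝[>] (0 : ℝ), ε * f p ^ 2 ≤ c₁ * h p ^ 2 := by
    rcases h1.eq_or_lt with h0 | h0
    · have hq : f p ^ 2 = 0 := le_antisymm (by have := hPI.2.1; rw [← h0] at this; linarith) (sq_nonneg _)
      rw [hq, ← h0]
      simp
    · have hfq : 0 < h p ^ 2 := by
        by_contra hf
        have h7 := hT p ⟨h4, h5.trans h6⟩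
        have h8 := hPI.2.1
        have h9 : h p ^ 2 ≤ 0 := not_lt.1 hf
        rw [add_zero] at hs h8
        nlinarith
      have ht : Tendsto (fun ε : ℝ => ε * f p ^ 2) (𝓝[>] 0) (𝓝 (0 * f p ^ 2)) :=
        tendsto_nhdsWithin_of_tendsto_nhds ((by fun_prop : Continuous fun ε : ℝ => ε * f p ^ 2).tendsto 0)
      rw [zero_mul] at ht
      exact (ht.eventually_lt_const (by positivity : 0 < c₁ * h p ^ 2)).mono fun ε hε => hε.le
  have e3 : ∀ᶠ ε in 𝓝[>] (0 : ℝ), √ε < κ / π := by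
    have ht : Tendsto (fun ε : ℝ => √ε) (𝓝[>] 0) (𝓝 √0) :=
      tendsto_nhdsWithin_of_tendsto_nhds (Real.continuous_sqrt.tendsto 0)
    rw [Real.sqrt_zero] at ht
    exact ht.eventually_lt_const (by positivity)
  obtain ⟨ε, h7, h8, h9, h10⟩ := (e1.and (e2.and (e3.and self_mem_nhdsWithin))).exists
  have hy : ((c₁, ε), (p, q)) ∈ KK f h L R := by
    refine ⟨h1, h10.le, h7.le, h4, h5, h6, ⟨h8, ?_, ?_⟩, ⟨?_, ?_, ?_⟩⟩
    · have := hPI.2.1
      simp only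
      nlinarith
    · have := hPI.2.2
      simp only
      nlinarith [mul_nonneg (sq_nonneg ε) (sq_nonneg (f p))]
    · simp only [hfp]; rw [mul_zero]; positivity
    · simp only [hfp]; positivity
    · simp only [hfp]; rw [mul_zero]; positivity
  have h11 := hmin _ hy
  have h12 := JJ_mono hfc hhc L (c := (c₁, 0)) (c' := (c₁, ε)) (p := (p, q)) le_rfl (by simp only; nlinarith)
  simp only [Real.sqrt_zero, add_zero] at h11
  have h13 : π * √ε < κ := by rwa [lt_div_iff₀' Real.pi_pos] at h9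
  have h14 : 0 < √ε := Real.sqrt_pos.2 h10
  have h15 : π * ε < κ * √ε := by
    calc π * ε = π * √ε * √ε := by rw [mul_assoc, Real.mul_self_sqrt h10.le]
      _ < κ * √ε := mul_lt_mul_of_pos_right h13 h14
  nlinarith

end Pool.Agent.TH432.RP
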