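import Pool.Agent.H206R2.Rot2.TI

/-! The volume comparison with equality discussion (after `Pool.Agent.H206R2.Rot2.TI.volume_bound2`). -/

open Real Set MeasureTheory
open scoped ContDiff
open Pool.Agent.H206R2.Rot2 (Veff IsProfile2 Tri)
open Pool.Agent.H206R2.Rot2.TI

namespace Pool.Agent.TH432.RP

lemma gg_lt' {F H R : ℝ} (hF : 0 < F) (hH : 0 < H) (hR : 0 < R) (hRF : R ^ 2 < F ^ 2 + H ^ 2) (a b : ℕ) :
    ∫ c in Tri R, gg F H a b c <
      F ^ (a + 1) * H ^ (b + 1) * ((∫ x in (0 : ℝ)..1, √(1 - x ^ 2) * x ^ b) * SC a (b + 3)) := by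
  rw [← gg_integral hF hH]
  set Q : Set (ℝ × ℝ) := Ioi (0 : ℝ) ×ˢ Ioi (0 : ℝ) with hQ
  have hi := gg_integrable hF hH a b
  have hQm : MeasurableSet Q := measurableSet_Ioi.prod measurableSet_Ioi
  have h1 : ∫ c in Q, gg F H a b c = (∫ c in Q \ Tri R, gg F H a b c) + ∫ c in Tri R, gg F H a b c := by
    rw [← setIntegral_union disjoint_sdiff_left (Tri_measurable R) (hi.mono_set sdiff_subset)
      (hi.mono_set (Tri_subset R)), sdiff_union_of_subset (Tri_subset R)]
  rw [h1]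
  have h2 : 0 < ∫ c in Q \ Tri R, gg F H a b c := by
    rw [setIntegral_pos_iff_support_of_nonneg_ae]
    · -- an open set in the support
      set U : Set (ℝ × ℝ) := {c | 0 < c.1 ∧ 0 < c.2 ∧ R < c.1 + c.2 ∧
        (c.1 / F) ^ 2 + (c.2 / H) ^ 2 < 1} with hU
      have hUo : IsOpen U := by
        have o1 : IsOpen {c : ℝ × ℝ | 0 < c.1} := isOpen_lt continuous_const continuous_fst
        have o2 : IsOpen {c : ℝ × ℝ | 0 < c.2} := isOpen_lt continuous_const continuous_snd
        have o4 : IsOpen {c : ℝ × ℝ | R < c.1 + c.2} := isOpen_lt continuous_const (by fun_prop)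
        have o3 : IsOpen {c : ℝ × ℝ | (c.1 / F) ^ 2 + (c.2 / H) ^ 2 < 1} :=
          isOpen_lt (by fun_prop) continuous_const
        exact o1.inter (o2.inter (o4.inter o3))
      have hUn : U.Nonempty := by
        obtain ⟨S, hS0, hSe⟩ : ∃ S : ℝ, 0 < S ∧ S ^ 2 = F ^ 2 + H ^ 2 :=
          ⟨√(F ^ 2 + H ^ 2), Real.sqrt_pos.2 (by positivity), Real.sq_sqrt (by positivity)⟩
        have hRS : R < S := by
          rw [← hSe] at hRF
          exact lt_of_pow_lt_pow_left₀ 2 hS0.le hRF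
        have hRS' : R / S < 1 := by rwa [div_lt_one hS0]
        have hRS0 : 0 < R / S := by positivity
        obtain ⟨t, ht1, ht2⟩ := exists_between hRS'
        have ht0 : 0 < t := hRS0.trans ht1
        refine ⟨(t * F ^ 2 / S, t * H ^ 2 / S), by simp only; positivity, by simp only; positivity, ?_, ?_⟩
        · have e : t * F ^ 2 / S + t * H ^ 2 / S = t * S := by
            rw [← add_div, ← mul_add, ← hSe]
            field_simp
          simp only
          rw [e]
          rwa [div_lt_iff₀ hS0] at ht1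
        · have e : (t * F ^ 2 / S / F) ^ 2 + (t * H ^ 2 / S / H) ^ 2 = t ^ 2 := by
            calc _ = t ^ 2 * (F ^ 2 + H ^ 2) / S ^ 2 := by field_simp
              _ = t ^ 2 := by rw [← hSe]; field_simp
          simp only
          rw [e]
          exact pow_lt_one₀ ht0.le ht2 two_ne_zero
      refine (hUo.measure_pos volume hUn).trans_le (measure_mono ?_)
      intro c hc
      refine ⟨?_, ⟨⟨hc.1, hc.2.1⟩, fun h => ?_⟩⟩
      · rw [Function.mem_support]
        unfold gg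
        have h6 : 0 < √(1 - ((c.1 / F) ^ 2 + (c.2 / H) ^ 2)) := Real.sqrt_pos.2 (by linarith [hc.2.2.2])
        have h7 : 0 < c.1 ^ a * c.2 ^ b := mul_pos (pow_pos hc.1 a) (pow_pos hc.2.1 b)
        positivity
      · have := h.2.2
        linarith [hc.2.2.1]
    · filter_upwards [ae_restrict_mem (hQm.diff (Tri_measurable R))] with c hc
      exact gg_nonneg a b hc.1.1 hc.1.2
    · exact hi.mono_set sdiff_subset
  linarith

theorem volume_bound3 {L : ℝ} {f h : ℝ → ℝ} (hf : IsProfile2 L f h) {k m : ℕ} (hk : 2 ≤ k)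
    (hm : 2 ≤ m) {R : ℝ} (hR : 0 < R)
    (hA : ∀ c ∈ Tri R, π * (R - c.1 - c.2) ≤
      2 * ∫ r in Ioo 0 L, √(1 - Veff f h c.1 c.2 r))
    (hbig : ∃ r, 0 < r ∧ r < L ∧ R ^ 2 < f r ^ 2 + h r ^ 2) :
    R ^ (k + m - 1) * (∫ t in (0 : ℝ)..π / 2, Real.sin t ^ (k - 1) * Real.cos t ^ (m - 1)) <
      ∫ r in (0 : ℝ)..L, f r ^ (k - 1) * h r ^ (m - 1) := by
  obtain ⟨a, rfl⟩ := Nat.exists_eq_add_of_le' hk
  obtain ⟨b, rfl⟩ := Nat.exists_eq_add_of_le' hm
  rw [show a + 2 + (b + 2) - 1 = a + b + 3 by omega, show a + 2 - 1 = a + 1 by omega,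
    show b + 2 - 1 = b + 1 by omega]
  have hfc : Continuous f := hf.smooth_f.continuous
  have hhc : Continuous h := hf.smooth_h.continuous
  have hfm : Measurable f := hfc.measurable
  have hhm : Measurable h := hhc.measurable
  have hSC : (∫ t in (0 : ℝ)..π / 2, Real.sin t ^ (a + 1) * Real.cos t ^ (b + 1)) = SC (a + 1) (b + 1) := rfl
  rw [hSC]
  set J1 := ∫ x in (0 : ℝ)..1, √(1 - x ^ 2) * x ^ b with hJ1
  set K := J1 * SC a (b + 3) with hK
  set μ : Measure ℝ := volume.restrict (Ioo 0 L) with hμ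
  set ν : Measure (ℝ × ℝ) := volume.restrict (Tri R) with hν
  have hTfin : volume (Tri R) ≠ ⊤ := by
    have h1 : volume (Icc (0 : ℝ) R ×ˢ Icc (0 : ℝ) R) < ⊤ :=
      (isCompact_Icc.prod isCompact_Icc).measure_lt_top
    exact ((measure_mono (Tri_subset_Icc R)).trans_lt h1).ne
  have : IsFiniteMeasure ν := ⟨by rw [hν, Measure.restrict_apply_univ]; exact lt_top_iff_ne_top.2 hTfin⟩
  have : IsFiniteMeasure μ := ⟨by rw [hμ, Measure.restrict_apply_univ]; simp⟩
  -- Fubini
  have hmeas : Measurable (fun p : ℝ × (ℝ × ℝ) => gg (f p.1) (h p.1) a b p.2) := by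
    unfold gg
    fun_prop
  have hint : Integrable (fun p : ℝ × (ℝ × ℝ) => gg (f p.1) (h p.1) a b p.2) (μ.prod ν) := by
    have hb : ∀ᵐ p ∂(μ.prod ν), ‖gg (f p.1) (h p.1) a b p.2‖ ≤ R ^ a * R ^ b := by
      have e : μ.prod ν = (volume.prod volume).restrict (Ioo 0 L ×ˢ Tri R) := by
        rw [hμ, hν, Measure.prod_restrict]
      rw [e]
      filter_upwards [ae_restrict_mem (measurableSet_Ioo.prod (Tri_measurable R))] with p hp
      have h1 := (Tri_subset_Icc R) hp.2
      exact gg_bound a b hp.2.1 hp.2.2.1 h1.1.2 h1.2.2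
    exact Integrable.of_bound hmeas.aestronglyMeasurable _ hb
  have hswap := integral_integral_swap (f := fun r c => gg (f r) (h r) a b c) (μ := μ) (ν := ν) hint
  -- lower bound
  have hact : ∀ c : ℝ × ℝ, (2 * ∫ r in Ioo 0 L, √(1 - Veff f h c.1 c.2 r)) * (c.1 ^ a * c.2 ^ b) =
      2 * ∫ r, gg (f r) (h r) a b c ∂μ := by
    intro c
    rw [mul_assoc, ← integral_mul_const]
    rfl
  have h1 : π * R ^ (a + b + 3) * ((a.factorial : ℝ) * b.factorial / ((a + b + 3).factorial : ℝ)) ≤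
      2 * ∫ c, ∫ r, gg (f r) (h r) a b c ∂μ ∂ν := by
    rw [← lower_int2 hR, ← integral_const_mul]
    apply setIntegral_mono_on _ _ (Tri_measurable R)
    · intro c hc
      rw [← hact]
      apply mul_le_mul_of_nonneg_right (hA c hc)
      have := hc.1
      have := hc.2.1
      positivity
    · have h2 : IntegrableOn (fun c : ℝ × ℝ => π * (R - c.1 - c.2) * (c.1 ^ a * c.2 ^ b))
          (Icc (0 : ℝ) R ×ˢ Icc (0 : ℝ) R) :=
        (Continuous.continuousOn (by fun_prop)).integrableOn_compact (isCompact_Icc.prod isCompact_Icc)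
      exact h2.mono_set (Tri_subset_Icc R)
    · exact (hint.integral_prod_right).const_mul 2
  rw [← hswap] at h1
  -- comparison
  have hIm : Integrable (fun r => ∫ c, gg (f r) (h r) a b c ∂ν) μ := hint.integral_prod_left
  have hfi : Integrable (fun r => f r ^ (a + 1) * h r ^ (b + 1) * K) μ := by
    have h3 : IntegrableOn (fun r => f r ^ (a + 1) * h r ^ (b + 1) * K) (Icc 0 L) :=
      (Continuous.continuousOn (by fun_prop)).integrableOn_Icc
    exact h3.mono_set Ioo_subset_Icc_self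
  have h3 : ∫ r, ∫ c, gg (f r) (h r) a b c ∂ν ∂μ < ∫ r, f r ^ (a + 1) * h r ^ (b + 1) * K ∂μ := by
    rw [← sub_pos, ← integral_sub hfi hIm]
    rw [integral_pos_iff_support_of_nonneg_ae]
    · obtain ⟨r₀, hr0, hrL, hrR⟩ := hbig
      have hopen : IsOpen (Ioo 0 L ∩ {r | R ^ 2 < f r ^ 2 + h r ^ 2}) :=
        isOpen_Ioo.inter (isOpen_lt continuous_const (by fun_prop))
      have hpos : 0 < volume (Ioo 0 L ∩ {r | R ^ 2 < f r ^ 2 + h r ^ 2}) :=
        hopen.measure_pos volume ⟨r₀, ⟨hr0, hrL⟩, hrR⟩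
      have hμpos : 0 < μ (Ioo 0 L ∩ {r | R ^ 2 < f r ^ 2 + h r ^ 2}) := by
        rw [hμ, Measure.restrict_apply hopen.measurableSet]
        have : Ioo 0 L ∩ {r | R ^ 2 < f r ^ 2 + h r ^ 2} ∩ Ioo 0 L =
            Ioo 0 L ∩ {r | R ^ 2 < f r ^ 2 + h r ^ 2} :=
          inter_eq_self_of_subset_left inter_subset_left
        rwa [this]
      refine hμpos.trans_le (measure_mono ?_)
      intro r hr
      rw [Function.mem_support]
      have h5 := gg_lt' (hf.f_pos r hr.1.1 hr.1.2.le) (hf.h_pos r hr.1.1.le hr.1.2) hR hr.2 a b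
      exact (sub_pos.mpr h5).ne'
    · have hae : ∀ᵐ r ∂μ, r ∈ Ioo 0 L := ae_restrict_mem measurableSet_Ioo
      filter_upwards [hae] with r hr
      have h5 := gg_le (R := R) (hf.f_pos r hr.1 hr.2.le) (hf.h_pos r hr.1.le hr.2) a b
      simp only [Pi.zero_apply]
      exact sub_nonneg.2 h5
    · exact hfi.sub hIm
  have h4 : ∫ r, f r ^ (a + 1) * h r ^ (b + 1) * K ∂μ = K * ∫ r in (0 : ℝ)..L, f r ^ (a + 1) * h r ^ (b + 1) := by
    rw [integral_mul_const, intervalIntegral.integral_of_le hf.pos.le, hμ,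
      integral_Ioc_eq_integral_Ioo, mul_comm]
  -- constants
  have hid := beta_id a b
  have hB : J1 = (1 / ((b : ℝ) + 2)) * ∫ x in (0 : ℝ)..(π / 2), Real.sin x ^ b := Pool.Agent.H206R2.Rot.TE.B_eq b
  rw [← hB, ← hK] at hid
  -- positivity of K
  have hSpos : ∀ p q : ℕ, 0 < SC p q := by
    intro p q
    apply intervalIntegral.intervalIntegral_pos_of_pos_on
      (Continuous.intervalIntegrable (by fun_prop) _ _) _ (by positivity)
    intro x hx
    have h5 := Real.sin_pos_of_pos_of_lt_pi hx.1 (by linarith [hx.2, Real.pi_pos])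
    have h6 : 0 < Real.cos x := Real.cos_pos_of_mem_Ioo ⟨by linarith [hx.1, Real.pi_pos], hx.2⟩
    positivity
  have hWpos : 0 < ∫ x in (0 : ℝ)..(π / 2), Real.sin x ^ b := by
    have := hSpos b 0
    unfold SC at this
    simpa using this
  have hKpos : 0 < K := by
    rw [hK, hB]
    have := hSpos a (b + 3)
    positivity
  have h6 : π * R ^ (a + b + 3) * ((a.factorial : ℝ) * b.factorial / ((a + b + 3).factorial : ℝ)) =
      2 * K * (R ^ (a + b + 3) * SC (a + 1) (b + 1)) := by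
    calc _ = R ^ (a + b + 3) * (π * (a.factorial : ℝ) * b.factorial / ((a + b + 3).factorial : ℝ)) := by ring
      _ = R ^ (a + b + 3) * (2 * K * SC (a + 1) (b + 1)) := by rw [← hid]
      _ = _ := by ring
  rw [h6] at h1
  rw [h4] at h3
  have h7 : 2 * K * (R ^ (a + b + 3) * SC (a + 1) (b + 1)) <
      2 * K * ∫ r in (0 : ℝ)..L, f r ^ (a + 1) * h r ^ (b + 1) := by
    calc _ ≤ _ := h1
      _ < 2 * (K * ∫ r in (0 : ℝ)..L, f r ^ (a + 1) * h r ^ (b + 1)) := by linarith
      _ = _ := by ring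
  exact lt_of_mul_lt_mul_left h7 (by positivity)

end Pool.Agent.TH432.RP
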