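import Pool.Agent.TH432.RP.Main
import Pool.Agent.TH432.RP.Vol
import Pool.Agent.TH432.RP.Slope

/-! Rigidity in the systolic inequality for `O(k) × O(m)`-invariant metrics on real projective spaces. -/

open Real Set MeasureTheory Filter Topology
open scoped ENNReal ContDiff
open Pool.Agent.H206R2.Rot2 (Veff IsProfile2 Tri)

namespace Pool.Agent.TH432.RP

lemma closure_Icc {L : ℝ} (hL : 0 < L) {p q : ℝ → ℝ} (hp : Continuous p) (hq : Continuous q)
    (h : ∀ r ∈ Ioo 0 L, p r ≤ q r) : ∀ r ∈ Icc 0 L, p r ≤ q r := by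
  have hcl' : IsClosed {r | p r ≤ q r} := isClosed_le hp hq
  have := hcl'.closure_subset_iff.2 (fun r hr => h r hr : Ioo 0 L ⊆ _)
  rw [closure_Ioo hL.ne] at this
  exact this

lemma closure_Icc_eq {L : ℝ} (hL : 0 < L) {p q : ℝ → ℝ} (hp : Continuous p) (hq : Continuous q)
    (h : ∀ r ∈ Ioo 0 L, p r = q r) : ∀ r ∈ Icc 0 L, p r = q r := fun r hr =>
  le_antisymm (closure_Icc hL hp hq (fun r hr => (h r hr).le) r hr)
    (closure_Icc hL hq hp (fun r hr => (h r hr).ge) r hr)

lemma torus_le {k m : ℕ} (hk : 2 ≤ k) (hm : 2 ≤ m) {L : ℝ} {f h : ℝ → ℝ}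
    (hf : IsProfile2 L f h) {R : ℝ} (hR : 0 < R)
    (hsys : ENNReal.ofReal (π * R) ≤ systole k m L f h) :
    ∀ r ∈ Icc 0 L, R ^ 2 ≤ f r ^ 2 + h r ^ 2 := by
  have hfc : Continuous f := hf.smooth_f.continuous
  have hhc : Continuous h := hf.smooth_h.continuous
  refine closure_Icc hf.pos continuous_const (by fun_prop) fun r hr => ?_
  have h1 := hsys.trans (systole_le_torus (f := f) (h := h) hk hm hr.1 hr.2)
  rw [ENNReal.ofReal_le_ofReal_iff (by positivity)] at h1
  exact (Real.le_sqrt' hR).1 (le_of_mul_le_mul_left h1 Real.pi_pos)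

/-- The case of equality: the function `f² + h²` is constant. -/
theorem circle_of_eq {k m : ℕ} (hk : 2 ≤ k) (hm : 2 ≤ m) {L : ℝ} {f h : ℝ → ℝ}
    (hf : IsProfile2 L f h) {R : ℝ} (hR : 0 < R)
    (hsys : ENNReal.ofReal (π * R) ≤ systole k m L f h)
    (hV : ∫ r in (0 : ℝ)..L, f r ^ (k - 1) * h r ^ (m - 1) =
      R ^ (k + m - 1) * (∫ t in (0 : ℝ)..π / 2, Real.sin t ^ (k - 1) * Real.cos t ^ (m - 1))) :
    ∀ r ∈ Icc 0 L, f r ^ 2 + h r ^ 2 = R ^ 2 := by
  have hfc : Continuous f := hf.smooth_f.continuous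
  have hhc : Continuous h := hf.smooth_h.continuous
  have hA : ∀ c ∈ Tri R, π * (R - c.1 - c.2) ≤ 2 * ∫ r in Ioo 0 L, √(1 - Veff f h c.1 c.2 r) := by
    intro c hc
    obtain ⟨hc1, hc2, hc3⟩ := hc
    by_contra hcon
    rw [not_le] at hcon
    set A := 2 * ∫ r in Ioo 0 L, √(1 - Veff f h c.1 c.2 r) with hAdef
    have hA0 : 0 ≤ A := by
      rw [hAdef]
      exact mul_nonneg (by norm_num) (setIntegral_nonneg measurableSet_Ioo fun r _ => Real.sqrt_nonneg _)
    have hpi := Real.pi_pos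
    have hAπ : π * (A / π) = A := by field_simp
    have h1 : A / π < R - c.1 - c.2 := by rwa [div_lt_iff₀' hpi]
    have h0 : 0 ≤ A / π := by positivity
    set R' := (R + (c.1 + c.2) + A / π) / 2 with hR'
    have hR'1 : R' < R := by rw [hR']; linarith
    have hR'2 : c.1 + c.2 < R' := by rw [hR']; linarith
    have hR'0 : 0 < R' := by linarith
    have hsys' : ENNReal.ofReal (π * R') < systole k m L f h :=
      lt_of_lt_of_le ((ENNReal.ofReal_lt_ofReal_iff (by positivity)).2
        (mul_lt_mul_of_pos_left hR'1 hpi)) hsys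
    have h2 := action_bound hk hm hf hR'0 (torus_le hk hm hf hR'0 hsys'.le) hsys' c ⟨hc1, hc2, hR'2⟩
    rw [← hAdef] at h2
    have h3 : π * (R' - c.1 - c.2) = (π * (R - c.1 - c.2) + π * (A / π)) / 2 := by
      rw [hR']
      ring
    rw [hAπ] at h3
    linarith
  have hge := torus_le hk hm hf hR hsys
  refine closure_Icc_eq hf.pos (by fun_prop) continuous_const fun r hr => ?_
  refine le_antisymm ?_ (hge r ⟨hr.1.le, hr.2.le⟩)
  by_contra hcon
  have h1 := volume_bound3 hf hk hm hR hA ⟨r, hr.1, hr.2, not_le.1 hcon⟩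
  rw [hV] at h1
  exact lt_irrefl _ h1

theorem deriv_of_eq {k m : ℕ} (hk : 2 ≤ k) (hm : 2 ≤ m) {L : ℝ} {f h : ℝ → ℝ}
    (hf : IsProfile2 L f h) {R : ℝ} (hR : 0 < R)
    (hsys : ENNReal.ofReal (π * R) ≤ systole k m L f h)
    (hV : ∫ r in (0 : ℝ)..L, f r ^ (k - 1) * h r ^ (m - 1) =
      R ^ (k + m - 1) * (∫ t in (0 : ℝ)..π / 2, Real.sin t ^ (k - 1) * Real.cos t ^ (m - 1))) :
    ∀ r ∈ Icc 0 L, h r = R * deriv f r := by
  have hfc : Continuous f := hf.smooth_f.continuous
  have hhc : Continuous h := hf.smooth_h.continuous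
  have hfd : Differentiable ℝ f := hf.smooth_f.differentiable (by simp)
  have hf'c : Continuous (deriv f) := hf.smooth_f.continuous_deriv (by simp)
  have hcirc := circle_of_eq hk hm hf hR hsys hV
  have hslope := slope_bound hk hm hf hR hcirc hsys
  obtain ⟨a, rfl⟩ := Nat.exists_eq_add_of_le' hk
  obtain ⟨b, rfl⟩ := Nat.exists_eq_add_of_le' hm
  rw [show a + 2 + (b + 2) - 1 = a + b + 3 by omega, show a + 2 - 1 = a + 1 by omega,
    show b + 2 - 1 = b + 1 by omega] at hV
  have hh0 : ∀ r ∈ Icc 0 L, 0 ≤ h r := fun r hr => by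
    rcases hr.2.eq_or_lt with h1 | h1
    · rw [h1, h_L hf]
    · exact (hf.h_pos r hr.1 h1).le
  have hle : ∀ r ∈ Icc 0 L, R * deriv f r ≤ h r := by
    refine closure_Icc hf.pos (by fun_prop) hhc fun r hr => ?_
    have h1 := hslope r hr
    refine le_of_sq_le_sq ?_ (hf.h_pos r hr.1.le hr.2).le
    rw [mul_pow]
    exact h1
  have hfL : f L = R := by
    have h1 := hcirc L ⟨hf.pos.le, le_rfl⟩
    rw [h_L hf] at h1
    have h2 : f L ^ 2 = R ^ 2 := by linarith
    exact (pow_left_inj₀ (hf.f_pos L hf.pos le_rfl).le hR.le two_ne_zero).1 h2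
  -- the substitution
  set g : ℝ → ℝ := fun x => x ^ (a + 1) * √(R ^ 2 - x ^ 2) ^ b with hg
  have hgc : Continuous g := by rw [hg]; fun_prop
  have s1 : ∫ r in (0 : ℝ)..L, (g ∘ f) r * deriv f r = ∫ x in f 0..f L, g x :=
    intervalIntegral.integral_comp_mul_deriv (fun x _ => (hfd x).hasDerivAt) hf'c.continuousOn hgc
  have s2 : ∫ t in (0 : ℝ)..π / 2, (g ∘ fun t => R * Real.sin t) t * (R * Real.cos t) =
      ∫ x in R * Real.sin 0..R * Real.sin (π / 2), g x :=
    intervalIntegral.integral_comp_mul_deriv (fun x _ => (Real.hasDerivAt_sin x).const_mul R)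
      (by fun_prop) hgc
  rw [Real.sin_zero, Real.sin_pi_div_two, mul_zero, mul_one] at s2
  rw [f_zero hf, hfL, ← s2] at s1
  have s3 : ∫ r in (0 : ℝ)..L, (g ∘ f) r * deriv f r =
      ∫ r in (0 : ℝ)..L, f r ^ (a + 1) * h r ^ b * deriv f r := by
    refine intervalIntegral.integral_congr fun r hr => ?_
    rw [uIcc_of_le hf.pos.le] at hr
    simp only [Function.comp, hg]
    rw [show R ^ 2 - f r ^ 2 = h r ^ 2 by linarith [hcirc r hr], Real.sqrt_sq (hh0 r hr)]
  have s4 : ∫ t in (0 : ℝ)..π / 2, (g ∘ fun t => R * Real.sin t) t * (R * Real.cos t) =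
      R ^ (a + b + 2) * ∫ t in (0 : ℝ)..π / 2, Real.sin t ^ (a + 1) * Real.cos t ^ (b + 1) := by
    rw [← intervalIntegral.integral_const_mul]
    refine intervalIntegral.integral_congr fun t ht => ?_
    rw [uIcc_of_le (by positivity)] at ht
    have hc : 0 ≤ Real.cos t := Real.cos_nonneg_of_mem_Icc ⟨by linarith [ht.1, Real.pi_pos], ht.2⟩
    have h1 := Real.cos_sq_add_sin_sq t
    simp only [Function.comp, hg]
    rw [show R ^ 2 - (R * Real.sin t) ^ 2 = (R * Real.cos t) ^ 2 by
      rw [mul_pow, mul_pow, show Real.cos t ^ 2 = 1 - Real.sin t ^ 2 by linarith]; ring,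
      Real.sqrt_sq (by positivity)]
    ring
  have hΦ : ∫ r in (0 : ℝ)..L, f r ^ (a + 1) * h r ^ b * (h r - R * deriv f r) = 0 := by
    have h1 : ∫ r in (0 : ℝ)..L, f r ^ (a + 1) * h r ^ b * (h r - R * deriv f r) =
        (∫ r in (0 : ℝ)..L, f r ^ (a + 1) * h r ^ (b + 1)) -
          R * ∫ r in (0 : ℝ)..L, f r ^ (a + 1) * h r ^ b * deriv f r := by
      rw [← intervalIntegral.integral_const_mul, ← intervalIntegral.integral_sub
        (Continuous.intervalIntegrable (by fun_prop) _ _)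
        (Continuous.intervalIntegrable (by fun_prop) _ _)]
      refine intervalIntegral.integral_congr fun r _ => ?_
      ring
    rw [h1, ← s3, s1, s4, hV]
    ring
  refine closure_Icc_eq hf.pos hhc (by fun_prop) fun r hr => ?_
  by_contra hne
  have hfr := hf.f_pos r hr.1 hr.2.le
  have hhr := hf.h_pos r hr.1.le hr.2
  have hlt : R * deriv f r < h r := lt_of_le_of_ne (hle r ⟨hr.1.le, hr.2.le⟩) (Ne.symm hne)
  have hpos : 0 < ∫ r in (0 : ℝ)..L, f r ^ (a + 1) * h r ^ b * (h r - R * deriv f r) := by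
    refine intervalIntegral.integral_pos hf.pos (Continuous.continuousOn (by fun_prop)) (fun x hx => ?_)
      ⟨r, ⟨hr.1.le, hr.2.le⟩, ?_⟩
    · have h1 := hf.f_pos x hx.1 hx.2
      have h2 := hh0 x ⟨hx.1.le, hx.2⟩
      have h3 := hle x ⟨hx.1.le, hx.2⟩
      have h4 : 0 ≤ h x - R * deriv f x := by linarith
      positivity
    · have h4 : 0 < h r - R * deriv f r := by linarith
      positivity
  linarith

/-- An invariant metric whose systolic ratio is at most that of the round metric is round. -/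
theorem rigid {k m : ℕ} (hk : 2 ≤ k) (hm : 2 ≤ m) {L : ℝ} {f h : ℝ → ℝ}
    (hf : IsProfile2 L f h) {R : ℝ} (hR : 0 < R)
    (hsys : ENNReal.ofReal (π * R) ≤ systole k m L f h)
    (hV : ∫ r in (0 : ℝ)..L, f r ^ (k - 1) * h r ^ (m - 1) =
      R ^ (k + m - 1) * (∫ t in (0 : ℝ)..π / 2, Real.sin t ^ (k - 1) * Real.cos t ^ (m - 1))) :
    L = R * (π / 2) ∧ ∀ r ∈ Icc 0 L, f r = R * Real.sin (r / R) ∧ h r = R * Real.cos (r / R) := by
  have hfc : Continuous f := hf.smooth_f.continuous
  have hhc : Continuous h := hf.smooth_h.continuous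
  have hfd : Differentiable ℝ f := hf.smooth_f.differentiable (by simp)
  have hhd : Differentiable ℝ h := hf.smooth_h.differentiable (by simp)
  have hh'c : Continuous (deriv h) := hf.smooth_h.continuous_deriv (by simp)
  have hcirc := circle_of_eq hk hm hf hR hsys hV
  have hder := deriv_of_eq hk hm hf hR hsys hV
  have hA : ∀ r ∈ Icc 0 L, deriv f r = h r / R := fun r hr => by
    rw [eq_div_iff hR.ne', hder r hr, mul_comm]
  have hB : ∀ r ∈ Icc 0 L, deriv h r = -f r / R := by
    refine closure_Icc_eq hf.pos hh'c (by fun_prop) fun r hr => ?_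
    have h1 : HasDerivAt (fun r => f r ^ 2 + h r ^ 2) (2 * f r * deriv f r + 2 * h r * deriv h r) r := by
      have := ((hfd r).hasDerivAt.fun_pow 2).fun_add ((hhd r).hasDerivAt.fun_pow 2)
      simpa using this
    have h2 : (fun r => f r ^ 2 + h r ^ 2) =ᶠ[𝓝 r] fun _ => R ^ 2 := by
      filter_upwards [isOpen_Ioo.mem_nhds hr] with s hs
      exact hcirc s ⟨hs.1.le, hs.2.le⟩
    have h3 := h1.unique ((hasDerivAt_const r (R ^ 2)).congr_of_eventuallyEq h2)
    rw [hA r ⟨hr.1.le, hr.2.le⟩] at h3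
    have hhr := hf.h_pos r hr.1.le hr.2
    rw [eq_div_iff hR.ne']
    have h4 : 2 * h r * (f r + deriv h r * R) = 0 := by
      have : 2 * h r * (f r + deriv h r * R) = R * (2 * f r * (h r / R) + 2 * h r * deriv h r) := by
        field_simp
      rw [this, h3, mul_zero]
    have h5 : f r + deriv h r * R = 0 := by
      rcases mul_eq_zero.1 h4 with h6 | h6
      · exact absurd h6 (by positivity)
      · exact h6
    linarith
  have hS : ∀ r ∈ Icc 0 L, f r * Real.cos (r / R) - h r * Real.sin (r / R) =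
      f 0 * Real.cos (0 / R) - h 0 * Real.sin (0 / R) := by
    refine constant_of_has_deriv_right_zero (Continuous.continuousOn (by fun_prop)) fun r hr => ?_
    have d1 : HasDerivAt (fun r => r / R) (1 / R) r := (hasDerivAt_id r).div_const R
    have d2 := ((hfd r).hasDerivAt.mul d1.cos).sub ((hhd r).hasDerivAt.mul d1.sin)
    rw [hA r ⟨hr.1, hr.2.le⟩, hB r ⟨hr.1, hr.2.le⟩] at d2
    refine (d2.congr_deriv ?_).hasDerivWithinAt
    ring
  have hC : ∀ r ∈ Icc 0 L, f r * Real.sin (r / R) + h r * Real.cos (r / R) =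
      f 0 * Real.sin (0 / R) + h 0 * Real.cos (0 / R) := by
    refine constant_of_has_deriv_right_zero (Continuous.continuousOn (by fun_prop)) fun r hr => ?_
    have d1 : HasDerivAt (fun r => r / R) (1 / R) r := (hasDerivAt_id r).div_const R
    have d2 := ((hfd r).hasDerivAt.mul d1.sin).add ((hhd r).hasDerivAt.mul d1.cos)
    rw [hA r ⟨hr.1, hr.2.le⟩, hB r ⟨hr.1, hr.2.le⟩] at d2
    refine (d2.congr_deriv ?_).hasDerivWithinAt
    ring
  have hh00 : h 0 = R := by
    have h1 := hcirc 0 ⟨le_rfl, hf.pos.le⟩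
    rw [f_zero hf] at h1
    have h2 : h 0 ^ 2 = R ^ 2 := by linarith
    exact (pow_left_inj₀ (hf.h_pos 0 le_rfl hf.pos).le hR.le two_ne_zero).1 h2
  rw [f_zero hf, hh00, zero_div, Real.sin_zero, Real.cos_zero] at hS hC
  have hfh : ∀ r ∈ Icc 0 L, f r = R * Real.sin (r / R) ∧ h r = R * Real.cos (r / R) := by
    intro r hr
    have h1 := hS r hr
    have h2 := hC r hr
    have h3 := Real.cos_sq_add_sin_sq (r / R)
    constructor
    · calc f r = f r * (Real.cos (r / R) ^ 2 + Real.sin (r / R) ^ 2) := by rw [h3, mul_one]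
        _ = (f r * Real.cos (r / R) - h r * Real.sin (r / R)) * Real.cos (r / R) +
            (f r * Real.sin (r / R) + h r * Real.cos (r / R)) * Real.sin (r / R) := by ring
        _ = _ := by rw [h1, h2]; ring
    · calc h r = h r * (Real.cos (r / R) ^ 2 + Real.sin (r / R) ^ 2) := by rw [h3, mul_one]
        _ = (f r * Real.sin (r / R) + h r * Real.cos (r / R)) * Real.cos (r / R) -
            (f r * Real.cos (r / R) - h r * Real.sin (r / R)) * Real.sin (r / R) := by ring
        _ = _ := by rw [h1, h2]; ring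
  refine ⟨?_, hfh⟩
  have hpi := Real.pi_pos
  have hL := hf.pos
  rcases lt_trichotomy L (R * (π / 2)) with h1 | h1 | h1
  · exfalso
    have h2 := (hfh L ⟨hL.le, le_rfl⟩).2
    rw [h_L hf] at h2
    have h3 : 0 < Real.cos (L / R) := Real.cos_pos_of_mem_Ioo
      ⟨by have : 0 < L / R := by positivity
          linarith, by rwa [div_lt_iff₀' hR]⟩
    have : 0 < R * Real.cos (L / R) := by positivity
    linarith
  · exact h1
  · exfalso
    have h2 := (hfh (R * (π / 2)) ⟨by positivity, h1.le⟩).2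
    have h3 := hf.h_pos (R * (π / 2)) (by positivity) h1
    rw [h2, mul_div_cancel_left₀ _ hR.ne', Real.cos_pi_div_two, mul_zero] at h3
    exact lt_irrefl _ h3

end Pool.Agent.TH432.RP
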