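import Pool.Agent.TH432.RP.Rigid

/-! Rigidity, in terms of the systolic ratio. -/

open Real Set MeasureTheory Filter Topology
open scoped ENNReal ContDiff
open Pool.Agent.H206R2.Rot2 (IsProfile2)

namespace Pool.Agent.TH432.RP

theorem rigid_main {k m : ℕ} (hk : 2 ≤ k) (hm : 2 ≤ m) {L : ℝ} {f h : ℝ → ℝ} (hf : IsProfile2 L f h)
    (hle : ENNReal.ofReal (π ^ (k + m - 1) * ∫ r in (0 : ℝ)..L, f r ^ (k - 1) * h r ^ (m - 1)) ≤
      systole k m L f h ^ (k + m - 1) * ENNReal.ofReal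
        (∫ t in (0 : ℝ)..π / 2, Real.sin t ^ (k - 1) * Real.cos t ^ (m - 1))) :
    ∃ R : ℝ, 0 < R ∧ L = R * (π / 2) ∧
      ∀ r ∈ Icc 0 L, f r = R * Real.sin (r / R) ∧ h r = R * Real.cos (r / R) := by
  have hfc : Continuous f := hf.smooth_f.continuous
  have hhc : Continuous h := hf.smooth_h.continuous
  have hLpos := hf.pos
  have hpi := Real.pi_pos
  have hW : 0 < ∫ t in (0 : ℝ)..π / 2, Real.sin t ^ (k - 1) * Real.cos t ^ (m - 1) := by
    refine intervalIntegral.intervalIntegral_pos_of_pos_on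
      (((Real.continuous_sin.pow _).mul (Real.continuous_cos.pow _)).intervalIntegrable _ _)
      (fun x hx => ?_) (by linarith)
    exact mul_pos (pow_pos (Real.sin_pos_of_pos_of_lt_pi hx.1 (by linarith [hx.2])) _)
      (pow_pos (Real.cos_pos_of_mem_Ioo ⟨by linarith [hx.1], hx.2⟩) _)
  have hV : 0 < ∫ r in (0 : ℝ)..L, f r ^ (k - 1) * h r ^ (m - 1) := by
    refine intervalIntegral.intervalIntegral_pos_of_pos_on
      (((hfc.pow _).mul (hhc.pow _)).intervalIntegrable _ _) (fun x hx => ?_) hLpos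
    exact mul_pos (pow_pos (hf.f_pos x hx.1 hx.2.le) _) (pow_pos (hf.h_pos x hx.1.le hx.2) _)
  have hn0 : k + m - 1 ≠ 0 := by omega
  obtain ⟨W, hWe⟩ : ∃ W, W = ∫ t in (0 : ℝ)..π / 2, Real.sin t ^ (k - 1) * Real.cos t ^ (m - 1) :=
    ⟨_, rfl⟩
  obtain ⟨V, hVe⟩ : ∃ V, V = ∫ r in (0 : ℝ)..L, f r ^ (k - 1) * h r ^ (m - 1) := ⟨_, rfl⟩
  rw [← hWe, ← hVe] at hle
  rw [← hWe] at hW
  rw [← hVe] at hV
  obtain ⟨R, hR, hRn⟩ : ∃ R : ℝ, 0 < R ∧ R ^ (k + m - 1) * W = V := by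
    refine ⟨(V / W) ^ (((k + m - 1 : ℕ) : ℝ)⁻¹), Real.rpow_pos_of_pos (div_pos hV hW) _, ?_⟩
    rw [Real.rpow_inv_natCast_pow (div_pos hV hW).le hn0]
    field_simp
  have hsys : ENNReal.ofReal (π * R) ≤ systole k m L f h := by
    by_contra hcon
    have h1 := ENNReal.pow_right_strictMono hn0 (not_le.1 hcon)
    simp only at h1
    have h2 : systole k m L f h ^ (k + m - 1) * ENNReal.ofReal W <
        ENNReal.ofReal (π * R) ^ (k + m - 1) * ENNReal.ofReal W := by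
      rw [mul_comm, mul_comm (ENNReal.ofReal (π * R) ^ (k + m - 1))]
      exact ENNReal.mul_lt_mul_right (by simpa using hW) ENNReal.ofReal_ne_top h1
    have h3 : ENNReal.ofReal (π * R) ^ (k + m - 1) * ENNReal.ofReal W =
        ENNReal.ofReal (π ^ (k + m - 1) * V) := by
      rw [← ENNReal.ofReal_pow (by positivity), ← ENNReal.ofReal_mul (by positivity), ← hRn, mul_pow]
      ring_nf
    rw [h3] at h2
    exact absurd hle (not_le.2 h2)
  exact ⟨R, hR, rigid hk hm hf hR hsys (by rw [← hVe, ← hWe, hRn])⟩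

end Pool.Agent.TH432.RP
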