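import Pool.Agent.TH432.RP.Main

/-! The systole of the round metric is `π`. -/

open Real Set MeasureTheory Filter Topology
open scoped ENNReal ContDiff
open Pool.Agent.H206R2.Rot2 (IsProfile2)

namespace Pool.Agent.TH432.RP

lemma profile_round : IsProfile2 (π / 2) Real.sin Real.cos where
  pos := by positivity
  smooth_f := Real.contDiff_sin
  smooth_h := Real.contDiff_cos
  f_odd := Real.sin_neg
  f_even := fun r => by rw [Real.sin_add, Real.sin_sub]; simp
  h_even := Real.cos_neg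
  h_odd := fun r => by rw [Real.cos_add, Real.cos_sub]; simp
  f_pos := fun r h0 h1 => Real.sin_pos_of_pos_of_lt_pi h0 (by linarith [Real.pi_pos])
  h_pos := fun r h0 h1 => Real.cos_pos_of_mem_Ioo ⟨by linarith [Real.pi_pos], h1⟩
  f_deriv := by rw [Real.deriv_sin, Real.cos_zero]
  h_deriv := by rw [Real.deriv_cos, Real.sin_pi_div_two]

/-- Cauchy-Schwarz for the tangential part. -/
lemma cs {E F : Type*} [NormedAddCommGroup E] [InnerProductSpace ℝ E] [NormedAddCommGroup F]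
    [InnerProductSpace ℝ F] {A C C' : E} {B D D' : F} (h1 : ‖A‖ ^ 2 + ‖B‖ ^ 2 = 1)
    (h2 : ‖C‖ ^ 2 + ‖D‖ ^ 2 = 1) (h3 : inner ℝ C C' + inner ℝ D D' = 0) :
    (inner ℝ A C' + inner ℝ B D') ^ 2 ≤
      (1 - (inner ℝ A C + inner ℝ B D) ^ 2) * (‖C'‖ ^ 2 + ‖D'‖ ^ 2) := by
  set x := inner ℝ A C + inner ℝ B D with hx
  have e1 : inner ℝ A C' + inner ℝ B D' = inner ℝ (A - x • C) C' + inner ℝ (B - x • D) D' := by
    rw [inner_sub_left, inner_sub_left, real_inner_smul_left, real_inner_smul_left]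
    linear_combination (x) * h3
  have e2 : ‖A - x • C‖ ^ 2 + ‖B - x • D‖ ^ 2 = 1 - x ^ 2 := by
    rw [norm_sub_sq_real, norm_sub_sq_real, norm_smul, norm_smul, real_inner_smul_right,
      real_inner_smul_right, mul_pow, mul_pow, Real.norm_eq_abs, sq_abs]
    linear_combination h1 + x ^ 2 * h2 + 2 * x * hx
  rw [e1, ← e2]
  have c1 := abs_real_inner_le_norm (A - x • C) C'
  have c2 := abs_real_inner_le_norm (B - x • D) D'
  have c3 : |inner ℝ (A - x • C) C' + inner ℝ (B - x • D) D'| ≤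
      ‖A - x • C‖ * ‖C'‖ + ‖B - x • D‖ * ‖D'‖ := (abs_add_le _ _).trans (add_le_add c1 c2)
  rw [← sq_abs]
  refine (pow_le_pow_left₀ (abs_nonneg _) c3 2).trans ?_
  nlinarith [sq_nonneg (‖A - x • C‖ * ‖D'‖ - ‖B - x • D‖ * ‖C'‖)]

/-- A function with derivative bounded by the integrand. -/
lemma change_le {a b : ℝ} (hab : a < b) {φ v : ℝ → ℝ} (F : Finset ℝ) (hφ : ContinuousOn φ (Icc a b))
    (hd : ∀ t ∈ Ioo a b, t ∉ F → DifferentiableAt ℝ φ t ∧ |deriv φ t| ≤ v t) :
    ENNReal.ofReal |φ b - φ a| ≤ ∫⁻ t in Ioo a b, ENNReal.ofReal (v t) := by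
  rcases eq_or_ne (∫⁻ t in Ioo a b, ENNReal.ofReal (v t)) ⊤ with h | h
  · rw [h]; exact le_top
  have h2 : ∀ᵐ t ∂(volume.restrict (Ioo a b)), t ∉ (F : Set ℝ) :=
    ae_restrict_of_ae (measure_eq_zero_iff_ae_notMem.1 (F.finite_toSet.measure_zero volume))
  have hle : ∫⁻ t in Ioo a b, ‖deriv φ t‖ₑ ≤ ∫⁻ t in Ioo a b, ENNReal.ofReal (v t) := by
    refine lintegral_mono_ae ?_
    filter_upwards [ae_restrict_mem measurableSet_Ioo, h2] with t ht htF
    rw [← ofReal_norm, Real.norm_eq_abs]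
    exact ENNReal.ofReal_le_ofReal (hd t ht (by simpa using htF)).2
  have hint : IntegrableOn (deriv φ) (Ioo a b) :=
    ⟨(measurable_deriv φ).aestronglyMeasurable, hle.trans_lt (lt_top_iff_ne_top.2 h)⟩
  have hI : IntervalIntegrable (deriv φ) volume a b := by
    rw [intervalIntegrable_iff_integrableOn_Ioo_of_le hab.le]
    exact hint
  have hFTC := integral_eq_of_hasDerivAt_off_countable_of_le φ (deriv φ) hab.le
    (F.finite_toSet.countable) hφ (fun x hx => (hd x hx.1 (by simpa using hx.2)).1.hasDerivAt) hI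
  rw [← hFTC, intervalIntegral.integral_of_le hab.le, integral_Ioc_eq_integral_Ioo, ← Real.norm_eq_abs,
    ofReal_norm]
  exact (enorm_integral_le_lintegral_enorm _).trans hle

end Pool.Agent.TH432.RP
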